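import Pool.Agent.Helper580.IsingPeierls

set_option autoImplicit false

namespace Pool.Agent.H767R3.CAComb

open Finset Pool.Agent.Helper580.IsingGraph Pool.Agent.Helper580.IsingLat

/-! ### Bernoulli expectation -/
section ber
variable {V : Type*} [DecidableEq V]

/-- expectation of `g` of a random subset of `D` with independent inclusions of probability `r i` -/
noncomputable def Ber (r : V → ℝ) (D : Finset V) (g : Finset V → ℝ) : ℝ :=
  ∑ T ∈ D.powerset, (∏ i ∈ D, if i ∈ T then r i else 1 - r i) * g T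

theorem Ber_empty (r : V → ℝ) (g : Finset V → ℝ) : Ber r ∅ g = g ∅ := by
  simp [Ber]

theorem Ber_insert (r : V → ℝ) {D : Finset V} {a : V} (ha : a ∉ D) (g : Finset V → ℝ) :
    Ber r (insert a D) g = r a * Ber r D (fun T => g (insert a T)) + (1 - r a) * Ber r D g := by
  unfold Ber
  rw [Finset.sum_powerset_insert ha, add_comm, Finset.mul_sum, Finset.mul_sum]
  congr 1
  · refine Finset.sum_congr rfl fun T hT => ?_
    rw [Finset.prod_insert ha, if_pos (Finset.mem_insert_self a T)]
    have : ∏ i ∈ D, (if i ∈ insert a T then r i else 1 - r i) =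
        ∏ i ∈ D, (if i ∈ T then r i else 1 - r i) := by
      refine Finset.prod_congr rfl fun i hi => ?_
      have hia : i ≠ a := fun h => ha (h ▸ hi)
      simp [Finset.mem_insert, hia]
    rw [this]; ring
  · refine Finset.sum_congr rfl fun T hT => ?_
    have haT : a ∉ T := fun h => ha (Finset.mem_powerset.mp hT h)
    rw [Finset.prod_insert ha, if_neg haT]; ring

theorem Ber_const (r : V → ℝ) (D : Finset V) (c : ℝ) : Ber r D (fun _ => c) = c := by
  induction D using Finset.induction_on with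
  | empty => simp [Ber_empty]
  | insert a D ha ih => rw [Ber_insert r ha, ih]; ring

theorem Ber_mono {r r' : V → ℝ} {D : Finset V} (h0 : ∀ i ∈ D, 0 ≤ r i) (h01 : ∀ i ∈ D, r i ≤ r' i)
    (h1 : ∀ i ∈ D, r' i ≤ 1) {g g' : Finset V → ℝ} (hg : ∀ S T, S ⊆ T → g S ≤ g T)
    (hg' : ∀ S T, S ⊆ T → g' S ≤ g' T) (hgg' : ∀ S, g S ≤ g' S) :
    Ber r D g ≤ Ber r' D g' := by
  induction D using Finset.induction_on generalizing r r' g g' with
  | empty => simpa [Ber_empty] using hgg' ∅
  | insert a D ha ih =>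
    rw [Ber_insert r ha, Ber_insert r' ha]
    have h0' : ∀ i ∈ D, 0 ≤ r i := fun i hi => h0 i (Finset.mem_insert_of_mem hi)
    have h01' : ∀ i ∈ D, r i ≤ r' i := fun i hi => h01 i (Finset.mem_insert_of_mem hi)
    have h1' : ∀ i ∈ D, r' i ≤ 1 := fun i hi => h1 i (Finset.mem_insert_of_mem hi)
    have hins : ∀ S T : Finset V, S ⊆ T → g (insert a S) ≤ g (insert a T) :=
      fun S T hST => hg _ _ (Finset.insert_subset_insert a hST)
    have hins' : ∀ S T : Finset V, S ⊆ T → g' (insert a S) ≤ g' (insert a T) :=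
      fun S T hST => hg' _ _ (Finset.insert_subset_insert a hST)
    have e1 : Ber r D (fun T => g (insert a T)) ≤ Ber r' D (fun T => g' (insert a T)) :=
      ih h0' h01' h1' hins hins' (fun S => hgg' _)
    have e0 : Ber r D g ≤ Ber r' D g' := ih h0' h01' h1' hg hg' hgg'
    have e2' : Ber r' D g' ≤ Ber r' D (fun T => g' (insert a T)) := by
      apply ih (fun i hi => (h0' i hi).trans (h01' i hi)) (fun i _ => le_refl _) h1' hg' hins'
      intro S; exact hg' _ _ (Finset.subset_insert a S)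
    have ha0 := h0 a (Finset.mem_insert_self a D)
    have ha01 := h01 a (Finset.mem_insert_self a D)
    have ha1 := h1 a (Finset.mem_insert_self a D)
    nlinarith [mul_nonneg ha0 (sub_nonneg.mpr e1), mul_nonneg (sub_nonneg.mpr (ha01.trans ha1))
      (sub_nonneg.mpr e0), mul_nonneg (sub_nonneg.mpr ha01) (sub_nonneg.mpr e2')]

theorem Ber_congr {r r' : V → ℝ} {D : Finset V} (h : ∀ i ∈ D, r i = r' i) {g g' : Finset V → ℝ}
    (hg : ∀ T ⊆ D, g T = g' T) : Ber r D g = Ber r' D g' := by
  unfold Ber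
  refine Finset.sum_congr rfl fun T hT => ?_
  rw [hg T (Finset.mem_powerset.mp hT)]
  congr 1
  refine Finset.prod_congr rfl fun i hi => ?_
  rw [h i hi]

theorem Ber_compl (r : V → ℝ) (D : Finset V) (g : Finset V → ℝ) :
    Ber (fun i => 1 - r i) D g = Ber r D (fun T => g (D \ T)) := by
  unfold Ber
  refine Finset.sum_nbij' (fun T => D \ T) (fun T => D \ T) ?_ ?_ ?_ ?_ ?_
  · intro T _; exact Finset.mem_powerset.mpr Finset.sdiff_subset
  · intro T _; exact Finset.mem_powerset.mpr Finset.sdiff_subset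
  · intro T hT; exact Finset.sdiff_sdiff_eq_self (Finset.mem_powerset.mp hT)
  · intro T hT; exact Finset.sdiff_sdiff_eq_self (Finset.mem_powerset.mp hT)
  · intro T hT
    show _ = (∏ i ∈ D, if i ∈ D \ T then r i else 1 - r i) * g (D \ (D \ T))
    rw [Finset.sdiff_sdiff_eq_self (Finset.mem_powerset.mp hT)]
    congr 1
    refine Finset.prod_congr rfl fun i hi => ?_
    by_cases hiT : i ∈ T
    · simp [hiT]
    · simp [hiT, hi]

theorem Ber_sub (r : V → ℝ) (D : Finset V) (g : Finset V → ℝ) :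
    Ber r D (fun T => 1 - g T) = 1 - Ber r D g := by
  have h1 := Ber_const r D 1
  have h2 : Ber r D (fun T => 1 - g T) = Ber r D (fun _ => 1) - Ber r D g := by
    unfold Ber
    rw [← Finset.sum_sub_distrib]
    refine Finset.sum_congr rfl fun T _ => ?_
    ring
  rw [h2, h1]

end ber

/-! ### heat bath for the Ising weight -/

variable {d : ℕ}

/-- probability that the site becomes minus -/
noncomputable def rate (β : ℝ) (S : Finset (Fin d → ℤ)) (a : Fin d → ℤ) : ℝ :=
  Real.exp (-(2 * β * ((nb a \ S).card : ℝ))) /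
    (Real.exp (-(2 * β * ((nb a \ S).card : ℝ))) + Real.exp (-(2 * β * ((nb a ∩ S).card : ℝ))))

theorem bd_insert {S : Finset (Fin d → ℤ)} {a : Fin d → ℤ} (ha : a ∉ S) :
    bd nb (insert a S) + (nb a ∩ S).card = bd nb S + (nb a \ S).card := by
  unfold bd
  rw [Finset.sum_insert ha]
  have h1 : nb a \ insert a S = nb a \ S := by
    ext y
    simp only [Finset.mem_sdiff, Finset.mem_insert, not_or]
    constructor
    · rintro ⟨h1, _, h3⟩; exact ⟨h1, h3⟩
    · rintro ⟨h1, h3⟩
      refine ⟨h1, ?_, h3⟩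
      rintro rfl
      exact nb_irrefl _ h1
  rw [h1]
  have h2 : ∑ x ∈ S, (nb x \ insert a S).card + (nb a ∩ S).card = ∑ x ∈ S, (nb x \ S).card := by
    have e : (nb a ∩ S).card = ∑ x ∈ S, (if a ∈ nb x then 1 else 0) := by
      rw [← Finset.card_filter]
      congr 1
      ext y
      simp only [Finset.mem_inter, Finset.mem_filter]
      rw [nb_symm a y]; tauto
    rw [e, ← Finset.sum_add_distrib]
    refine Finset.sum_congr rfl fun x hx => ?_
    have e2 : nb x \ insert a S = (nb x \ S).erase a := by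
      ext y
      simp only [Finset.mem_sdiff, Finset.mem_insert, Finset.mem_erase, not_or]
      tauto
    rw [e2]
    split_ifs with h
    · have : a ∈ nb x \ S := Finset.mem_sdiff.mpr ⟨h, ha⟩
      exact Finset.card_erase_add_one this
    · have : a ∉ nb x \ S := fun h' => h (Finset.mem_sdiff.mp h').1
      rw [Finset.erase_eq_of_notMem this, add_zero]
  omega

theorem wt_insert (β : ℝ) {S : Finset (Fin d → ℤ)} {a : Fin d → ℤ} (ha : a ∉ S) :
    wt nb β (insert a S) = rate β S a * (wt nb β S + wt nb β (insert a S)) := by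
  have h := bd_insert ha
  have h' : (bd nb (insert a S) : ℝ) + ((nb a ∩ S).card : ℝ) = (bd nb S : ℝ) + ((nb a \ S).card : ℝ) := by
    exact_mod_cast h
  unfold rate wt
  set A := (bd nb (insert a S) : ℝ)
  set B := (bd nb S : ℝ)
  set k := ((nb a ∩ S).card : ℝ)
  set m := ((nb a \ S).card : ℝ)
  have hA : A = B + m - k := by linarith
  rw [hA]
  have e1 : Real.exp (-(2 * β * (B + m - k))) =
      Real.exp (-(2 * β * B)) * Real.exp (-(2 * β * m)) / Real.exp (-(2 * β * k)) := by
    rw [← Real.exp_add, ← Real.exp_sub]; congr 1; ring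
  rw [e1]
  have p1 := Real.exp_pos (-(2 * β * m))
  have p2 := Real.exp_pos (-(2 * β * k))
  have p3 := Real.exp_pos (-(2 * β * B))
  field_simp
  ring

theorem rate_insert (β : ℝ) (S : Finset (Fin d → ℤ)) {a b : Fin d → ℤ} (hb : b ∉ nb a) :
    rate β (insert b S) a = rate β S a := by
  unfold rate
  have h1 : nb a \ insert b S = nb a \ S := by
    ext y
    simp only [Finset.mem_sdiff, Finset.mem_insert, not_or]
    constructor
    · rintro ⟨h1, _, h3⟩; exact ⟨h1, h3⟩
    · rintro ⟨h1, h3⟩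
      exact ⟨h1, fun h => hb (h ▸ h1), h3⟩
  have h2 : nb a ∩ insert b S = nb a ∩ S := by
    ext y
    simp only [Finset.mem_inter, Finset.mem_insert]
    constructor
    · rintro ⟨h1, h | h⟩
      · exact absurd (h ▸ h1) hb
      · exact ⟨h1, h⟩
    · rintro ⟨h1, h3⟩
      exact ⟨h1, Or.inr h3⟩
  rw [h1, h2]

theorem rate_congr (β : ℝ) {S T : Finset (Fin d → ℤ)} {a : Fin d → ℤ}
    (h : ∀ y ∈ nb a, y ∈ S ↔ y ∈ T) : rate β S a = rate β T a := by
  unfold rate
  have h1 : nb a \ S = nb a \ T := by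
    ext y
    simp only [Finset.mem_sdiff]
    constructor
    · rintro ⟨h1, h3⟩; exact ⟨h1, fun h' => h3 ((h y h1).mpr h')⟩
    · rintro ⟨h1, h3⟩; exact ⟨h1, fun h' => h3 ((h y h1).mp h')⟩
  have h2 : nb a ∩ S = nb a ∩ T := by
    ext y
    simp only [Finset.mem_inter]
    constructor
    · rintro ⟨h1, h3⟩; exact ⟨h1, (h y h1).mp h3⟩
    · rintro ⟨h1, h3⟩; exact ⟨h1, (h y h1).mpr h3⟩
  rw [h1, h2]

theorem rate_nonneg (β : ℝ) (S : Finset (Fin d → ℤ)) (a : Fin d → ℤ) : 0 ≤ rate β S a := by
  unfold rate; positivity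

theorem rate_le_one (β : ℝ) (S : Finset (Fin d → ℤ)) (a : Fin d → ℤ) : rate β S a ≤ 1 := by
  unfold rate
  rw [div_le_one (by positivity)]
  have := Real.exp_pos (-(2 * β * ((nb a ∩ S).card : ℝ)))
  linarith

theorem rate_mono {β : ℝ} (hβ : 0 ≤ β) {S T : Finset (Fin d → ℤ)} (h : S ⊆ T) (a : Fin d → ℤ) :
    rate β S a ≤ rate β T a := by
  unfold rate
  have h1 : ((nb a \ T).card : ℝ) ≤ ((nb a \ S).card : ℝ) := by
    exact_mod_cast Finset.card_le_card (Finset.sdiff_subset_sdiff (Finset.Subset.refl _) h)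
  have h2 : ((nb a ∩ S).card : ℝ) ≤ ((nb a ∩ T).card : ℝ) := by
    exact_mod_cast Finset.card_le_card (Finset.inter_subset_inter (Finset.Subset.refl _) h)
  have e1 : Real.exp (-(2 * β * ((nb a \ S).card : ℝ))) ≤ Real.exp (-(2 * β * ((nb a \ T).card : ℝ))) := by
    apply Real.exp_le_exp.mpr
    have := mul_le_mul_of_nonneg_left h1 hβ
    linarith
  have e2 : Real.exp (-(2 * β * ((nb a ∩ T).card : ℝ))) ≤ Real.exp (-(2 * β * ((nb a ∩ S).card : ℝ))) := by
    apply Real.exp_le_exp.mpr
    have := mul_le_mul_of_nonneg_left h2 hβ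
    linarith
  have p1 := Real.exp_pos (-(2 * β * ((nb a \ S).card : ℝ)))
  have p2 := Real.exp_pos (-(2 * β * ((nb a \ T).card : ℝ)))
  have p3 := Real.exp_pos (-(2 * β * ((nb a ∩ S).card : ℝ)))
  have p4 := Real.exp_pos (-(2 * β * ((nb a ∩ T).card : ℝ)))
  rw [div_le_div_iff₀ (by positivity) (by positivity)]
  nlinarith [mul_le_mul e1 e2 p4.le p2.le]

theorem rate_compl (β : ℝ) (S D : Finset (Fin d → ℤ)) {a : Fin d → ℤ} (h : nb a ⊆ D) :
    rate β (D \ S) a = 1 - rate β S a := by
  unfold rate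
  have h1 : nb a \ (D \ S) = nb a ∩ S := by
    ext y
    simp only [Finset.mem_sdiff, Finset.mem_inter, not_and, not_not]
    constructor
    · rintro ⟨h1, h3⟩; exact ⟨h1, h3 (h h1)⟩
    · rintro ⟨h1, h3⟩; exact ⟨h1, fun _ => h3⟩
  have h2 : nb a ∩ (D \ S) = nb a \ S := by
    ext y
    simp only [Finset.mem_sdiff, Finset.mem_inter]
    constructor
    · rintro ⟨h1, _, h3⟩; exact ⟨h1, h3⟩
    · rintro ⟨h1, h3⟩; exact ⟨h1, h h1, h3⟩
  rw [h1, h2]
  have p1 := Real.exp_pos (-(2 * β * ((nb a \ S).card : ℝ)))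
  have p3 := Real.exp_pos (-(2 * β * ((nb a ∩ S).card : ℝ)))
  field_simp
  ring

/-- one site balance -/
theorem one_site (β : ℝ) {Λ : Finset (Fin d → ℤ)} {a : Fin d → ℤ} (ha : a ∈ Λ)
    (G : Finset (Fin d → ℤ) → ℝ) (hG : ∀ S, a ∉ S → G (insert a S) = G S) :
    ∑ S ∈ Λ.powerset, wt nb β S * (rate β S a * G S) =
      ∑ S ∈ Λ.powerset, wt nb β S * (if a ∈ S then G S else 0) := by
  have hΛ : Λ = insert a (Λ.erase a) := (Finset.insert_erase ha).symm
  rw [hΛ, Finset.sum_powerset_insert (Finset.notMem_erase a Λ),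
    Finset.sum_powerset_insert (Finset.notMem_erase a Λ), ← Finset.sum_add_distrib,
    ← Finset.sum_add_distrib]
  refine Finset.sum_congr rfl fun S hS => ?_
  have haS : a ∉ S := fun h => (Finset.mem_erase.mp (Finset.mem_powerset.mp hS h)).1 rfl
  rw [if_neg haS, if_pos (Finset.mem_insert_self a S), hG S haS, rate_insert β S (nb_irrefl a)]
  have h := wt_insert β haS
  calc wt nb β S * (rate β S a * G S) + wt nb β (insert a S) * (rate β S a * G S) =
      (rate β S a * (wt nb β S + wt nb β (insert a S))) * G S := by ring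
    _ = wt nb β S * 0 + wt nb β (insert a S) * G S := by rw [← h]; ring

/-- block heat bath preserves the Ising measure -/
theorem stat (β : ℝ) {Λ : Finset (Fin d → ℤ)} (D : Finset (Fin d → ℤ)) (hD : D ⊆ Λ)
    (hind : ∀ x ∈ D, ∀ y ∈ D, y ∉ nb x) (G h : Finset (Fin d → ℤ) → ℝ)
    (hG : ∀ a ∈ D, ∀ S, a ∉ S → G (insert a S) = G S) :
    ∑ S ∈ Λ.powerset, wt nb β S * (G S * Ber (rate β S) D h) =
      ∑ S ∈ Λ.powerset, wt nb β S * (G S * h (S ∩ D)) := by
  classical
  induction D using Finset.induction_on generalizing G h with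
  | empty => simp [Ber_empty]
  | insert a D ha ih =>
    have haΛ : a ∈ Λ := hD (Finset.mem_insert_self a D)
    have hDΛ : D ⊆ Λ := (Finset.subset_insert a D).trans hD
    have hind' : ∀ x ∈ D, ∀ y ∈ D, y ∉ nb x := fun x hx y hy =>
      hind x (Finset.mem_insert_of_mem hx) y (Finset.mem_insert_of_mem hy)
    have hGa := hG a (Finset.mem_insert_self a D)
    have hGD : ∀ b ∈ D, ∀ S, b ∉ S → G (insert b S) = G S := fun b hb =>
      hG b (Finset.mem_insert_of_mem hb)
    have hBer : ∀ (h' : Finset (Fin d → ℤ) → ℝ) (S : Finset (Fin d → ℤ)),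
        Ber (rate β (insert a S)) D h' = Ber (rate β S) D h' := by
      intro h' S
      apply Ber_congr _ (fun _ _ => rfl)
      intro x hx
      exact rate_insert β S (hind x (Finset.mem_insert_of_mem hx) a (Finset.mem_insert_self a D))
    -- split
    have e1 : ∑ S ∈ Λ.powerset, wt nb β S * (G S * Ber (rate β S) (insert a D) h) =
        ∑ S ∈ Λ.powerset, wt nb β S *
          (rate β S a * (G S * (Ber (rate β S) D (fun T => h (insert a T)) - Ber (rate β S) D h))) +
        ∑ S ∈ Λ.powerset, wt nb β S * (G S * Ber (rate β S) D h) := by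
      rw [← Finset.sum_add_distrib]
      refine Finset.sum_congr rfl fun S _ => ?_
      rw [Ber_insert _ ha]; ring
    rw [e1, one_site β haΛ (fun S => G S * (Ber (rate β S) D (fun T => h (insert a T)) -
      Ber (rate β S) D h)) (by
        intro S hS
        rw [hGa S hS, hBer, hBer])]
    have e2 : ∀ h' : Finset (Fin d → ℤ) → ℝ,
        ∑ S ∈ Λ.powerset, wt nb β S * ((if a ∈ S then G S else 0) * Ber (rate β S) D h') =
        ∑ S ∈ Λ.powerset, wt nb β S * ((if a ∈ S then G S else 0) * h' (S ∩ D)) := by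
      intro h'
      apply ih hDΛ hind' (fun S => if a ∈ S then G S else 0) h'
      intro b hb S hbS
      have hab : a ≠ b := fun h => ha (h ▸ hb)
      simp only [Finset.mem_insert, hab, false_or]
      rw [hGD b hb S hbS]
    have e3 : ∑ S ∈ Λ.powerset, wt nb β S * (if a ∈ S then G S * (Ber (rate β S) D
        (fun T => h (insert a T)) - Ber (rate β S) D h) else 0) =
        ∑ S ∈ Λ.powerset, wt nb β S * ((if a ∈ S then G S else 0) * h (insert a (S ∩ D))) -
        ∑ S ∈ Λ.powerset, wt nb β S * ((if a ∈ S then G S else 0) * h (S ∩ D)) := by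
      rw [← e2 h, ← e2 (fun T => h (insert a T)), ← Finset.sum_sub_distrib]
      refine Finset.sum_congr rfl fun S _ => ?_
      split_ifs <;> ring
    rw [e3, ih hDΛ hind' G h hGD, ← Finset.sum_sub_distrib, ← Finset.sum_add_distrib]
    refine Finset.sum_congr rfl fun S _ => ?_
    by_cases haS : a ∈ S
    · have : S ∩ insert a D = insert a (S ∩ D) := by
        rw [Finset.inter_insert_of_mem haS]
      rw [this]; simp only [haS, if_true]; ring
    · have : S ∩ insert a D = S ∩ D := by
        rw [Finset.inter_insert_of_notMem haS]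
      rw [this]; simp only [haS, if_false]; ring

end Pool.Agent.H767R3.CAComb
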