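import Pool.Agent.H767R3.CAProc

set_option autoImplicit false

namespace Pool.Agent.H767R3.CAMeas

open MeasureTheory Filter Topology Pool.Agent.Helper580.IsingGraph Pool.Agent.Helper580.IsingLat
  Pool.Agent.H767R3.CAComb Pool.Agent.H767R3.CAProc
open scoped ENNReal

/-- configurations -/
abbrev Cfg := (Fin 2 → ℤ) → Fin 6

/-- the neighbourhood of the origin -/
abbrev N0 : Finset (Fin 2 → ℤ) := nb 0

theorem card_N0 : N0.card ≤ 4 := card_nb_le 0

/-- the local rule: count the neighbours whose symbol is not `5` -/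
noncomputable def locf (u : N0 → Fin 6) : Fin 6 :=
  ⟨(Finset.univ.filter (fun v : N0 => u v ≠ 5)).card, by
    have h1 := Finset.card_filter_le (Finset.univ : Finset N0) (fun v : N0 => u v ≠ 5)
    have h2 := card_N0
    rw [Finset.card_univ, Fintype.card_coe] at h1
    omega⟩

/-- the cellular automaton -/
noncomputable def F (x : Cfg) (i : Fin 2 → ℤ) : Fin 6 := locf (fun v => x (i + v.1))

theorem locf_ne (u : N0 → Fin 6) : locf u ≠ 5 := by
  intro h
  have := congrArg Fin.val h
  unfold locf at this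
  simp only at this
  have h1 := Finset.card_filter_le (Finset.univ : Finset N0) (fun v : N0 => u v ≠ 5)
  have h2 := card_N0
  rw [Finset.card_univ, Fintype.card_coe] at h1
  have h5 : ((5 : Fin 6) : ℕ) = 5 := rfl
  omega

theorem F_nil : ∃ n : ℕ, ∃ a : Fin 6, ∀ x : Cfg, F^[n] x = fun _ => a := by
  refine ⟨2, locf (fun _ => 0), ?_⟩
  intro x
  funext i
  show locf (fun v => F x (i + v.1)) = _
  unfold locf
  rw [Fin.mk.injEq]
  congr 1
  ext v
  simp only [Finset.mem_filter, Finset.mem_univ, true_and]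
  constructor
  · intro _; decide
  · intro _; exact locf_ne _

theorem nb_eq (i : Fin 2 → ℤ) : nb i = tr i N0 := by
  have := nb_add 0 i
  rwa [zero_add] at this

/-- value of the automaton in terms of the minus set -/
theorem F_val (x : Cfg) (i : Fin 2 → ℤ) :
    (F x i : ℕ) = ((nb i).filter (fun j => x j ≠ 5)).card := by
  unfold F locf
  simp only
  rw [nb_eq i]
  unfold tr
  rw [Finset.filter_map, Finset.card_map, Finset.card_filter, Finset.card_filter]
  rw [Finset.sum_coe_sort N0 (fun j => if x (i + j) ≠ 5 then 1 else 0)]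
  refine Finset.sum_congr rfl fun j _ => ?_
  simp only [Function.comp, addRightEmbedding_apply]
  rw [add_comm j i]

/-- the minus set in a window -/
noncomputable def M (D : Finset (Fin 2 → ℤ)) (x : Cfg) : Finset (Fin 2 → ℤ) :=
  D.filter (fun i => x i = 5)

/-- probability of the symbol `5` after the noise -/
noncomputable def pm (β : ℝ) (b : Fin 6) : ℝ :=
  Real.exp (-(2 * β * ((b : ℕ) : ℝ))) /
    (Real.exp (-(2 * β * ((b : ℕ) : ℝ))) + Real.exp (-(2 * β * ((N0.card : ℝ) - ((b : ℕ) : ℝ)))))

theorem pm_pos (β : ℝ) (b : Fin 6) : 0 < pm β b := by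
  unfold pm; positivity

theorem pm_lt_one (β : ℝ) (b : Fin 6) : pm β b < 1 := by
  unfold pm
  rw [div_lt_one (by positivity)]
  have := Real.exp_pos (-(2 * β * ((N0.card : ℝ) - ((b : ℕ) : ℝ))))
  linarith

theorem pm_eq_rate (β : ℝ) (x : Cfg) (i : Fin 2 → ℤ) (S : Finset (Fin 2 → ℤ))
    (h : ∀ y ∈ nb i, y ∈ S ↔ x y = 5) : pm β (F x i) = rate β S i := by
  unfold pm rate
  have h1 : (nb i).filter (fun j => x j ≠ 5) = nb i \ S := by
    ext y
    simp only [Finset.mem_filter, Finset.mem_sdiff]
    constructor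
    · rintro ⟨h1, h2⟩; exact ⟨h1, fun h3 => h2 ((h y h1).mp h3)⟩
    · rintro ⟨h1, h2⟩; exact ⟨h1, fun h3 => h2 ((h y h1).mpr h3)⟩
  have h2 : (N0.card : ℝ) - ((F x i : ℕ) : ℝ) = ((nb i ∩ S).card : ℝ) := by
    have h3 : (nb i).card = N0.card := by rw [nb_eq i, card_tr]
    have h4 := Finset.card_sdiff_add_card_inter (nb i) S
    rw [F_val, h1, ← h3]
    have h5 : ((nb i).card : ℝ) = ((nb i \ S).card : ℝ) + ((nb i ∩ S).card : ℝ) := by
      exact_mod_cast h4.symm
    rw [h5]; ring
  rw [h2, F_val, h1]

/-- the noise -/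
noncomputable def θ (β : ℝ) (b : Fin 6) : PMF (Fin 6) :=
  PMF.ofFintype (fun j => if j = 5 then ENNReal.ofReal (pm β b) else ENNReal.ofReal ((1 - pm β b) / 5))
    (by
      have h1 := pm_pos β b
      have h2 := pm_lt_one β b
      have h3 : 0 ≤ (1 - pm β b) / 5 := by
        have : 0 ≤ 1 - pm β b := by linarith
        positivity
      rw [Fin.sum_univ_six]
      have e0 : ((0 : Fin 6) = 5) = False := by simp
      have e1 : ((1 : Fin 6) = 5) = False := by simp
      have e2 : ((2 : Fin 6) = 5) = False := by simp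
      have e3 : ((3 : Fin 6) = 5) = False := by simp
      have e4 : ((4 : Fin 6) = 5) = False := by simp
      simp only [e0, e1, e2, e3, e4, if_false, if_true]
      rw [← ENNReal.ofReal_add h3 h3, ← ENNReal.ofReal_add (by linarith) h3,
        ← ENNReal.ofReal_add (by linarith) h3, ← ENNReal.ofReal_add (by linarith) h3,
        ← ENNReal.ofReal_add (by linarith) h1.le]
      rw [← ENNReal.ofReal_one]
      congr 1
      ring)

theorem θ_ne (β : ℝ) (a b : Fin 6) : θ β a b ≠ 0 := by
  unfold θ
  rw [PMF.ofFintype_apply]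
  have h1 := pm_pos β a
  have h2 := pm_lt_one β a
  split_ifs
  · exact (ENNReal.ofReal_pos.mpr h1).ne'
  · refine (ENNReal.ofReal_pos.mpr ?_).ne'
    have : 0 < 1 - pm β a := by linarith
    positivity

theorem θ_five (β : ℝ) (a : Fin 6) : (θ β a).toMeasure {5} = ENNReal.ofReal (pm β a) := by
  rw [PMF.toMeasure_apply_singleton _ _ (measurableSet_singleton _)]
  unfold θ
  rw [PMF.ofFintype_apply, if_pos rfl]

theorem θ_not_five (β : ℝ) (a : Fin 6) :
    (θ β a).toMeasure {5}ᶜ = ENNReal.ofReal (1 - pm β a) := by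
  rw [prob_compl_eq_one_sub (measurableSet_singleton _), θ_five,
    ENNReal.ofReal_sub _ (pm_pos β a).le, ENNReal.ofReal_one]

/-- the transition kernel -/
noncomputable def K (β : ℝ) (x : Cfg) : Measure Cfg :=
  Measure.infinitePi (fun i : Fin 2 → ℤ => (θ β (F x i)).toMeasure)

instance (β : ℝ) (x : Cfg) : IsProbabilityMeasure (K β x) := by
  unfold K; infer_instance

theorem event_eq (D T : Finset (Fin 2 → ℤ)) (hT : T ⊆ D) :
    {y : Cfg | M D y = T} = Set.pi D (fun i => if i ∈ T then ({5} : Set (Fin 6)) else {5}ᶜ) := by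
  ext y
  simp only [Set.mem_ofPred_eq, Set.mem_pi, Finset.mem_coe]
  constructor
  · intro h i hi
    by_cases hiT : i ∈ T
    · rw [if_pos hiT]
      rw [← h] at hiT
      exact (Finset.mem_filter.mp hiT).2
    · rw [if_neg hiT]
      intro h5
      apply hiT
      rw [← h]
      exact Finset.mem_filter.mpr ⟨hi, h5⟩
  · intro h
    ext i
    unfold M
    rw [Finset.mem_filter]
    constructor
    · rintro ⟨hi, h5⟩
      by_contra hiT
      have := h i hi
      rw [if_neg hiT] at this
      exact this h5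
    · intro hiT
      have := h i (hT hiT)
      rw [if_pos hiT] at this
      exact ⟨hT hiT, this⟩

theorem event_meas (D T : Finset (Fin 2 → ℤ)) (hT : T ⊆ D) :
    MeasurableSet {y : Cfg | M D y = T} := by
  rw [event_eq D T hT]
  apply MeasurableSet.pi D.countable_toSet
  intro i _
  exact MeasurableSet.of_discrete

theorem K_event (β : ℝ) (x : Cfg) (D T : Finset (Fin 2 → ℤ)) (hT : T ⊆ D) :
    K β x {y : Cfg | M D y = T} =
      ENNReal.ofReal (∏ i ∈ D, if i ∈ T then pm β (F x i) else 1 - pm β (F x i)) := by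
  rw [event_eq D T hT]
  unfold K
  rw [Measure.infinitePi_pi _ (fun i _ => MeasurableSet.of_discrete)]
  rw [ENNReal.ofReal_prod_of_nonneg]
  · refine Finset.prod_congr rfl fun i _ => ?_
    split_ifs
    · exact θ_five β _
    · exact θ_not_five β _
  · intro i _
    split_ifs
    · exact (pm_pos β _).le
    · linarith [pm_lt_one β (F x i)]

theorem fun_eq (D : Finset (Fin 2 → ℤ)) (h : Finset (Fin 2 → ℤ) → ℝ) (y : Cfg) :
    ENNReal.ofReal (h (M D y)) = ∑ T ∈ D.powerset,
      Set.indicator {y : Cfg | M D y = T} (fun _ => ENNReal.ofReal (h T)) y := by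
  rw [Finset.sum_eq_single (M D y)]
  · rw [Set.indicator_of_mem]
    rfl
  · intro T _ hT
    rw [Set.indicator_of_notMem]
    intro h'
    exact hT h'.symm
  · intro h'
    exact absurd (Finset.mem_powerset.mpr (Finset.filter_subset _ _)) h'

theorem fun_meas (D : Finset (Fin 2 → ℤ)) (h : Finset (Fin 2 → ℤ) → ℝ) :
    Measurable (fun y : Cfg => ENNReal.ofReal (h (M D y))) := by
  have : (fun y : Cfg => ENNReal.ofReal (h (M D y))) = fun y => ∑ T ∈ D.powerset,
      Set.indicator {y : Cfg | M D y = T} (fun _ => ENNReal.ofReal (h T)) y :=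
    funext (fun_eq D h)
  rw [this]
  apply Finset.measurable_fun_sum
  intro T hT
  exact measurable_const.indicator (event_meas D T (Finset.mem_powerset.mp hT))

theorem K_int (β : ℝ) (x : Cfg) (D : Finset (Fin 2 → ℤ)) (h : Finset (Fin 2 → ℤ) → ℝ)
    (h0 : ∀ S, 0 ≤ h S) :
    ∫⁻ y, ENNReal.ofReal (h (M D y)) ∂(K β x) =
      ENNReal.ofReal (Ber (fun i => pm β (F x i)) D h) := by
  simp_rw [fun_eq D h]
  rw [lintegral_finsetSum]
  · unfold Ber
    rw [ENNReal.ofReal_sum_of_nonneg]
    · refine Finset.sum_congr rfl fun T hT => ?_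
      rw [lintegral_indicator_const (event_meas D T (Finset.mem_powerset.mp hT)),
        K_event β x D T (Finset.mem_powerset.mp hT), ← ENNReal.ofReal_mul (h0 T), mul_comm]
    · intro T _
      apply mul_nonneg _ (h0 T)
      refine Finset.prod_nonneg fun i _ => ?_
      split_ifs
      · exact (pm_pos β _).le
      · linarith [pm_lt_one β (F x i)]
  · intro T hT
    exact measurable_const.indicator (event_meas D T (Finset.mem_powerset.mp hT))

theorem F_meas (i : Fin 2 → ℤ) : Measurable (fun x : Cfg => F x i) := by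
  unfold F
  have h1 : Measurable (fun x : Cfg => (fun v : N0 => x (i + v.1))) := by
    apply measurable_pi_lambda
    intro v
    exact measurable_pi_apply _
  have h2 : Measurable locf := measurable_of_countable locf
  exact h2.comp h1

theorem K_meas (β : ℝ) : Measurable (K β) := by
  refine Measurable.measure_of_isPiSystem_of_isProbabilityMeasure
    (generateFrom_squareCylinders (α := fun _ : Fin 2 → ℤ => Fin 6)).symm
    (isPiSystem_squareCylinders (fun _ => MeasurableSpace.isPiSystem_measurableSet) (by simp)) ?_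
  intro s hs
  obtain ⟨I, t, ht, rfl⟩ := hs
  have h : ∀ x : Cfg, K β x (Set.pi I t) = ∏ i ∈ I, (θ β (F x i)).toMeasure (t i) := by
    intro x
    unfold K
    exact Measure.infinitePi_pi _ (fun i _ => MeasurableSet.of_discrete)
  simp_rw [h]
  apply Finset.measurable_fun_prod
  intro i _
  have : Measurable (fun b : Fin 6 => (θ β b).toMeasure (t i)) := measurable_from_top
  exact this.comp (F_meas i)

/-- one step of the noisy dynamics -/
noncomputable def Φ (β : ℝ) (m : Measure Cfg) : Measure Cfg :=
  m.bind (fun x => Measure.infinitePi (fun i : Fin 2 → ℤ => (θ β (F x i)).toMeasure))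

theorem iter_eq (β : ℝ) (t : ℕ) : ∀ m : Measure Cfg,
    ((Φ β)^[t] m) {y | y 0 = 5} = ∫⁻ x, ENNReal.ofReal (gf β t (M (cone 2 t) x)) ∂m := by
  induction t with
  | zero =>
    intro m
    have hE : MeasurableSet {y : Cfg | y 0 = 5} := by
      have h0 : Measurable (fun y : Cfg => y 0) := measurable_pi_apply (0 : Fin 2 → ℤ)
      exact h0 (measurableSet_singleton (5 : Fin 6))
    have : (fun x : Cfg => ENNReal.ofReal (gf β 0 (M (cone 2 0) x))) =
        Set.indicator {y : Cfg | y 0 = 5} (fun _ => 1) := by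
      funext x
      rw [gf_zero]
      by_cases h : x 0 = 5
      · have h' : (0 : Fin 2 → ℤ) ∈ M (cone 2 0) x :=
          Finset.mem_filter.mpr ⟨Finset.mem_singleton_self _, h⟩
        rw [if_pos h', Set.indicator_of_mem (show x ∈ {y : Cfg | y 0 = 5} from h)]
        simp
      · have h' : (0 : Fin 2 → ℤ) ∉ M (cone 2 0) x := fun h' => h (Finset.mem_filter.mp h').2
        rw [if_neg h', Set.indicator_of_notMem (show x ∉ {y : Cfg | y 0 = 5} from h)]
        simp
    rw [this, lintegral_indicator_const hE, one_mul]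
    rfl
  | succ t ih =>
    intro m
    rw [Function.iterate_succ_apply, ih]
    have hb : Φ β m = m.bind (K β) := rfl
    rw [hb, Measure.lintegral_bind (K_meas β).aemeasurable (fun_meas _ _).aemeasurable]
    refine lintegral_congr fun x => ?_
    rw [K_int β x _ _ (gf_nonneg β t), gf_succ]
    congr 1
    apply Ber_congr _ (fun _ _ => rfl)
    intro i hi
    apply pm_eq_rate
    intro y hy
    unfold M
    rw [Finset.mem_filter]
    constructor
    · exact fun h => h.2
    · intro h
      exact ⟨Finset.mem_biUnion.mpr ⟨i, hi, hy⟩, h⟩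

end Pool.Agent.H767R3.CAMeas
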