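import Pool.Agent.H767R3.CAComb

set_option autoImplicit false

namespace Pool.Agent.H767R3.CAProc

open Finset Pool.Agent.Helper580.IsingGraph Pool.Agent.Helper580.IsingLat
  Pool.Agent.Helper580.IsingPeierls Pool.Agent.H767R3.CAComb

variable {d : ℕ}

/-- the sites on which the state of the origin after `t` steps depends -/
def cone (d : ℕ) : ℕ → Finset (Fin d → ℤ)
  | 0 => {0}
  | t + 1 => (cone d t).biUnion nb

/-- probability that the origin is minus after `t` steps, started from the minus set `S` -/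
noncomputable def gf (β : ℝ) : ℕ → Finset (Fin d → ℤ) → ℝ
  | 0, S => if (0 : Fin d → ℤ) ∈ S then 1 else 0
  | t + 1, S => Ber (rate β S) (cone d t) (gf β t)

theorem gf_zero (β : ℝ) (S : Finset (Fin d → ℤ)) :
    gf β 0 S = if (0 : Fin d → ℤ) ∈ S then 1 else 0 := rfl

theorem gf_succ (β : ℝ) (t : ℕ) (S : Finset (Fin d → ℤ)) :
    gf β (t + 1) S = Ber (rate β S) (cone d t) (gf β t) := rfl

theorem cone_sub_cube (t : ℕ) : cone d t ⊆ cube d t := by
  induction t with
  | zero =>
    intro x hx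
    have : x = 0 := Finset.mem_singleton.mp hx
    subst this
    exact zero_mem_cube 0
  | succ t ih =>
    intro x hx
    obtain ⟨y, hy, hxy⟩ := Finset.mem_biUnion.mp hx
    have hy' := mem_cube.mp (ih hy)
    rw [mem_nb] at hxy
    rw [mem_cube]
    intro i
    have := hy' i
    obtain ⟨j, h | h⟩ := hxy
    · rw [h]
      by_cases hij : i = j
      · subst hij; simp [uv]; omega
      · simp [uv, hij]; omega
    · rw [h]
      by_cases hij : i = j
      · subst hij; simp [uv]; omega
      · simp [uv, hij]; omega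

theorem nb_parity {x y : Fin d → ℤ} (h : y ∈ nb x) : (∑ i, y i) % 2 = (∑ i, x i + 1) % 2 := by
  rw [mem_nb] at h
  obtain ⟨j, h | h⟩ := h
  · have : ∑ i, y i = ∑ i, x i + 1 := by
      rw [h]
      simp only [Pi.add_apply, Finset.sum_add_distrib, uv]
      simp
    rw [this]
  · have : ∑ i, y i = ∑ i, x i - 1 := by
      rw [h]
      simp only [Pi.sub_apply, Finset.sum_sub_distrib, uv]
      simp
    rw [this]; omega

theorem cone_parity (t : ℕ) : ∀ x ∈ cone d t, (∑ i, x i) % 2 = (t : ℤ) % 2 := by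
  induction t with
  | zero =>
    intro x hx
    have : x = 0 := Finset.mem_singleton.mp hx
    subst this
    simp
  | succ t ih =>
    intro x hx
    obtain ⟨y, hy, hxy⟩ := Finset.mem_biUnion.mp hx
    have h1 := ih y hy
    have h2 := nb_parity hxy
    push_cast
    omega

theorem cone_indep (t : ℕ) : ∀ x ∈ cone d t, ∀ y ∈ cone d t, y ∉ nb x := by
  intro x hx y hy h
  have h1 := cone_parity t x hx
  have h2 := cone_parity t y hy
  have h3 := nb_parity h
  omega

theorem Ber_nonneg {V : Type*} [DecidableEq V] {r : V → ℝ} {D : Finset V} (h0 : ∀ i, 0 ≤ r i)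
    (h1 : ∀ i, r i ≤ 1) {g : Finset V → ℝ} (hg : ∀ S, 0 ≤ g S) : 0 ≤ Ber r D g := by
  unfold Ber
  refine Finset.sum_nonneg fun T _ => mul_nonneg (Finset.prod_nonneg fun i _ => ?_) (hg T)
  split_ifs
  · exact h0 i
  · linarith [h1 i]

theorem gf_nonneg (β : ℝ) (t : ℕ) : ∀ S : Finset (Fin d → ℤ), 0 ≤ gf β t S := by
  induction t with
  | zero => intro S; rw [gf_zero]; split_ifs <;> norm_num
  | succ t ih =>
    intro S
    rw [gf_succ]
    exact Ber_nonneg (rate_nonneg β S) (rate_le_one β S) ih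

theorem gf_mono {β : ℝ} (hβ : 0 ≤ β) (t : ℕ) :
    ∀ S T : Finset (Fin d → ℤ), S ⊆ T → gf β t S ≤ gf β t T := by
  induction t with
  | zero =>
    intro S T h
    rw [gf_zero, gf_zero]
    by_cases h0 : (0 : Fin d → ℤ) ∈ S
    · simp [h0, h h0]
    · simp only [h0, if_false]; split_ifs <;> norm_num
  | succ t ih =>
    intro S T h
    rw [gf_succ, gf_succ]
    exact Ber_mono (fun i _ => rate_nonneg β S i) (fun i _ => rate_mono hβ h i)
      (fun i _ => rate_le_one β T i) ih ih (fun _ => le_refl _)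

theorem gf_congr (β : ℝ) (t : ℕ) {S T : Finset (Fin d → ℤ)}
    (h : ∀ y ∈ cone d t, y ∈ S ↔ y ∈ T) : gf β t S = gf β t T := by
  cases t with
  | zero =>
    have := h 0 (Finset.mem_singleton_self _)
    rw [gf_zero, gf_zero]
    simp only [this]
  | succ t =>
    rw [gf_succ, gf_succ]
    apply Ber_congr _ (fun _ _ => rfl)
    intro a ha
    apply rate_congr
    intro y hy
    exact h y (Finset.mem_biUnion.mpr ⟨a, ha, hy⟩)

theorem gf_avg (β : ℝ) (n : ℕ) : ∀ t : ℕ, t ≤ n →
    ∑ S ∈ (cube d n).powerset, wt nb β S * gf β t S =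
      ∑ S ∈ (cube d n).powerset, wt nb β S * gf β 0 S := by
  intro t
  induction t with
  | zero => intro _; rfl
  | succ t ih =>
    intro ht
    rw [← ih (by omega)]
    have hsub : cone d t ⊆ cube d n := by
      refine (cone_sub_cube t).trans ?_
      intro x hx
      rw [mem_cube] at hx ⊢
      intro i
      have := hx i
      omega
    have h := stat β (Λ := cube d n) (cone d t) hsub (cone_indep t) (fun _ => 1) (gf β t)
      (fun _ _ _ _ => rfl)
    simp only [one_mul] at h
    simp_rw [gf_succ]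
    rw [h]
    refine Finset.sum_congr rfl fun S _ => ?_
    congr 1
    apply gf_congr
    intro y hy
    simp [hy]

theorem gf_empty_le {i0 i1 : Fin d} (h01 : i1 ≠ i0) {β : ℝ} (hβ0 : 0 ≤ β)
    (hβ : Real.exp (-(2 * β)) = (1 / 5 : ℝ) * (1 / 2) ^ (8 * d + 1)) (t : ℕ) :
    gf (d := d) β t ∅ ≤ 1 / 4 := by
  have h1 := gf_avg (d := d) β t t le_rfl
  have h2 : gf (d := d) β t ∅ * Zf nb (cube d t) β ≤
      ∑ S ∈ (cube d t).powerset, wt nb β S * gf β t S := by
    unfold Zf
    rw [Finset.mul_sum]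
    refine Finset.sum_le_sum fun S _ => ?_
    rw [mul_comm]
    exact mul_le_mul_of_nonneg_left (gf_mono hβ0 t ∅ S (Finset.empty_subset S)) (wt_pos nb β S).le
  have h3 : ∑ S ∈ (cube d t).powerset, wt nb β S * gf β 0 S =
      ∑ S ∈ (cube d t).powerset.filter (fun S => (0 : Fin d → ℤ) ∈ S), wt nb β S := by
    rw [Finset.sum_filter]
    refine Finset.sum_congr rfl fun S _ => ?_
    rw [gf_zero]
    split_ifs <;> ring
  have h4 := peierls h01 t hβ
  rw [h1, h3] at h2
  have h5 := h2.trans h4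
  exact le_of_mul_le_mul_right h5 (Zf_pos nb _ β)

theorem gf_compl (β : ℝ) (t : ℕ) : ∀ S : Finset (Fin d → ℤ),
    gf β t (cone d t \ S) = 1 - gf β t S := by
  induction t with
  | zero =>
    intro S
    rw [gf_zero, gf_zero]
    have : (0 : Fin d → ℤ) ∈ cone d 0 \ S ↔ (0 : Fin d → ℤ) ∉ S := by
      rw [Finset.mem_sdiff]
      exact ⟨fun h => h.2, fun h => ⟨Finset.mem_singleton_self _, h⟩⟩
    by_cases h0 : (0 : Fin d → ℤ) ∈ S
    · simp [this, h0]
    · simp [this, h0]
  | succ t ih =>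
    intro S
    rw [gf_succ, gf_succ]
    have h1 : Ber (rate β (cone d (t + 1) \ S)) (cone d t) (gf β t) =
        Ber (fun i => 1 - rate β S i) (cone d t) (gf β t) := by
      apply Ber_congr _ (fun _ _ => rfl)
      intro a ha
      apply rate_compl
      exact Finset.subset_biUnion_of_mem nb ha
    rw [h1, Ber_compl, ← Ber_sub]
    apply Ber_congr (fun _ _ => rfl)
    intro T _
    exact ih T

theorem gf_full_ge {i0 i1 : Fin d} (h01 : i1 ≠ i0) {β : ℝ} (hβ0 : 0 ≤ β)
    (hβ : Real.exp (-(2 * β)) = (1 / 5 : ℝ) * (1 / 2) ^ (8 * d + 1)) (t : ℕ) :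
    3 / 4 ≤ gf (d := d) β t (cone d t) := by
  have h := gf_compl (d := d) β t ∅
  rw [Finset.sdiff_empty] at h
  have := gf_empty_le h01 hβ0 hβ t
  linarith

end Pool.Agent.H767R3.CAProc
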