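import Pool.Agent.H767R3.GrLim

/-! Compactness of the space of graphons for triangle and cherry densities and convex energies. -/

set_option autoImplicit false
set_option linter.dupNamespace false
set_option linter.unusedVariables false

namespace Pool.Agent.H767R3.Gr

open MeasureTheory Filter Topology Set
open scoped ENNReal

/-- energy with density `g` -/
noncomputable def Eg (g : ℝ → ℝ) (W : ℝ → ℝ → ℝ) : ℝ := ∫ x, ∫ y, g (W x y) ∂μ ∂μ

theorem T_st (P : Part) (v : ℕ → ℕ → ℝ) : T (P.st v) =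
    ∑ i ∈ Finset.range P.N, ∑ j ∈ Finset.range P.N, ∑ l ∈ Finset.range P.N,
      (P.a i * P.a j * P.a l) * (v i j * v j l * v i l) := by
  unfold T Part.st
  have h1 : ∀ x y, ∫ z, v (P.f x) (P.f y) * v (P.f y) (P.f z) * v (P.f x) (P.f z) ∂μ =
      ∑ l ∈ Finset.range P.N, P.a l * (v (P.f x) (P.f y) * v (P.f y) l * v (P.f x) l) :=
    fun x y => P.int_F (fun l => v (P.f x) (P.f y) * v (P.f y) l * v (P.f x) l)
  simp_rw [h1]
  have h2 : ∀ x, ∫ y, ∑ l ∈ Finset.range P.N, P.a l *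
      (v (P.f x) (P.f y) * v (P.f y) l * v (P.f x) l) ∂μ = ∑ j ∈ Finset.range P.N, P.a j *
      ∑ l ∈ Finset.range P.N, P.a l * (v (P.f x) j * v j l * v (P.f x) l) :=
    fun x => P.int_F (fun j => ∑ l ∈ Finset.range P.N, P.a l * (v (P.f x) j * v j l * v (P.f x) l))
  simp_rw [h2]
  rw [P.int_F (fun i => ∑ j ∈ Finset.range P.N, P.a j *
      ∑ l ∈ Finset.range P.N, P.a l * (v i j * v j l * v i l))]
  refine Finset.sum_congr rfl fun i _ => ?_
  rw [Finset.mul_sum]
  refine Finset.sum_congr rfl fun j _ => ?_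
  rw [Finset.mul_sum, Finset.mul_sum]
  refine Finset.sum_congr rfl fun l _ => ?_
  ring

theorem Ch_st (P : Part) (v : ℕ → ℕ → ℝ) : Ch (P.st v) =
    ∑ i ∈ Finset.range P.N, ∑ j ∈ Finset.range P.N, ∑ l ∈ Finset.range P.N,
      (P.a i * P.a j * P.a l) * (v i j * v i l) := by
  unfold Ch Part.st
  have h1 : ∀ x y, ∫ z, v (P.f x) (P.f y) * v (P.f x) (P.f z) ∂μ =
      ∑ l ∈ Finset.range P.N, P.a l * (v (P.f x) (P.f y) * v (P.f x) l) :=
    fun x y => P.int_F (fun l => v (P.f x) (P.f y) * v (P.f x) l)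
  simp_rw [h1]
  have h2 : ∀ x, ∫ y, ∑ l ∈ Finset.range P.N, P.a l *
      (v (P.f x) (P.f y) * v (P.f x) l) ∂μ = ∑ j ∈ Finset.range P.N, P.a j *
      ∑ l ∈ Finset.range P.N, P.a l * (v (P.f x) j * v (P.f x) l) :=
    fun x => P.int_F (fun j => ∑ l ∈ Finset.range P.N, P.a l * (v (P.f x) j * v (P.f x) l))
  simp_rw [h2]
  rw [P.int_F (fun i => ∑ j ∈ Finset.range P.N, P.a j *
      ∑ l ∈ Finset.range P.N, P.a l * (v i j * v i l))]
  refine Finset.sum_congr rfl fun i _ => ?_
  rw [Finset.mul_sum]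
  refine Finset.sum_congr rfl fun j _ => ?_
  rw [Finset.mul_sum, Finset.mul_sum]
  refine Finset.sum_congr rfl fun l _ => ?_
  ring

theorem Eg_st (g : ℝ → ℝ) (P : Part) (v : ℕ → ℕ → ℝ) : Eg g (P.st v) =
    ∑ i ∈ Finset.range P.N, ∑ j ∈ Finset.range P.N, (P.a i * P.a j) * g (v i j) := by
  unfold Eg Part.st
  have h1 : ∀ x, ∫ y, g (v (P.f x) (P.f y)) ∂μ =
      ∑ j ∈ Finset.range P.N, P.a j * g (v (P.f x) j) :=
    fun x => P.int_F (fun j => g (v (P.f x) j))
  simp_rw [h1]
  rw [P.int_F (fun i => ∑ j ∈ Finset.range P.N, P.a j * g (v i j))]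
  refine Finset.sum_congr rfl fun i _ => ?_
  rw [Finset.mul_sum]
  refine Finset.sum_congr rfl fun j _ => ?_
  ring

/-- a bound for a continuous function on `[0,1]` -/
theorem exists_bd {g : ℝ → ℝ} (hg : Continuous g) : ∃ C : ℝ, 0 ≤ C ∧ ∀ u, 0 ≤ u → u ≤ 1 → |g u| ≤ C := by
  obtain ⟨C, hC⟩ := (isCompact_Icc (a := (0:ℝ)) (b := 1)).exists_bound_of_continuousOn hg.continuousOn
  refine ⟨|C|, abs_nonneg _, fun u h0 h1 => ?_⟩
  exact (hC u ⟨h0, h1⟩).trans (le_abs_self _)

theorem g_int {g : ℝ → ℝ} (hg : Continuous g) {W : ℝ → ℝ → ℝ} (hW : Gr W) :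
    Integrable (fun z : ℝ × ℝ => g (W z.1 z.2)) P2 := by
  obtain ⟨C, _, hC⟩ := exists_bd hg
  exact int_bd (hg.measurable.comp hW.meas) fun z => hC _ (hW.2.2 _ _).1 (hW.2.2 _ _).2

theorem Eg_eq {g : ℝ → ℝ} (hg : Continuous g) {W : ℝ → ℝ → ℝ} (hW : Gr W) :
    Eg g W = ∫ z, g (W z.1 z.2) ∂P2 := by
  rw [integral_prod _ (g_int hg hW)]
  rfl

theorem jensen {g : ℝ → ℝ} (hg : Continuous g) (hc : ConvexOn ℝ (Icc 0 1) g) {W : ℝ → ℝ → ℝ}
    (hW : Gr W) (P : Part) : Eg g (P.av W) ≤ Eg g W := by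
  obtain ⟨C, hC0, hC⟩ := exists_bd hg
  have hgm : Measurable (fun z : ℝ × ℝ => g (W z.1 z.2)) := hg.measurable.comp hW.meas
  have h1 := P.int_Wv (W := fun x y => g (W x y)) hgm
    (fun x y => hC _ (hW.2.2 x y).1 (hW.2.2 x y).2) (fun _ _ => 1)
  simp only [mul_one] at h1
  rw [Eg_eq hg hW, h1]
  unfold Part.av
  rw [Eg_st]
  refine Finset.sum_le_sum fun i _ => Finset.sum_le_sum fun j _ => ?_
  -- one cell
  set A : Set (ℝ × ℝ) := (P.f ⁻¹' {i}) ×ˢ (P.f ⁻¹' {j}) with hA
  have hAm : MeasurableSet A :=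
    (P.meas (measurableSet_singleton i)).prod (P.meas (measurableSet_singleton j))
  have hmass : P2.real A = P.a i * P.a j := by
    rw [hA, measureReal_def, Measure.prod_prod, ENNReal.toReal_mul]
    rfl
  have hcell : ∀ V : ℝ → ℝ → ℝ, P.c V i j = ∫ z in A, V z.1 z.2 ∂P2 := by
    intro V
    rw [← integral_indicator hAm]
    unfold Part.c
    congr 1
    funext z
    by_cases hz : z ∈ A
    · rw [Set.indicator_of_mem hz]
      rw [if_pos (show P.f z.1 = i from hz.1), if_pos (show P.f z.2 = j from hz.2)]; ring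
    · rw [Set.indicator_of_notMem hz]
      by_cases h1 : P.f z.1 = i
      · by_cases h2 : P.f z.2 = j
        · exact absurd ⟨h1, h2⟩ hz
        · rw [if_neg h2]; ring
      · rw [if_neg h1]; ring
  rw [hcell (fun x y => g (W x y))]
  by_cases h0 : P.a i * P.a j = 0
  · rw [h0, zero_mul]
    have : P2 A = 0 := by
      have := hmass.trans h0
      rwa [measureReal_eq_zero_iff] at this
    rw [Measure.restrict_eq_zero.mpr this, integral_zero_measure]
  · have hpos : 0 < P.a i * P.a j :=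
      lt_of_le_of_ne (mul_nonneg (P.a_nonneg i) (P.a_nonneg j)) (Ne.symm h0)
    set ν := P2.restrict A with hν
    have hreal : ν.real univ = P.a i * P.a j := by
      rw [hν, measureReal_restrict_apply MeasurableSet.univ, univ_inter, hmass]
    have hne : NeZero ν := by
      refine ⟨fun h => ?_⟩
      rw [h] at hreal
      simp at hreal
      rcases hreal with h' | h'
      · exact h0 (by rw [h', zero_mul])
      · exact h0 (by rw [h', mul_zero])
    have hJ := hc.map_average_le (μ := ν) (f := fun z : ℝ × ℝ => W z.1 z.2)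
      hg.continuousOn isClosed_Icc (Eventually.of_forall fun z => hW.2.2 z.1 z.2)
      ((int_bd hW.meas fun z => hW.abs_le z.1 z.2 : Integrable _ P2).restrict)
      ((g_int hg hW).restrict)
    rw [average_eq, average_eq, hreal, smul_eq_mul, smul_eq_mul, ← hcell W] at hJ
    have hu : (P.a i * P.a j)⁻¹ * P.c W i j = P.u W i j := by
      unfold Part.u
      rw [div_eq_inv_mul]
    rw [hu] at hJ
    have := mul_le_mul_of_nonneg_left hJ hpos.le
    rw [← mul_assoc, mul_inv_cancel₀ h0, one_mul] at this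
    exact this

theorem tendsto_mul_of {x w : ℕ → ℝ} {X Y C : ℝ} (hx : Tendsto x atTop (𝓝 X))
    (hb : ∀ n, |w n| ≤ C) (hw : X ≠ 0 → Tendsto w atTop (𝓝 Y)) :
    Tendsto (fun n => x n * w n) atTop (𝓝 (X * Y)) := by
  by_cases h : X = 0
  · subst h
    rw [zero_mul]
    have h1 : Tendsto (fun n => |x n| * C) atTop (𝓝 0) := by
      have := (hx.abs).mul_const C
      simpa using this
    apply squeeze_zero_norm _ h1
    intro n
    rw [Real.norm_eq_abs, abs_mul]
    exact mul_le_mul_of_nonneg_left (hb n) (abs_nonneg _)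
  · exact hx.mul (hw h)

/-- limits along a.e. convergent sequences of graphons -/
theorem ae_lim {U : ℕ → ℝ → ℝ → ℝ} (hU : ∀ n, Gr (U n)) {V : ℝ → ℝ → ℝ} (hV : Gr V)
    (hae : ∀ᵐ z ∂P2, Tendsto (fun m => U m z.1 z.2) atTop (𝓝 (V z.1 z.2)))
    {g : ℝ → ℝ} (hg : Continuous g) :
    Tendsto (fun m => T (U m)) atTop (𝓝 (T V)) ∧ Tendsto (fun m => Ch (U m)) atTop (𝓝 (Ch V)) ∧
    Tendsto (fun m => Eg g (U m)) atTop (𝓝 (Eg g V)) := by
  have m1 : MeasurePreserving (fun q : ℝ × ℝ × ℝ => (q.1, q.2.1)) P3 P2 :=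
    (MeasurePreserving.id μ).prod (measurePreserving_fst (μ := μ) (ν := μ))
  have m3 : MeasurePreserving (fun q : ℝ × ℝ × ℝ => (q.1, q.2.2)) P3 P2 :=
    (MeasurePreserving.id μ).prod (measurePreserving_snd (μ := μ) (ν := μ))
  have m2 : MeasurePreserving (fun q : ℝ × ℝ × ℝ => q.2) P3 P2 :=
    measurePreserving_snd (μ := μ) (ν := μ.prod μ)
  have a1 := m1.quasiMeasurePreserving.ae hae
  have a2 := m2.quasiMeasurePreserving.ae hae
  have a3 := m3.quasiMeasurePreserving.ae hae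
  refine ⟨?_, ?_, ?_⟩
  · simp_rw [T_eq (hU _).b2, T_eq hV.b2]
    unfold J3
    refine tendsto_integral_of_dominated_convergence (fun _ => 1)
      (fun m => (b3_tri (hU m).b2 (hU m).b2 (hU m).b2).meas.aestronglyMeasurable)
      (integrable_const _)
      (fun m => Eventually.of_forall fun q => (b3_tri (hU m).b2 (hU m).b2 (hU m).b2).bd _ _ _) ?_
    filter_upwards [a1, a2, a3] with q h1 h2 h3
    exact (h1.mul h2).mul h3
  · simp_rw [Ch_eq (hU _).b2, Ch_eq hV.b2]
    unfold J3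
    refine tendsto_integral_of_dominated_convergence (fun _ => 1)
      (fun m => (b3_che (hU m).b2 (hU m).b2).meas.aestronglyMeasurable)
      (integrable_const _)
      (fun m => Eventually.of_forall fun q => (b3_che (hU m).b2 (hU m).b2).bd _ _ _) ?_
    filter_upwards [a1, a3] with q h1 h3
    exact h1.mul h3
  · simp_rw [Eg_eq hg (hU _), Eg_eq hg hV]
    obtain ⟨C, _, hC⟩ := exists_bd hg
    refine tendsto_integral_of_dominated_convergence (fun _ => C)
      (fun m => (hg.measurable.comp (hU m).meas).aestronglyMeasurable)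
      (integrable_const _)
      (fun m => Eventually.of_forall fun q => hC _ ((hU m).2.2 _ _).1 ((hU m).2.2 _ _).2) ?_
    filter_upwards [hae] with z hz
    exact (hg.tendsto _).comp hz

theorem Gr.T_mem {W : ℝ → ℝ → ℝ} (h : Gr W) : T W ∈ Icc (0:ℝ) 1 := by
  rw [T_eq h.b2]
  have hb := b3_tri h.b2 h.b2 h.b2
  constructor
  · exact integral_nonneg fun q => mul_nonneg (mul_nonneg (h.2.2 _ _).1 (h.2.2 _ _).1) (h.2.2 _ _).1
  · have := norm_integral_le_of_norm_le_const (μ := P3)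
      (f := fun q => W q.1 q.2.1 * W q.2.1 q.2.2 * W q.1 q.2.2) (C := 1)
      (Eventually.of_forall fun q => hb.bd _ _ _)
    have h2 := le_trans (le_abs_self _) (by simpa using this)
    exact h2

theorem Gr.Ch_mem {W : ℝ → ℝ → ℝ} (h : Gr W) : Ch W ∈ Icc (0:ℝ) 1 := by
  rw [Ch_eq h.b2]
  have hb := b3_che h.b2 h.b2
  constructor
  · exact integral_nonneg fun q => mul_nonneg (h.2.2 _ _).1 (h.2.2 _ _).1
  · have := norm_integral_le_of_norm_le_const (μ := P3)
      (f := fun q => W q.1 q.2.1 * W q.1 q.2.2) (C := 1)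
      (Eventually.of_forall fun q => hb.bd _ _ _)
    have h2 := le_trans (le_abs_self _) (by simpa using this)
    exact h2

/-! ### cell data of a refinement -/

theorem ind_sum (n i : ℕ) : (if n / 4 = i then (1:ℝ) else 0) =
    ∑ r ∈ Finset.range 4, if n = 4 * i + r then 1 else 0 := by
  by_cases h : n / 4 = i
  · rw [if_pos h, Finset.sum_eq_single (n % 4)]
    · rw [if_pos (by omega)]
    · intro r hr hne
      have := Finset.mem_range.mp hr
      rw [if_neg (by omega)]
    · intro h'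
      exact absurd (Finset.mem_range.mpr (Nat.mod_lt _ (by norm_num))) h'
  · rw [if_neg h, Finset.sum_eq_zero]
    intro r hr
    have := Finset.mem_range.mp hr
    rw [if_neg (by omega)]

theorem a_eq_int (P : Part) (i : ℕ) : P.a i = ∫ x, (if P.f x = i then (1:ℝ) else 0) ∂μ := by
  have : (fun x => if P.f x = i then (1:ℝ) else 0) = (P.f ⁻¹' {i}).indicator (fun _ => 1) := by
    funext x
    by_cases hx : P.f x = i
    · rw [if_pos hx, Set.indicator_of_mem (show x ∈ P.f ⁻¹' {i} from hx)]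
    · rw [if_neg hx, Set.indicator_of_notMem (show x ∉ P.f ⁻¹' {i} from hx)]
  rw [this, integral_indicator_const _ (P.meas (measurableSet_singleton i))]
  simp [Part.a]

theorem a_ref (P Q : Part) (h : ∀ x, Q.f x / 4 = P.f x) (i : ℕ) :
    P.a i = ∑ r ∈ Finset.range 4, Q.a (4 * i + r) := by
  simp_rw [a_eq_int]
  rw [← integral_finsetSum]
  · congr 1
    funext x
    rw [← h x]
    exact ind_sum _ _
  · intro r _
    refine int_bd (Q.ind_meas _) (C := 1) fun x => ?_
    split_ifs <;> simp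

theorem c_ref (P Q : Part) (h : ∀ x, Q.f x / 4 = P.f x) {W : ℝ → ℝ → ℝ} (hW : Gr W) (i j : ℕ) :
    P.c W i j = ∑ r ∈ Finset.range 4, ∑ s ∈ Finset.range 4, Q.c W (4 * i + r) (4 * j + s) := by
  have hint : ∀ r s, Integrable (fun z : ℝ × ℝ => W z.1 z.2 *
      ((if Q.f z.1 = r then (1:ℝ) else 0) * (if Q.f z.2 = s then 1 else 0))) P2 := by
    intro r s
    have hm : Measurable (fun z : ℝ × ℝ => W z.1 z.2 *
      ((if Q.f z.1 = r then (1:ℝ) else 0) * (if Q.f z.2 = s then 1 else 0))) :=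
      hW.meas.mul (((Q.ind_meas r).comp measurable_fst).mul ((Q.ind_meas s).comp measurable_snd))
    refine int_bd hm (C := 1) fun z => ?_
    rw [abs_mul]
    have := hW.abs_le z.1 z.2
    split_ifs <;> simp [this]
  unfold Part.c
  simp_rw [← integral_finsetSum (Finset.range 4) (fun s _ => hint _ (4 * j + s))]
  rw [← integral_finsetSum]
  · congr 1
    funext z
    rw [← h z.1, ← h z.2, ind_sum, ind_sum, Finset.sum_mul_sum, Finset.mul_sum]
    refine Finset.sum_congr rfl fun r _ => ?_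
    rw [Finset.mul_sum]
  · intro r _
    exact integrable_finsetSum _ fun s _ => hint _ _

end Pool.Agent.H767R3.Gr
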