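import Mathlib

/-! Scalar facts on the relative entropy `I_p`. -/

set_option autoImplicit false
set_option linter.dupNamespace false
set_option linter.unusedVariables false

namespace Pool.Agent.H767R3.Gr

open Filter Topology Set

/-- relative entropy -/
noncomputable def hp (p u : ℝ) : ℝ :=
  u * Real.log (u / p) + (1 - u) * Real.log ((1 - u) / (1 - p))

theorem mul_log_div {x y : ℝ} (hy : y ≠ 0) : x * Real.log (x / y) = x * Real.log x - x * Real.log y := by
  by_cases hx : x = 0
  · simp [hx]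
  · rw [Real.log_div hx hy]; ring

theorem hp_eq {p : ℝ} (h0 : 0 < p) (h1 : p < 1) (u : ℝ) :
    hp p u = -Real.binEntropy u + (u * (-Real.log p) + (1 - u) * (-Real.log (1 - p))) := by
  unfold hp Real.binEntropy
  rw [mul_log_div h0.ne', mul_log_div (sub_pos.mpr h1).ne', Real.log_inv, Real.log_inv]
  ring

theorem hp_cont {p : ℝ} (h0 : 0 < p) (h1 : p < 1) : Continuous (hp p) := by
  have : hp p = fun u => -Real.binEntropy u + (u * (-Real.log p) + (1 - u) * (-Real.log (1 - p))) :=
    funext fun u => hp_eq h0 h1 u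
  rw [this]
  have := Real.binEntropy_continuous
  fun_prop

theorem hp_convex {p : ℝ} (h0 : 0 < p) (h1 : p < 1) : ConvexOn ℝ (Icc 0 1) (hp p) := by
  have h2 : ConvexOn ℝ (Icc (0:ℝ) 1) (fun u => -Real.binEntropy u) :=
    Real.strictConcave_binEntropy.concaveOn.neg
  refine ⟨convex_Icc 0 1, fun x hx y hy a b ha hb hab => ?_⟩
  have h3 := h2.2 hx hy ha hb hab
  simp only [smul_eq_mul] at h3 ⊢
  rw [hp_eq h0 h1, hp_eq h0 h1, hp_eq h0 h1]
  have hb' : b = 1 - a := by linarith
  subst hb'
  nlinarith [h3]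

theorem hp_p {p : ℝ} (h0 : 0 < p) (h1 : p < 1) : hp p p = 0 := by
  unfold hp
  rw [div_self h0.ne', div_self (sub_pos.mpr h1).ne']
  simp

theorem hp_one (p : ℝ) : hp p 1 = Real.log (1 / p) := by
  unfold hp; simp

theorem mul_log_ge {x z : ℝ} (hx : 0 ≤ x) (hz : 0 < z) : x - z ≤ x * Real.log (x / z) := by
  rcases eq_or_lt_of_le hx with h | h
  · rw [← h]; simp [hz.le]
  · have h1 := Real.one_sub_inv_le_log_of_pos (div_pos h hz)
    have h2 := mul_le_mul_of_nonneg_left h1 hx
    have h3 : x * (1 - (x / z)⁻¹) = x - z := by field_simp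
    linarith

theorem hp_leg {p : ℝ} (h0 : 0 < p) (h1 : p < 1) {u : ℝ} (hu0 : 0 ≤ u) (hu1 : u ≤ 1) (θ : ℝ) :
    θ * u - p * (Real.exp θ - 1) ≤ hp p u := by
  have e1 := mul_log_ge hu0 (mul_pos h0 (Real.exp_pos θ))
  have e2 := mul_log_ge (sub_nonneg.mpr hu1) (sub_pos.mpr h1)
  have e3 : u * Real.log (u / (p * Real.exp θ)) = u * Real.log (u / p) - u * θ := by
    rw [mul_log_div (mul_pos h0 (Real.exp_pos θ)).ne', mul_log_div h0.ne',
      Real.log_mul h0.ne' (Real.exp_pos θ).ne', Real.log_exp]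
    ring
  unfold hp
  nlinarith

theorem hp_nonneg {p : ℝ} (h0 : 0 < p) (h1 : p < 1) {u : ℝ} (hu0 : 0 ≤ u) (hu1 : u ≤ 1) :
    0 ≤ hp p u := by
  have := hp_leg h0 h1 hu0 hu1 0
  simpa using this

theorem hp_young {p : ℝ} (h0 : 0 < p) (h1 : p < 1) {u : ℝ} (hu0 : 0 ≤ u) (hu1 : u ≤ 1) {l : ℝ}
    (hl0 : 0 ≤ l) (hl1 : l ≤ 1) : l * |u - p| - p * l ^ 2 ≤ hp p u := by
  rcases le_total p u with h | h
  · rw [abs_of_nonneg (sub_nonneg.mpr h)]
    have e1 := hp_leg h0 h1 hu0 hu1 l
    have e2 := Real.abs_exp_sub_one_sub_id_le (x := l) (by rw [abs_of_nonneg hl0]; exact hl1)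
    have e3 := (le_abs_self _).trans e2
    nlinarith [mul_le_mul_of_nonneg_left e3 h0.le]
  · rw [abs_of_nonpos (sub_nonpos.mpr h)]
    have e1 := hp_leg h0 h1 hu0 hu1 (-l)
    have e2 := Real.abs_exp_sub_one_sub_id_le (x := -l) (by rw [abs_neg, abs_of_nonneg hl0]; exact hl1)
    have e3 := (le_abs_self _).trans e2
    nlinarith [mul_le_mul_of_nonneg_left e3 h0.le]

/-- the function `(1+v) log (1+v) - v` -/
noncomputable def Gf (v : ℝ) : ℝ := (1 + v) * Real.log (1 + v) - v

theorem Gf_scale {v V : ℝ} (h0 : 0 ≤ v) (h1 : v ≤ V) : Gf V * v ^ 2 ≤ Gf v * V ^ 2 := by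
  rcases eq_or_lt_of_le h0 with h | h
  · rw [← h]; unfold Gf; simp
  have hV : 0 < V := lt_of_lt_of_le h h1
  have hd : ∀ x : ℝ, 0 < x → HasDerivAt (fun v => Gf v / v ^ 2)
      (((Real.log (1 + x)) * x ^ 2 - Gf x * (2 * x)) / (x ^ 2) ^ 2) x := by
    intro x hx
    have a1 : HasDerivAt (fun v : ℝ => 1 + v) 1 x := by
      simpa using (hasDerivAt_id x).const_add 1
    have a2 : HasDerivAt (fun v : ℝ => Real.log (1 + v)) (1 / (1 + x)) x :=
      a1.log (by positivity)
    have a3 : HasDerivAt Gf (Real.log (1 + x)) x := by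
      have := (a1.mul a2).sub (hasDerivAt_id x)
      refine this.congr_deriv ?_
      have : (1 + x) ≠ 0 := by positivity
      field_simp
      ring
    have a4 : HasDerivAt (fun v : ℝ => v ^ 2) (2 * x) x := by
      simpa using hasDerivAt_pow 2 x
    exact a3.div a4 (by positivity)
  have hanti : AntitoneOn (fun v => Gf v / v ^ 2) (Ioi 0) := by
    refine antitoneOn_of_deriv_nonpos (convex_Ioi 0) ?_ ?_ ?_
    · intro x hx
      exact (hd x hx).continuousAt.continuousWithinAt
    · rw [interior_Ioi]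
      intro x hx
      exact (hd x hx).differentiableAt.differentiableWithinAt
    · rw [interior_Ioi]
      intro x hx
      rw [(hd x hx).deriv]
      have hx' : (0:ℝ) < x := hx
      refine div_nonpos_of_nonpos_of_nonneg ?_ (by positivity)
      have b1 := Real.le_log_one_add_of_nonneg hx'.le
      rw [div_le_iff₀ (by positivity)] at b1
      unfold Gf
      have b2 : Real.log (1 + x) * x ^ 2 - ((1 + x) * Real.log (1 + x) - x) * (2 * x) =
          x * (2 * x - Real.log (1 + x) * (x + 2)) := by ring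
      rw [b2]
      exact mul_nonpos_of_nonneg_of_nonpos hx'.le (by linarith)
  have h3 := hanti (show v ∈ Ioi (0:ℝ) from h) (show V ∈ Ioi (0:ℝ) from hV) h1
  simp only at h3
  rw [div_le_div_iff₀ (by positivity) (by positivity)] at h3
  exact h3

theorem hp_ge_Gf {p : ℝ} (h0 : 0 < p) (h1 : p < 1) {u : ℝ} (hu0 : p ≤ u) (hu1 : u ≤ 1) :
    p * Gf ((u - p) / p) ≤ hp p u := by
  have hu : 0 < u := lt_of_lt_of_le h0 hu0
  have e1 := hp_leg h0 h1 (h0.le.trans hu0) hu1 (Real.log (u / p))
  rw [Real.exp_log (div_pos hu h0)] at e1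
  have e2 : p * Gf ((u - p) / p) = Real.log (u / p) * u - p * (u / p - 1) := by
    unfold Gf
    have : 1 + (u - p) / p = u / p := by field_simp; ring
    rw [this]
    field_simp
  rw [e2]; exact e1

theorem log_le_half {z : ℝ} (hz : 1 ≤ z) : Real.log z ≤ (z - 1 / z) / 2 := by
  have hz0 : 0 < z := by linarith
  have h1 : Real.log z ≤ Real.sinh (Real.log z) := Real.self_le_sinh_iff.mpr (Real.log_nonneg hz)
  rw [Real.sinh_eq, Real.exp_neg, Real.exp_log hz0] at h1
  rw [one_div]; exact h1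

theorem hp_sq {p : ℝ} (h0 : 0 < p) (h1 : p < 1) {u : ℝ} (hu0 : 0 ≤ u) (hu1 : u ≤ 1) :
    (Real.log (1 / p) - 1) * (u - p) ^ 2 ≤ hp p u := by
  rcases le_total p u with h | h
  · refine le_trans ?_ (hp_ge_Gf h0 h1 h hu1)
    have e1 := Gf_scale (v := (u - p) / p) (V := (1 - p) / p)
      (div_nonneg (sub_nonneg.mpr h) h0.le) (by gcongr)
    have e2 : p * Gf ((1 - p) / p) = Real.log (1 / p) - 1 + p := by
      unfold Gf
      have : 1 + (1 - p) / p = 1 / p := by field_simp; ring
      rw [this]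
      field_simp
      ring
    have hp' : 0 < 1 - p := by linarith
    have e3 : (Real.log (1 / p) - 1 + p) * (u - p) ^ 2 ≤ p * Gf ((u - p) / p) * (1 - p) ^ 2 := by
      rw [← e2]
      have e4 : Gf ((1 - p) / p) * (u - p) ^ 2 ≤ Gf ((u - p) / p) * (1 - p) ^ 2 := by
        have := mul_le_mul_of_nonneg_right e1 (sq_nonneg p)
        have e5 : Gf ((1 - p) / p) * ((u - p) / p) ^ 2 * p ^ 2 = Gf ((1 - p) / p) * (u - p) ^ 2 := by
          field_simp
        have e6 : Gf ((u - p) / p) * ((1 - p) / p) ^ 2 * p ^ 2 = Gf ((u - p) / p) * (1 - p) ^ 2 := by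
          field_simp
        rw [e5, e6] at this
        exact this
      nlinarith
    by_cases hneg : Real.log (1 / p) - 1 ≤ 0
    · refine (mul_nonpos_of_nonpos_of_nonneg hneg (sq_nonneg _)).trans ?_
      refine mul_nonneg h0.le ?_
      -- Gf nonneg
      have hv : 0 ≤ (u - p) / p := div_nonneg (sub_nonneg.mpr h) h0.le
      unfold Gf
      have := mul_log_ge (x := 1 + (u - p) / p) (z := 1) (by linarith) one_pos
      rw [div_one] at this
      linarith
    · push Not at hneg
      have hG : 0 ≤ p * Gf ((u - p) / p) := by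
        have h5 : 0 ≤ (Real.log (1 / p) - 1 + p) * (u - p) ^ 2 :=
          mul_nonneg (by linarith) (sq_nonneg _)
        have h6 : 0 < (1 - p) ^ 2 := by positivity
        by_contra hcon
        push Not at hcon
        nlinarith
      have h7 : (1 - p) ^ 2 ≤ 1 := by nlinarith
      nlinarith [mul_nonneg h0.le (sq_nonneg (u - p))]
  · rcases eq_or_lt_of_le hu0 with h2 | h2
    · rw [← h2]
      have e1 : -Real.log (1 - p) = hp p 0 := by
        unfold hp; simp
      rw [← e1]
      have e2 : Real.log (1 - p) ≤ -p := by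
        have := Real.log_le_sub_one_of_pos (sub_pos.mpr h1); linarith
      have e3 : Real.log (1 / p) ≤ 1 / p - 1 := Real.log_le_sub_one_of_pos (by positivity)
      have e4 : Real.log (1 / p) * p ^ 2 ≤ (1 / p - 1) * p ^ 2 :=
        mul_le_mul_of_nonneg_right e3 (sq_nonneg p)
      have e5 : (1 / p - 1) * p ^ 2 = p - p ^ 2 := by field_simp
      nlinarith [sq_nonneg p]
    · -- 0 < u ≤ p
      have e1 : u * Real.log (u / p) - u + p ≤ hp p u := by
        unfold hp
        have := mul_log_ge (sub_nonneg.mpr hu1) (sub_pos.mpr h1)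
        linarith
      refine le_trans ?_ e1
      have hz : 1 ≤ p / u := by rw [le_div_iff₀ h2]; linarith
      have e2 := log_le_half hz
      have e3 : Real.log (u / p) = -Real.log (p / u) := by
        rw [← Real.log_inv, inv_div]
      have e4 : u * ((p / u - 1 / (p / u)) / 2) = (p - u ^ 2 / p) / 2 := by
        field_simp
      have e5 : u * Real.log (u / p) ≥ -((p - u ^ 2 / p) / 2) := by
        rw [e3, ← e4]
        nlinarith
      have e6 : -((p - u ^ 2 / p) / 2) - u + p = (u - p) ^ 2 / (2 * p) := by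
        field_simp; ring
      have e7 : Real.log (1 / p) - 1 ≤ 1 / (2 * p) := by
        have b1 : Real.log (1 / (2 * p)) ≤ 1 / (2 * p) - 1 :=
          Real.log_le_sub_one_of_pos (by positivity)
        have b2 : Real.log (1 / p) = Real.log 2 + Real.log (1 / (2 * p)) := by
          rw [← Real.log_mul (by norm_num) (by positivity)]
          congr 1
          field_simp
        have b3 := Real.log_two_lt_d9
        rw [b2]; linarith
      have e8 : (Real.log (1 / p) - 1) * (u - p) ^ 2 ≤ (u - p) ^ 2 / (2 * p) := by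
        have := mul_le_mul_of_nonneg_right e7 (sq_nonneg (u - p))
        have e9 : 1 / (2 * p) * (u - p) ^ 2 = (u - p) ^ 2 / (2 * p) := by ring
        linarith
      linarith

/-- lower bound for `Gf` at intermediate scale -/
theorem Gf_mid {p b : ℝ} (h0 : 0 < p) (hb : 0 < b)
    (hL : 2 * (1 + Real.log (1 / b)) ≤ Real.log (1 / p)) {d : ℝ} (hd0 : 0 ≤ d) (hdb : d ≤ b) :
    d ^ 2 * Real.log (1 / p) ≤ 2 * b * (p * Gf (d / p)) := by
  have e1 := Gf_scale (v := d / p) (V := b / p) (div_nonneg hd0 h0.le) (by gcongr)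
  have e2 : Gf (b / p) * d ^ 2 ≤ Gf (d / p) * b ^ 2 := by
    have := mul_le_mul_of_nonneg_right e1 (sq_nonneg p)
    have e5 : Gf (b / p) * (d / p) ^ 2 * p ^ 2 = Gf (b / p) * d ^ 2 := by field_simp
    have e6 : Gf (d / p) * (b / p) ^ 2 * p ^ 2 = Gf (d / p) * b ^ 2 := by field_simp
    rw [e5, e6] at this
    exact this
  have e3 : b * Real.log (1 / p) / 2 ≤ p * Gf (b / p) := by
    unfold Gf
    have c1 : Real.log (b / p) ≤ Real.log (1 + b / p) :=
      Real.log_le_log (by positivity) (by linarith)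
    have c2 : Real.log (b / p) = Real.log (1 / p) - Real.log (1 / b) := by
      rw [Real.log_div hb.ne' h0.ne', one_div, one_div, Real.log_inv, Real.log_inv]; ring
    have c3 : p * ((1 + b / p) * Real.log (1 + b / p) - b / p) =
        (p + b) * Real.log (1 + b / p) - b := by field_simp
    rw [c3]
    have c4 : 0 ≤ Real.log (1 + b / p) := Real.log_nonneg (by
      have : 0 ≤ b / p := by positivity
      linarith)
    nlinarith [mul_nonneg h0.le c4]
  have e4 : b * Real.log (1 / p) / 2 * d ^ 2 ≤ p * Gf (d / p) * b ^ 2 := by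
    have := mul_le_mul_of_nonneg_right e3 (sq_nonneg d)
    nlinarith [mul_le_mul_of_nonneg_left e2 h0.le]
  have e5 : b * (d ^ 2 * Real.log (1 / p)) ≤ b * (2 * b * (p * Gf (d / p))) := by nlinarith
  exact le_of_mul_le_mul_left e5 hb

end Pool.Agent.H767R3.Gr
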