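import Pool.Agent.H767R3.GrTri
import Pool.Agent.H767R3.GrHp
import Pool.Agent.H767R3.GrComp

/-! The main lower bound estimates for the upper tail variational problem. -/

set_option autoImplicit false
set_option linter.dupNamespace false
set_option linter.unusedVariables false

namespace Pool.Agent.H767R3.Gr

open MeasureTheory Filter Topology Set

theorem J3_prod1 {f : ℝ → ℝ} (hf : Measurable f) (hf1 : ∀ x, |f x| ≤ 1) {F : ℝ → ℝ → ℝ}
    (hF : B2 F) : B3 (fun x y z => f x * F y z) 1 ∧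
      J3 (fun x y z => f x * F y z) = (∫ x, f x ∂μ) * ∫ w, F w.1 w.2 ∂P2 := by
  have hb : B3 (fun x y z => f x * F y z) 1 :=
    ⟨(hf.comp measurable_fst).mul (b3_yz hF).meas, fun x y z => by
      rw [abs_mul]; exact mul_le_one₀ (hf1 _) (abs_nonneg _) (hF.bd _ _)⟩
  refine ⟨hb, ?_⟩
  rw [hb.eq_outer]
  simp_rw [integral_const_mul]
  rw [integral_mul_const]

theorem J3_prod2 {f : ℝ → ℝ} (hf : Measurable f) (hf1 : ∀ x, |f x| ≤ 1) {F : ℝ → ℝ → ℝ}
    (hF : B2 F) : B3 (fun x y z => f y * F x z) 1 ∧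
      J3 (fun x y z => f y * F x z) = (∫ x, f x ∂μ) * ∫ w, F w.1 w.2 ∂P2 := by
  have hb : B3 (fun x y z => f y * F x z) 1 :=
    ⟨(hf.comp (measurable_fst.comp measurable_snd)).mul (b3_xz hF).meas, fun x y z => by
      rw [abs_mul]; exact mul_le_one₀ (hf1 _) (abs_nonneg _) (hF.bd _ _)⟩
  refine ⟨hb, ?_⟩
  rw [hb.swap12]
  exact (J3_prod1 hf hf1 hF).2

theorem J3_prod3 {f : ℝ → ℝ} (hf : Measurable f) (hf1 : ∀ x, |f x| ≤ 1) {F : ℝ → ℝ → ℝ}
    (hF : B2 F) : B3 (fun x y z => f z * F x y) 1 ∧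
      J3 (fun x y z => f z * F x y) = (∫ x, f x ∂μ) * ∫ w, F w.1 w.2 ∂P2 := by
  have hb : B3 (fun x y z => f z * F x y) 1 :=
    ⟨(hf.comp (measurable_snd.comp measurable_snd)).mul (b3_xy hF).meas, fun x y z => by
      rw [abs_mul]; exact mul_le_one₀ (hf1 _) (abs_nonneg _) (hF.bd _ _)⟩
  refine ⟨hb, ?_⟩
  rw [hb.swap23]
  exact (J3_prod2 hf hf1 hF).2

theorem tri_cut {u v w a b c : ℝ} (hu : |u| ≤ 1) (hv : |v| ≤ 1) (hw : |w| ≤ 1)
    (ha : a = 0 ∨ a = 1) (hb : b = 0 ∨ b = 1) (hc : c = 0 ∨ c = 1) :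
    u * v * w ≤ (a * b * u) * (b * c * v) * (a * c * w) +
      ((1 - a) * |v| + ((1 - b) * |w| + (1 - c) * |u|)) := by
  have h1 : u * v * w ≤ |v| := by
    refine (le_abs_self _).trans ?_
    rw [abs_mul, abs_mul]
    have : |u| * |v| ≤ |v| := mul_le_of_le_one_left (abs_nonneg _) hu
    exact (mul_le_of_le_one_right (by positivity) hw).trans this
  have h2 : u * v * w ≤ |w| := by
    refine (le_abs_self _).trans ?_
    rw [abs_mul, abs_mul]
    have : |u| * |v| ≤ 1 := mul_le_one₀ hu (abs_nonneg _) hv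
    exact mul_le_of_le_one_left (abs_nonneg _) this
  have h3 : u * v * w ≤ |u| := by
    refine (le_abs_self _).trans ?_
    rw [abs_mul, abs_mul]
    have : |u| * |v| ≤ |u| := mul_le_of_le_one_right (abs_nonneg _) hv
    exact (mul_le_of_le_one_right (by positivity) hw).trans this
  have pu := abs_nonneg u
  have pv := abs_nonneg v
  have pw := abs_nonneg w
  rcases ha with rfl | rfl <;> rcases hb with rfl | rfl <;> rcases hc with rfl | rfl <;>
    simp <;> linarith

/-- the output of the estimates -/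
structure Est (p b : ℝ) (W : ℝ → ℝ → ℝ) (eu e m N X R TU : ℝ) : Prop where
  eu_le : |eu| ≤ e
  e_le : ∀ l : ℝ, 0 ≤ l → l ≤ 1 → l * e ≤ Eg (hp p) W + p * l ^ 2
  m_nn : 0 ≤ m
  m_le : m * b ^ 2 * (Real.log (1 / p) - 1) ≤ Eg (hp p) W
  N_nn : 0 ≤ N
  X_nn : 0 ≤ X
  R_nn : 0 ≤ R
  R_le : R * Real.log (1 / p) ≤ p * e * Real.log (1 / p) + 2 * b * Eg (hp p) W
  E_le : (Real.log (1 / p) - 1) * (N + 2 * X - m ^ 2) ≤ Eg (hp p) W
  TU_le : ∃ s : ℝ, TU ≤ s + 3 * m * e ∧ s ^ 2 ≤ N ^ 3
  T_eq : T W = p ^ 3 + 3 * p ^ 2 * eu + 3 * p * (X + R) + TU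
  Ch_eq : Ch W = p ^ 2 + 2 * p * eu + (X + R)

theorem est {p b : ℝ} (h0 : 0 < p) (h1 : p < 1) (hb : 0 < b)
    (hL1 : 1 ≤ Real.log (1 / p)) (hL : 2 * (1 + Real.log (1 / b)) ≤ Real.log (1 / p))
    {W : ℝ → ℝ → ℝ} (hW : Gr W) : ∃ eu e m N X R TU, Est p b W eu e m N X R TU := by
  set L := Real.log (1 / p) with hLdef
  set U : ℝ → ℝ → ℝ := fun x y => W x y - p with hUdef
  have hWb := hW.2.2
  have hU : B2 U := ⟨hW.meas.sub_const p, fun x y => by
    rw [hUdef, _root_.abs_le]; have := hWb x y; constructor <;> simp only <;> linarith [this.1, this.2]⟩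
  have hUs : ∀ x y, U x y = U y x := fun x y => by rw [hUdef]; simp only; rw [hW.2.1 x y]
  have hUa : B2 (fun x y => |U x y|) := ⟨hU.meas.abs, fun x y => by rw [abs_abs]; exact hU.bd _ _⟩
  have hUq : B2 (fun x y => U x y ^ 2) := ⟨hU.meas.pow_const 2, fun x y => by
    rw [abs_pow]; exact pow_le_one₀ (abs_nonneg _) (hU.bd _ _)⟩
  have rowm : ∀ x, Measurable (fun y => U x y) := fun x =>
    hU.meas.comp (measurable_const.prodMk measurable_id)
  have rowW : ∀ x, Measurable (fun y => W x y) := fun x =>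
    hW.meas.comp (measurable_const.prodMk measurable_id)
  have hgc := hp_cont h0 h1
  obtain ⟨C, hC0, hC⟩ := exists_bd hgc
  have hgm : Measurable (fun z : ℝ × ℝ => hp p (W z.1 z.2)) := hgc.measurable.comp hW.meas
  have hgi : ∀ x, Integrable (fun y => hp p (W x y)) μ := fun x =>
    int_bd (hgc.measurable.comp (rowW x)) fun y => hC _ (hWb x y).1 (hWb x y).2
  set d : ℝ → ℝ := fun x => ∫ y, U x y ∂μ with hd
  set ab : ℝ → ℝ := fun x => ∫ y, |U x y| ∂μ with hab
  set sq : ℝ → ℝ := fun x => ∫ y, U x y ^ 2 ∂μ with hsq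
  set Jr : ℝ → ℝ := fun x => ∫ y, hp p (W x y) ∂μ with hJr
  have hdm : Measurable d := by
    have hm2 : Measurable (fun w : ℝ × ℝ => U w.1 w.2) := hU.meas
    exact (hm2.stronglyMeasurable.integral_prod_right (f := fun x y => U x y)).measurable
  have habm : Measurable ab := by
    have hm2 : Measurable (fun w : ℝ × ℝ => |U w.1 w.2|) := hU.meas.abs
    exact (hm2.stronglyMeasurable.integral_prod_right (f := fun x y => |U x y|)).measurable
  have hsqm : Measurable sq := by
    have hm2 : Measurable (fun w : ℝ × ℝ => U w.1 w.2 ^ 2) := hU.meas.pow_const 2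
    exact (hm2.stronglyMeasurable.integral_prod_right
      (f := fun x y => U x y ^ 2)).measurable
  have hJrm : Measurable Jr :=
    (hgm.stronglyMeasurable.integral_prod_right (f := fun x y => hp p (W x y))).measurable
  have hdb : ∀ x, |d x| ≤ 1 := fun x => by
    have := norm_integral_le_of_norm_le_const (μ := μ) (f := fun y => U x y) (C := 1)
      (Eventually.of_forall fun y => hU.bd _ _)
    simpa using this
  have habb : ∀ x, |ab x| ≤ 1 := fun x => by
    have := norm_integral_le_of_norm_le_const (μ := μ) (f := fun y => |U x y|) (C := 1)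
      (Eventually.of_forall fun y => hUa.bd _ _)
    simpa using this
  have hsqb : ∀ x, |sq x| ≤ 1 := fun x => by
    have := norm_integral_le_of_norm_le_const (μ := μ) (f := fun y => U x y ^ 2) (C := 1)
      (Eventually.of_forall fun y => hUq.bd _ _)
    simpa using this
  have hJrb : ∀ x, |Jr x| ≤ C := fun x => by
    have := norm_integral_le_of_norm_le_const (μ := μ) (f := fun y => hp p (W x y)) (C := C)
      (Eventually.of_forall fun y => hC _ (hWb x y).1 (hWb x y).2)
    simpa using this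
  have hJr0 : ∀ x, 0 ≤ Jr x := fun x => integral_nonneg fun y => hp_nonneg h0 h1 (hWb x y).1 (hWb x y).2
  have hab0 : ∀ x, 0 ≤ ab x := fun x => integral_nonneg fun y => abs_nonneg _
  have hdab : ∀ x, |d x| ≤ ab x := fun x => norm_integral_le_integral_norm (fun y => U x y)
  have hJ : Eg (hp p) W = ∫ x, Jr x ∂μ := rfl
  have hJri : Integrable Jr μ := int_bd hJrm hJrb
  -- row estimates
  have row1 : ∀ x, (L - 1) * d x ^ 2 ≤ Jr x := by
    intro x
    have a1 : d x ^ 2 ≤ sq x := sq_int_le (ν := μ) (rowm x) (hU.bd x)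
    have a2 : (L - 1) * sq x ≤ Jr x := by
      rw [hsq, hJr]
      simp only
      rw [← integral_const_mul]
      refine integral_mono ((hUq.row x).const_mul _) (hgi x) fun y => ?_
      exact hp_sq h0 h1 (hWb x y).1 (hWb x y).2
    have := mul_le_mul_of_nonneg_left a1 (sub_nonneg.mpr hL1)
    linarith
  have hdp : ∀ x, ∫ y, W x y ∂μ = p + d x := by
    intro x
    have : (fun y => U x y) = fun y => W x y - p := rfl
    rw [hd]
    simp only
    rw [this, integral_sub (int_bd (rowW x) (hW.abs_le x)) (integrable_const _)]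
    simp
  have hdneg : ∀ x, -p ≤ d x := by
    intro x
    have a1 : 0 ≤ ∫ y, W x y ∂μ := integral_nonneg fun y => (hWb x y).1
    rw [hdp] at a1; linarith
  have row2 : ∀ x, 0 ≤ d x → p * Gf (d x / p) ≤ Jr x := by
    intro x hx
    have hpd : 0 < (p + d x) / p := by positivity
    have a1 : ∫ y, (Real.log ((p + d x) / p) * W x y -
        p * (Real.exp (Real.log ((p + d x) / p)) - 1)) ∂μ ≤ Jr x := by
      refine integral_mono (((int_bd (rowW x) (hW.abs_le x)).const_mul _).sub (integrable_const _))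
        (hgi x) fun y => ?_
      exact hp_leg h0 h1 (hWb x y).1 (hWb x y).2 _
    rw [integral_sub ((int_bd (rowW x) (hW.abs_le x)).const_mul _) (integrable_const _),
      integral_const_mul, hdp, Real.exp_log hpd] at a1
    simp only [integral_const, probReal_univ, smul_eq_mul, one_mul] at a1
    refine le_of_eq_of_le ?_ a1
    unfold Gf
    have : 1 + d x / p = (p + d x) / p := by field_simp
    rw [this]
    field_simp
    ring
  -- cut-off
  set χ : ℝ → ℝ := fun x => if d x ≤ b then 1 else 0 with hχ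
  have hχm : Measurable χ := Measurable.ite (measurableSet_le hdm measurable_const)
    measurable_const measurable_const
  have hχ01 : ∀ x, χ x = 0 ∨ χ x = 1 := fun x => by
    rw [hχ]; simp only; split_ifs <;> simp
  have hχ0 : ∀ x, 0 ≤ χ x := fun x => by rcases hχ01 x with h | h <;> rw [h] <;> norm_num
  have hχ1 : ∀ x, χ x ≤ 1 := fun x => by rcases hχ01 x with h | h <;> rw [h] <;> norm_num
  have hχb : ∀ x, |χ x| ≤ 1 := fun x => by rw [abs_of_nonneg (hχ0 x)]; exact hχ1 x
  have hχ'm : Measurable (fun x => 1 - χ x) := measurable_const.sub hχm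
  have hχ'b : ∀ x, |1 - χ x| ≤ 1 := fun x => by
    rw [abs_of_nonneg (by linarith [hχ1 x])]; linarith [hχ0 x]
  set e := ∫ z, |U z.1 z.2| ∂P2 with he
  set m := ∫ x, (1 - χ x) ∂μ with hm
  set A : ℝ → ℝ → ℝ := fun x y => χ x * χ y * U x y with hA
  have hAb : B2 A := by
    refine ⟨((hχm.comp measurable_fst).mul (hχm.comp measurable_snd)).mul hU.meas, fun x y => ?_⟩
    rw [hA, abs_mul, abs_mul]
    exact mul_le_one₀ (mul_le_one₀ (hχb _) (abs_nonneg _) (hχb _)) (abs_nonneg _) (hU.bd _ _)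
  set N := ∫ z, A z.1 z.2 ^ 2 ∂P2 with hN
  set X := ∫ x, (1 - χ x) * d x ^ 2 ∂μ with hX
  set R := ∫ x, χ x * d x ^ 2 ∂μ with hR
  have hd2m : Measurable (fun x => d x ^ 2) := hdm.pow_const 2
  have hd2b : ∀ x, |d x ^ 2| ≤ 1 := fun x => by
    rw [abs_pow]; exact pow_le_one₀ (abs_nonneg _) (hdb x)
  have iX : Integrable (fun x => (1 - χ x) * d x ^ 2) μ :=
    int_bd (hχ'm.mul hd2m) (C := 1) fun x => by
      rw [abs_mul]; exact mul_le_one₀ (hχ'b x) (abs_nonneg _) (hd2b x)
  have iR : Integrable (fun x => χ x * d x ^ 2) μ :=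
    int_bd (hχm.mul hd2m) (C := 1) fun x => by
      rw [abs_mul]; exact mul_le_one₀ (hχb x) (abs_nonneg _) (hd2b x)
  have hChU : Ch U = X + R := by
    rw [Ch_sq, hX, hR, ← integral_add iX iR]
    congr 1
    funext x
    ring
  have heab : e = ∫ x, ab x ∂μ := by rw [he, hUa.eq_iter]
  have habi : Integrable ab μ := int_bd habm habb
  refine ⟨∫ z, U z.1 z.2 ∂P2, e, m, N, X, R, T U, ?_⟩
  refine ⟨norm_integral_le_integral_norm (fun z : ℝ × ℝ => U z.1 z.2), ?_, ?_, ?_, ?_, ?_, ?_, ?_,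
    ?_, ?_, ?_, ?_⟩
  · -- Young
    intro l hl0 hl1
    have a1 : ∫ z : ℝ × ℝ, (l * |U z.1 z.2| - p * l ^ 2) ∂P2 ≤ ∫ z, hp p (W z.1 z.2) ∂P2 := by
      refine integral_mono ((hUa.int.const_mul _).sub (integrable_const _)) (g_int hgc hW) fun z => ?_
      exact hp_young h0 h1 (hWb _ _).1 (hWb _ _).2 hl0 hl1
    rw [integral_sub (hUa.int.const_mul _) (integrable_const _), integral_const_mul, ← Eg_eq hgc hW] at a1
    simp only [integral_const, probReal_univ, smul_eq_mul, one_mul] at a1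
    linarith
  · exact integral_nonneg fun x => (show (0:ℝ) ≤ 1 - χ x by linarith [hχ1 x])
  · -- m bound
    rw [hJ, hm]
    have : (∫ x, (1 - χ x) ∂μ) * b ^ 2 * (L - 1) = ∫ x, (b ^ 2 * (L - 1)) * (1 - χ x) ∂μ := by
      rw [integral_const_mul]; ring
    rw [this]
    refine integral_mono ((int_bd hχ'm hχ'b).const_mul _) hJri fun x => ?_
    simp only
    by_cases hx : d x ≤ b
    · have : χ x = 1 := by rw [hχ]; simp only; rw [if_pos hx]
      rw [this]; simpa using hJr0 x
    · have : χ x = 0 := by rw [hχ]; simp only; rw [if_neg hx]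
      rw [this]
      push Not at hx
      have h5 : b ^ 2 ≤ d x ^ 2 := pow_le_pow_left₀ hb.le hx.le 2
      have := mul_le_mul_of_nonneg_right h5 (sub_nonneg.mpr hL1)
      linarith [row1 x]
  · exact integral_nonneg fun z => sq_nonneg _
  · exact integral_nonneg fun x => mul_nonneg (by linarith [hχ1 x]) (sq_nonneg _)
  · exact integral_nonneg fun x => mul_nonneg (hχ0 x) (sq_nonneg _)
  · -- R bound
    have e1 : R * L = ∫ x, L * (χ x * d x ^ 2) ∂μ := by rw [integral_const_mul]; ring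
    have e2 : p * e * L + 2 * b * Eg (hp p) W = ∫ x, ((p * L) * ab x + (2 * b) * Jr x) ∂μ := by
      rw [integral_add (habi.const_mul _) (hJri.const_mul _), integral_const_mul,
        integral_const_mul, ← heab, ← hJ]
      ring
    rw [e1, e2]
    refine integral_mono (iR.const_mul _) ((habi.const_mul _).add (hJri.const_mul _)) fun x => ?_
    simp only
    have hL0 : 0 ≤ L := by linarith
    by_cases hx : d x ≤ b
    · have : χ x = 1 := by rw [hχ]; simp only; rw [if_pos hx]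
      rw [this, one_mul]
      rcases le_total 0 (d x) with hx0 | hx0
      · have h5 := Gf_mid h0 hb hL hx0 hx
        have h6 := row2 x hx0
        have h7 : 0 ≤ p * L * ab x := mul_nonneg (mul_nonneg h0.le hL0) (hab0 x)
        have h8 : 2 * b * (p * Gf (d x / p)) ≤ 2 * b * Jr x :=
          mul_le_mul_of_nonneg_left h6 (by linarith)
        linarith
      · have h5 : d x ^ 2 ≤ p * ab x := by
          have h6 := hdneg x
          have h7 : -d x ≤ ab x := (neg_le_abs _).trans (hdab x)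
          nlinarith
        have h6 := mul_le_mul_of_nonneg_left h5 hL0
        have h7 : 0 ≤ 2 * b * Jr x := mul_nonneg (by linarith) (hJr0 x)
        nlinarith
    · have : χ x = 0 := by rw [hχ]; simp only; rw [if_neg hx]
      rw [this]
      have h7 : 0 ≤ p * L * ab x := mul_nonneg (mul_nonneg h0.le hL0) (hab0 x)
      have h8 : 0 ≤ 2 * b * Jr x := mul_nonneg (by linarith) (hJr0 x)
      simp only [zero_mul, mul_zero]
      linarith
  · -- energy bound
    have a1 : (L - 1) * ∫ z, U z.1 z.2 ^ 2 ∂P2 ≤ Eg (hp p) W := by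
      rw [Eg_eq hgc hW, ← integral_const_mul]
      refine integral_mono (hUq.int.const_mul _) (g_int hgc hW) fun z => ?_
      exact hp_sq h0 h1 (hWb _ _).1 (hWb _ _).2
    have a2 : N + 2 * X - m ^ 2 ≤ ∫ z, U z.1 z.2 ^ 2 ∂P2 := by
      have k1 : B2 (fun x y => (1 - χ x) * U x y ^ 2) :=
        ⟨(hχ'm.comp measurable_fst).mul hUq.meas, fun x y => by
          rw [abs_mul]; exact mul_le_one₀ (hχ'b _) (abs_nonneg _) (hUq.bd _ _)⟩
      have k2 : B2 (fun x y => (1 - χ y) * U x y ^ 2) :=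
        ⟨(hχ'm.comp measurable_snd).mul hUq.meas, fun x y => by
          rw [abs_mul]; exact mul_le_one₀ (hχ'b _) (abs_nonneg _) (hUq.bd _ _)⟩
      have k3 : B2 (fun x y => (1 - χ x) * (1 - χ y) * U x y ^ 2) :=
        ⟨((hχ'm.comp measurable_fst).mul (hχ'm.comp measurable_snd)).mul hUq.meas, fun x y => by
          rw [abs_mul, abs_mul]
          exact mul_le_one₀ (mul_le_one₀ (hχ'b _) (abs_nonneg _) (hχ'b _)) (abs_nonneg _)
            (hUq.bd _ _)⟩
      have k4 : B2 (fun x y => A x y ^ 2) := ⟨hAb.meas.pow_const 2, fun x y => by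
        rw [abs_pow]; exact pow_le_one₀ (abs_nonneg _) (hAb.bd _ _)⟩
      have k5 : B2 (fun x y => (1 - χ x) * (1 - χ y)) :=
        ⟨(hχ'm.comp measurable_fst).mul (hχ'm.comp measurable_snd), fun x y => by
          rw [abs_mul]; exact mul_le_one₀ (hχ'b _) (abs_nonneg _) (hχ'b _)⟩
      have s1 : X ≤ ∫ z : ℝ × ℝ, (1 - χ z.1) * U z.1 z.2 ^ 2 ∂P2 := by
        rw [k1.eq_iter, hX]
        have isq : Integrable (fun x => (1 - χ x) * sq x) μ :=
          int_bd (hχ'm.mul hsqm) (C := 1) fun x => by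
            rw [abs_mul]; exact mul_le_one₀ (hχ'b x) (abs_nonneg _) (hsqb x)
        have : ∀ x, ∫ y, (1 - χ x) * U x y ^ 2 ∂μ = (1 - χ x) * sq x := fun x => integral_const_mul _ _
        simp_rw [this]
        refine integral_mono iX isq fun x => ?_
        have a1 : d x ^ 2 ≤ sq x := sq_int_le (ν := μ) (rowm x) (hU.bd x)
        exact mul_le_mul_of_nonneg_left a1 (by linarith [hχ1 x])
      have s2 : ∫ z : ℝ × ℝ, (1 - χ z.2) * U z.1 z.2 ^ 2 ∂P2 =
          ∫ z : ℝ × ℝ, (1 - χ z.1) * U z.1 z.2 ^ 2 ∂P2 := by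
        have := integral_prod_swap (μ := μ) (ν := μ)
          (f := fun z : ℝ × ℝ => (1 - χ z.1) * U z.1 z.2 ^ 2)
        rw [← this]
        congr 1
        funext z
        simp only [Prod.fst_swap, Prod.snd_swap]
        rw [hUs z.2 z.1]
      have s3 : ∫ z : ℝ × ℝ, (1 - χ z.1) * (1 - χ z.2) * U z.1 z.2 ^ 2 ∂P2 ≤ m ^ 2 := by
        have : m ^ 2 = ∫ z : ℝ × ℝ, (1 - χ z.1) * (1 - χ z.2) ∂P2 := by
          rw [integral_prod_mul (μ := μ) (ν := μ) (fun x => 1 - χ x) (fun x => 1 - χ x), ← hm]; ring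
        rw [this]
        refine integral_mono k3.int k5.int fun z => ?_
        have q1 : U z.1 z.2 ^ 2 ≤ 1 := (le_abs_self _).trans (hUq.bd _ _)
        exact mul_le_of_le_one_right (mul_nonneg (by linarith [hχ1 z.1]) (by linarith [hχ1 z.2])) q1
      have s4 : ∫ z, U z.1 z.2 ^ 2 ∂P2 = N + (∫ z : ℝ × ℝ, (1 - χ z.1) * U z.1 z.2 ^ 2 ∂P2 +
          (∫ z : ℝ × ℝ, (1 - χ z.2) * U z.1 z.2 ^ 2 ∂P2 -
            ∫ z : ℝ × ℝ, (1 - χ z.1) * (1 - χ z.2) * U z.1 z.2 ^ 2 ∂P2)) := by
        have t1 : Integrable (fun z : ℝ × ℝ => (1 - χ z.2) * U z.1 z.2 ^ 2 -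
            (1 - χ z.1) * (1 - χ z.2) * U z.1 z.2 ^ 2) P2 := k2.int.sub k3.int
        have t2 : Integrable (fun z : ℝ × ℝ => (1 - χ z.1) * U z.1 z.2 ^ 2 +
            ((1 - χ z.2) * U z.1 z.2 ^ 2 - (1 - χ z.1) * (1 - χ z.2) * U z.1 z.2 ^ 2)) P2 :=
          k1.int.add t1
        rw [← integral_sub k2.int k3.int, ← integral_add k1.int t1, hN, ← integral_add k4.int t2]
        congr 1
        funext z
        rw [hA]
        simp only
        rcases hχ01 z.1 with h | h <;> rcases hχ01 z.2 with h' | h' <;> rw [h, h'] <;> ring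
      rw [s4, s2]
      linarith
    have := mul_le_mul_of_nonneg_left a2 (sub_nonneg.mpr hL1)
    linarith
  · -- triangle bound
    refine ⟨T A, ?_, T_sq_le hAb⟩
    obtain ⟨p1, q1⟩ := J3_prod1 hχ'm hχ'b hUa
    obtain ⟨p2, q2⟩ := J3_prod2 hχ'm hχ'b hUa
    obtain ⟨p3, q3⟩ := J3_prod3 hχ'm hχ'b hUa
    have p23 := p2.add' p3
    have p123 := p1.add' p23
    have hTA := b3_tri hAb hAb hAb
    have hTU := b3_tri hU hU hU
    have e1 : J3 (fun x y z => A x y * A y z * A x z + ((1 - χ x) * |U y z| + ((1 - χ y) * |U x z| +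
        (1 - χ z) * |U x y|))) = T A + 3 * m * e := by
      rw [hTA.add p123, p1.add p23, p2.add p3, q1, q2, q3, ← T_eq hAb]
      ring
    rw [← e1, T_eq hU]
    refine J3_mono hTU (hTA.add' p123) fun x y z => ?_
    exact tri_cut (hU.bd x y) (hU.bd y z) (hU.bd x z) (hχ01 x) (hχ01 y) (hχ01 z)
  · rw [← hChU]
    exact T_expand hW.b2 hU hUs fun x y => by rw [hUdef]; ring
  · rw [← hChU]
    exact Ch_expand hW.b2 hU fun x y => by rw [hUdef]; ring

end Pool.Agent.H767R3.Gr
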