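import Mathlib

/-! Graphons on `[0,1]`: basic definitions and finite partitions. -/

set_option autoImplicit false
set_option linter.dupNamespace false
set_option linter.unusedVariables false

namespace Pool.Agent.H767R3.Gr

open MeasureTheory Filter Topology Set

/-- Lebesgue measure on `[0,1]` -/
noncomputable def μ : Measure ℝ := volume.restrict (Icc (0:ℝ) 1)

instance : IsProbabilityMeasure μ := ⟨by simp [μ]⟩

/-- product measure -/
noncomputable abbrev P2 : Measure (ℝ × ℝ) := μ.prod μ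

/-- graphons -/
def Gr (W : ℝ → ℝ → ℝ) : Prop :=
  Measurable (Function.uncurry W) ∧ (∀ x y, W x y = W y x) ∧ ∀ x y, 0 ≤ W x y ∧ W x y ≤ 1

theorem int_bd {α : Type*} [MeasurableSpace α] {ν : Measure α} [IsFiniteMeasure ν] {f : α → ℝ}
    (hf : Measurable f) {C : ℝ} (hC : ∀ x, |f x| ≤ C) : Integrable f ν :=
  Integrable.of_bound hf.aestronglyMeasurable C (Eventually.of_forall hC)

theorem Gr.meas {W : ℝ → ℝ → ℝ} (h : Gr W) : Measurable (fun z : ℝ × ℝ => W z.1 z.2) := h.1

theorem Gr.abs_le {W : ℝ → ℝ → ℝ} (h : Gr W) (x y : ℝ) : |W x y| ≤ 1 := by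
  have := h.2.2 x y
  rw [abs_of_nonneg this.1]; exact this.2

/-- a measurable partition into at most `N` cells -/
structure Part where
  N : ℕ
  f : ℝ → ℕ
  meas : Measurable f
  lt : ∀ x, f x < N

namespace Part

variable (P : Part)

/-- cell masses -/
noncomputable def a (i : ℕ) : ℝ := μ.real (P.f ⁻¹' {i})

/-- cell integrals -/
noncomputable def c (W : ℝ → ℝ → ℝ) (i j : ℕ) : ℝ :=
  ∫ z, W z.1 z.2 * ((if P.f z.1 = i then 1 else 0) * (if P.f z.2 = j then 1 else 0)) ∂P2

/-- cell averages -/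
noncomputable def u (W : ℝ → ℝ → ℝ) (i j : ℕ) : ℝ := P.c W i j / (P.a i * P.a j)

/-- step function -/
def st (v : ℕ → ℕ → ℝ) (x y : ℝ) : ℝ := v (P.f x) (P.f y)

/-- averaged kernel -/
noncomputable def av (W : ℝ → ℝ → ℝ) : ℝ → ℝ → ℝ := P.st (P.u W)

theorem a_nonneg (i : ℕ) : 0 ≤ P.a i := measureReal_nonneg

theorem a_le_one (i : ℕ) : P.a i ≤ 1 := measureReal_le_one

theorem meas_F (F : ℕ → ℝ) : Measurable (fun x => F (P.f x)) :=
  (measurable_from_top (f := F)).comp P.meas

theorem meas_v (v : ℕ → ℕ → ℝ) : Measurable (fun z : ℝ × ℝ => v (P.f z.1) (P.f z.2)) := by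
  have h1 : Measurable (fun z : ℝ × ℝ => (P.f z.1, P.f z.2)) :=
    (P.meas.comp measurable_fst).prodMk (P.meas.comp measurable_snd)
  exact (measurable_of_countable (fun q : ℕ × ℕ => v q.1 q.2)).comp h1

theorem bd_F (F : ℕ → ℝ) (x : ℝ) : |F (P.f x)| ≤ ∑ i ∈ Finset.range P.N, |F i| :=
  Finset.single_le_sum (f := fun i => |F i|) (fun i _ => abs_nonneg _)
    (Finset.mem_range.mpr (P.lt x))

theorem bd_v (v : ℕ → ℕ → ℝ) (x y : ℝ) :
    |v (P.f x) (P.f y)| ≤ ∑ i ∈ Finset.range P.N, ∑ j ∈ Finset.range P.N, |v i j| := by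
  refine (Finset.single_le_sum (f := fun j => |v (P.f x) j|) (fun i _ => abs_nonneg _)
    (Finset.mem_range.mpr (P.lt y))).trans ?_
  exact Finset.single_le_sum (f := fun i => ∑ j ∈ Finset.range P.N, |v i j|)
    (fun i _ => Finset.sum_nonneg fun j _ => abs_nonneg _) (Finset.mem_range.mpr (P.lt x))

theorem int_F (F : ℕ → ℝ) : ∫ x, F (P.f x) ∂μ = ∑ i ∈ Finset.range P.N, P.a i * F i := by
  have h : (fun x => F (P.f x)) = fun x => ∑ i ∈ Finset.range P.N,
      (P.f ⁻¹' {i}).indicator (fun _ => F i) x := by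
    funext x
    rw [Finset.sum_eq_single (P.f x)]
    · rw [Set.indicator_of_mem]; rfl
    · intro i _ hi
      rw [Set.indicator_of_notMem]
      intro h; exact hi h.symm
    · intro h; exact absurd (Finset.mem_range.mpr (P.lt x)) h
  rw [h, integral_finsetSum]
  · refine Finset.sum_congr rfl fun i _ => ?_
    rw [integral_indicator_const _ (P.meas (measurableSet_singleton i))]
    rfl
  · intro i _
    exact (integrable_const _).indicator (P.meas (measurableSet_singleton i))

theorem sum_a : ∑ i ∈ Finset.range P.N, P.a i = 1 := by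
  have := P.int_F (fun _ => 1)
  simpa using this.symm

theorem int_Fg (F : ℕ → ℝ) {g : ℝ → ℝ} (hg : Measurable g) {C : ℝ} (hC : ∀ x, |g x| ≤ C) :
    ∫ x, g x * F (P.f x) ∂μ =
      ∑ i ∈ Finset.range P.N, (∫ x, g x * (if P.f x = i then 1 else 0) ∂μ) * F i := by
  have hind : ∀ i, Measurable (fun x => if P.f x = i then (1:ℝ) else 0) := fun i =>
    Measurable.ite (P.meas (measurableSet_singleton i)) measurable_const measurable_const
  have h : (fun x => g x * F (P.f x)) = fun x => ∑ i ∈ Finset.range P.N,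
      (g x * (if P.f x = i then 1 else 0)) * F i := by
    funext x
    rw [Finset.sum_eq_single (P.f x)]
    · simp
    · intro i _ hi
      rw [if_neg (fun h => hi h.symm)]; simp
    · intro h; exact absurd (Finset.mem_range.mpr (P.lt x)) h
  rw [h, integral_finsetSum]
  · refine Finset.sum_congr rfl fun i _ => ?_
    rw [integral_mul_const]
  · intro i _
    have hm : Measurable (fun x => g x * (if P.f x = i then (1:ℝ) else 0)) := hg.mul (hind i)
    refine Integrable.mul_const (int_bd hm (C := C) fun x => ?_) _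
    rw [abs_mul]
    have h0 := (abs_nonneg _).trans (hC x)
    split_ifs <;> simp [hC x, h0]

theorem int_v (v : ℕ → ℕ → ℝ) : ∫ z, v (P.f z.1) (P.f z.2) ∂P2 =
    ∑ i ∈ Finset.range P.N, ∑ j ∈ Finset.range P.N, P.a i * P.a j * v i j := by
  rw [integral_prod _ (int_bd (P.meas_v v) fun z => P.bd_v v z.1 z.2)]
  simp only
  have h1 : ∀ x, ∫ y, v (P.f x) (P.f y) ∂μ = ∑ j ∈ Finset.range P.N, P.a j * v (P.f x) j :=
    fun x => P.int_F (v (P.f x))
  simp_rw [h1]
  rw [P.int_F (fun i => ∑ j ∈ Finset.range P.N, P.a j * v i j)]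
  refine Finset.sum_congr rfl fun i _ => ?_
  rw [Finset.mul_sum]
  refine Finset.sum_congr rfl fun j _ => ?_
  ring

theorem ind_meas (i : ℕ) : Measurable (fun x => if P.f x = i then (1:ℝ) else 0) :=
  Measurable.ite (P.meas (measurableSet_singleton i)) measurable_const measurable_const

theorem int_Wv {W : ℝ → ℝ → ℝ} (hW : Measurable (fun z : ℝ × ℝ => W z.1 z.2)) {C : ℝ}
    (hC : ∀ x y, |W x y| ≤ C) (v : ℕ → ℕ → ℝ) :
    ∫ z, W z.1 z.2 * v (P.f z.1) (P.f z.2) ∂P2 =
      ∑ i ∈ Finset.range P.N, ∑ j ∈ Finset.range P.N, P.c W i j * v i j := by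
  have hC0 : 0 ≤ C := (abs_nonneg _).trans (hC 0 0)
  have h : (fun z : ℝ × ℝ => W z.1 z.2 * v (P.f z.1) (P.f z.2)) = fun z =>
      ∑ i ∈ Finset.range P.N, ∑ j ∈ Finset.range P.N,
      (W z.1 z.2 * ((if P.f z.1 = i then 1 else 0) * (if P.f z.2 = j then 1 else 0))) * v i j := by
    funext z
    rw [Finset.sum_eq_single (P.f z.1)]
    · rw [Finset.sum_eq_single (P.f z.2)]
      · simp
      · intro i _ hi
        have h' : ¬ (P.f z.2 = i) := fun h => hi h.symm
        simp [h']
      · intro h; exact absurd (Finset.mem_range.mpr (P.lt z.2)) h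
    · intro i _ hi
      refine Finset.sum_eq_zero fun j _ => ?_
      have h' : ¬ (P.f z.1 = i) := fun h => hi h.symm
      simp [h']
    · intro h; exact absurd (Finset.mem_range.mpr (P.lt z.1)) h
  have hint : ∀ i j, Integrable (fun z : ℝ × ℝ =>
      (W z.1 z.2 * ((if P.f z.1 = i then 1 else 0) * (if P.f z.2 = j then 1 else 0))) * v i j) P2 := by
    intro i j
    have hm : Measurable (fun z : ℝ × ℝ =>
        W z.1 z.2 * ((if P.f z.1 = i then (1:ℝ) else 0) * (if P.f z.2 = j then 1 else 0))) :=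
      hW.mul (((P.ind_meas i).comp measurable_fst).mul ((P.ind_meas j).comp measurable_snd))
    refine Integrable.mul_const (int_bd hm (C := C) fun z => ?_) _
    rw [abs_mul]
    have := hC z.1 z.2
    split_ifs <;> simp [this, hC0]
  rw [h, integral_finsetSum]
  · refine Finset.sum_congr rfl fun i _ => ?_
    rw [integral_finsetSum]
    · refine Finset.sum_congr rfl fun j _ => ?_
      rw [integral_mul_const]
      rfl
    · intro j _; exact hint i j
  · intro i _
    exact integrable_finsetSum _ fun j _ => hint i j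

theorem c_bounds {W : ℝ → ℝ → ℝ} (hW : Gr W) (i j : ℕ) :
    0 ≤ P.c W i j ∧ P.c W i j ≤ P.a i * P.a j := by
  constructor
  · unfold c
    apply integral_nonneg
    intro z
    have := (hW.2.2 z.1 z.2).1
    simp only [Pi.zero_apply]
    split_ifs <;> simp <;> exact this
  · have h1 : ∫ z, ((if P.f z.1 = i then (1:ℝ) else 0) * (if P.f z.2 = j then 1 else 0)) ∂P2 =
        P.a i * P.a j := by
      rw [integral_prod_mul (f := fun x => if P.f x = i then (1:ℝ) else 0)
        (g := fun y => if P.f y = j then (1:ℝ) else 0)]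
      have h2 : ∀ k, ∫ x, (if P.f x = k then (1:ℝ) else 0) ∂μ = P.a k := by
        intro k
        have : (fun x => if P.f x = k then (1:ℝ) else 0) = (P.f ⁻¹' {k}).indicator (fun _ => 1) := by
          funext x
          by_cases hx : P.f x = k
          · rw [if_pos hx, Set.indicator_of_mem (show x ∈ P.f ⁻¹' {k} from hx)]
          · rw [if_neg hx, Set.indicator_of_notMem (show x ∉ P.f ⁻¹' {k} from hx)]
        rw [this, integral_indicator_const _ (P.meas (measurableSet_singleton k))]
        simp [a]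
      rw [h2, h2]
    rw [← h1]
    unfold c
    apply integral_mono
    · have hm : Measurable (fun z : ℝ × ℝ =>
          W z.1 z.2 * ((if P.f z.1 = i then (1:ℝ) else 0) * (if P.f z.2 = j then 1 else 0))) :=
        hW.meas.mul (((P.ind_meas i).comp measurable_fst).mul ((P.ind_meas j).comp measurable_snd))
      refine int_bd hm (C := 1) fun z => ?_
      rw [abs_mul]
      have := hW.abs_le z.1 z.2
      split_ifs <;> simp [this]
    · have hm : Measurable (fun z : ℝ × ℝ =>
          ((if P.f z.1 = i then (1:ℝ) else 0) * (if P.f z.2 = j then 1 else 0))) :=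
        ((P.ind_meas i).comp measurable_fst).mul ((P.ind_meas j).comp measurable_snd)
      refine int_bd hm (C := 1) fun z => ?_
      split_ifs <;> simp
    · intro z
      simp only
      have := (hW.2.2 z.1 z.2).2
      split_ifs <;> simp <;> exact this

theorem a_mul_u {W : ℝ → ℝ → ℝ} (hW : Gr W) (i j : ℕ) :
    P.a i * P.a j * P.u W i j = P.c W i j := by
  unfold u
  by_cases h : P.a i * P.a j = 0
  · have := P.c_bounds hW i j
    rw [h] at this
    rw [h, zero_mul]
    linarith [this.1, this.2]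
  · rw [mul_comm]; exact div_mul_cancel₀ _ h

theorem u_bounds {W : ℝ → ℝ → ℝ} (hW : Gr W) (i j : ℕ) : 0 ≤ P.u W i j ∧ P.u W i j ≤ 1 := by
  have h := P.c_bounds hW i j
  have ha : 0 ≤ P.a i * P.a j := mul_nonneg (P.a_nonneg i) (P.a_nonneg j)
  unfold u
  exact ⟨div_nonneg h.1 ha, div_le_one_of_le₀ h.2 ha⟩

theorem c_symm {W : ℝ → ℝ → ℝ} (hW : Gr W) (i j : ℕ) : P.c W i j = P.c W j i := by
  unfold c
  rw [← integral_prod_swap]
  congr 1
  funext z
  simp only [Prod.fst_swap, Prod.snd_swap]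
  rw [hW.2.1 z.2 z.1]; ring

theorem av_gr {W : ℝ → ℝ → ℝ} (hW : Gr W) : Gr (P.av W) := by
  refine ⟨P.meas_v (P.u W), ?_, ?_⟩
  · intro x y
    unfold av st u
    rw [P.c_symm hW, mul_comm (P.a (P.f x))]
  · intro x y
    exact P.u_bounds hW _ _

/-- `W - av W` is orthogonal to step functions -/
theorem orth {W : ℝ → ℝ → ℝ} (hW : Gr W) (v : ℕ → ℕ → ℝ) :
    ∫ z, (W z.1 z.2 - P.av W z.1 z.2) * v (P.f z.1) (P.f z.2) ∂P2 = 0 := by
  have h1 := P.int_Wv hW.meas hW.abs_le v
  have h2 := P.int_v (fun i j => P.u W i j * v i j)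
  have e : (fun z : ℝ × ℝ => (W z.1 z.2 - P.av W z.1 z.2) * v (P.f z.1) (P.f z.2)) =
      fun z => W z.1 z.2 * v (P.f z.1) (P.f z.2) -
        P.u W (P.f z.1) (P.f z.2) * v (P.f z.1) (P.f z.2) := by
    funext z; unfold av st; ring
  rw [e, integral_sub]
  · rw [h1, h2, ← Finset.sum_sub_distrib]
    refine Finset.sum_eq_zero fun i _ => ?_
    rw [← Finset.sum_sub_distrib]
    refine Finset.sum_eq_zero fun j _ => ?_
    rw [← P.a_mul_u hW i j]; ring
  · have hm : Measurable (fun z : ℝ × ℝ => W z.1 z.2 * v (P.f z.1) (P.f z.2)) :=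
      hW.meas.mul (P.meas_v v)
    refine int_bd hm (C := 1 * ∑ i ∈ Finset.range P.N,
      ∑ j ∈ Finset.range P.N, |v i j|) fun z => ?_
    rw [abs_mul]
    exact mul_le_mul (hW.abs_le _ _) (P.bd_v v _ _) (abs_nonneg _) zero_le_one
  · exact int_bd (P.meas_v (fun i j => P.u W i j * v i j))
      (fun z => P.bd_v (fun i j => P.u W i j * v i j) z.1 z.2)

end Part

end Pool.Agent.H767R3.Gr
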