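import Pool.Agent.H767R3.GrBase

/-! Triangle and cherry densities, cut norm and the counting lemma. -/

set_option autoImplicit false
set_option linter.dupNamespace false
set_option linter.unusedVariables false

namespace Pool.Agent.H767R3.Gr

open MeasureTheory Filter Topology Set

noncomputable abbrev P3 : Measure (ℝ × ℝ × ℝ) := μ.prod (μ.prod μ)

/-- triple integral -/
noncomputable def J3 (F : ℝ → ℝ → ℝ → ℝ) : ℝ := ∫ q, F q.1 q.2.1 q.2.2 ∂P3

/-- bounded measurable functions of three variables -/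
structure B3 (F : ℝ → ℝ → ℝ → ℝ) (C : ℝ) : Prop where
  meas : Measurable (fun q : ℝ × ℝ × ℝ => F q.1 q.2.1 q.2.2)
  bd : ∀ x y z, |F x y z| ≤ C

namespace B3

variable {F G : ℝ → ℝ → ℝ → ℝ} {C C' : ℝ}

theorem int (h : B3 F C) : Integrable (fun q : ℝ × ℝ × ℝ => F q.1 q.2.1 q.2.2) P3 :=
  int_bd h.meas fun q => h.bd q.1 q.2.1 q.2.2

theorem sec (h : B3 F C) (x : ℝ) : Measurable (fun w : ℝ × ℝ => F x w.1 w.2) :=
  h.meas.comp (measurable_const.prodMk measurable_id)

theorem sec_int (h : B3 F C) (x : ℝ) : Integrable (fun w : ℝ × ℝ => F x w.1 w.2) P2 :=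
  int_bd (h.sec x) fun w => h.bd x w.1 w.2

theorem eq_outer (h : B3 F C) : J3 F = ∫ x, ∫ w, F x w.1 w.2 ∂P2 ∂μ := by
  unfold J3
  rw [integral_prod _ h.int]

theorem eq_iter (h : B3 F C) : J3 F = ∫ x, ∫ y, ∫ z, F x y z ∂μ ∂μ ∂μ := by
  rw [h.eq_outer]
  congr 1
  funext x
  rw [integral_prod _ (h.sec_int x)]

theorem swap23 (h : B3 F C) : J3 F = J3 (fun x z y => F x y z) := by
  have h' : B3 (fun x z y => F x y z) C := by
    refine ⟨?_, fun x y z => h.bd _ _ _⟩
    exact h.meas.comp (measurable_fst.prodMk ((measurable_snd.comp measurable_snd).prodMk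
      (measurable_fst.comp measurable_snd)))
  rw [h.eq_iter, h'.eq_iter]
  congr 1
  funext x
  exact integral_integral_swap (f := fun y z => F x y z) (h.sec_int x)

theorem inner_int (h : B3 F C) : Integrable (fun w : ℝ × ℝ => ∫ z, F w.1 w.2 z ∂μ) P2 := by
  have hm : Measurable (fun w : (ℝ × ℝ) × ℝ => F w.1.1 w.1.2 w.2) :=
    h.meas.comp ((measurable_fst.comp measurable_fst).prodMk
      ((measurable_snd.comp measurable_fst).prodMk measurable_snd))
  have hsm : StronglyMeasurable (fun w : ℝ × ℝ => ∫ z, F w.1 w.2 z ∂μ) :=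
    hm.stronglyMeasurable.integral_prod_right
  refine Integrable.of_bound hsm.aestronglyMeasurable C (Eventually.of_forall fun w => ?_)
  have := norm_integral_le_of_norm_le_const (μ := μ) (f := fun z => F w.1 w.2 z) (C := C)
    (Eventually.of_forall fun z => h.bd w.1 w.2 z)
  simpa using this

theorem swap12 (h : B3 F C) : J3 F = J3 (fun y x z => F x y z) := by
  have h' : B3 (fun y x z => F x y z) C := by
    refine ⟨?_, fun x y z => h.bd _ _ _⟩
    exact h.meas.comp ((measurable_fst.comp measurable_snd).prodMk (measurable_fst.prodMk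
      (measurable_snd.comp measurable_snd)))
  rw [h.eq_iter, h'.eq_iter]
  exact integral_integral_swap (f := fun x y => ∫ z, F x y z ∂μ) h.inner_int

theorem le_of_outer (h : B3 F C) {ε : ℝ} (hε : ∀ x, |∫ w, F x w.1 w.2 ∂P2| ≤ ε) :
    |J3 F| ≤ ε := by
  rw [h.eq_outer]
  have := norm_integral_le_of_norm_le_const (μ := μ) (f := fun x => ∫ w, F x w.1 w.2 ∂P2) (C := ε)
    (Eventually.of_forall fun x => hε x)
  simpa using this

theorem add (h : B3 F C) (h' : B3 G C') : J3 (fun x y z => F x y z + G x y z) = J3 F + J3 G :=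
  integral_add h.int h'.int

theorem sub (h : B3 F C) (h' : B3 G C') : J3 (fun x y z => F x y z - G x y z) = J3 F - J3 G :=
  integral_sub h.int h'.int

end B3

/-- triangle density -/
noncomputable def T (W : ℝ → ℝ → ℝ) : ℝ := ∫ x, ∫ y, ∫ z, W x y * W y z * W x z ∂μ ∂μ ∂μ

/-- cherry density -/
noncomputable def Ch (W : ℝ → ℝ → ℝ) : ℝ := ∫ x, ∫ y, ∫ z, W x y * W x z ∂μ ∂μ ∂μ

/-- bounded measurable kernels -/
structure B2 (W : ℝ → ℝ → ℝ) : Prop where
  meas : Measurable (fun q : ℝ × ℝ => W q.1 q.2)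
  bd : ∀ x y, |W x y| ≤ 1

theorem Gr.b2 {W : ℝ → ℝ → ℝ} (h : Gr W) : B2 W := ⟨h.meas, h.abs_le⟩

theorem Gr.sub_b2 {W W' : ℝ → ℝ → ℝ} (h : Gr W) (h' : Gr W') : B2 (fun x y => W x y - W' x y) := by
  refine ⟨h.meas.sub h'.meas, fun x y => ?_⟩
  have h1 := h.2.2 x y
  have h2 := h'.2.2 x y
  rw [_root_.abs_le]; constructor <;> linarith [h1.1, h1.2, h2.1, h2.2]

theorem b3_tri {A B D : ℝ → ℝ → ℝ} (hA : B2 A) (hB : B2 B) (hD : B2 D) :
    B3 (fun x y z => A x y * B y z * D x z) 1 := by
  refine ⟨?_, fun x y z => ?_⟩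
  · have h1 : Measurable (fun q : ℝ × ℝ × ℝ => A q.1 q.2.1) :=
      hA.meas.comp (measurable_fst.prodMk (measurable_fst.comp measurable_snd))
    have h2 : Measurable (fun q : ℝ × ℝ × ℝ => B q.2.1 q.2.2) := hB.meas.comp measurable_snd
    have h3 : Measurable (fun q : ℝ × ℝ × ℝ => D q.1 q.2.2) :=
      hD.meas.comp (measurable_fst.prodMk (measurable_snd.comp measurable_snd))
    exact (h1.mul h2).mul h3
  · rw [abs_mul, abs_mul]
    have h1 := hA.bd x y
    have h2 := hB.bd y z
    have h3 := hD.bd x z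
    have h4 : |A x y| * |B y z| ≤ 1 := mul_le_one₀ h1 (abs_nonneg _) h2
    exact mul_le_one₀ h4 (abs_nonneg _) h3

theorem b3_che {A D : ℝ → ℝ → ℝ} (hA : B2 A) (hD : B2 D) :
    B3 (fun x y z => A x y * D x z) 1 := by
  refine ⟨?_, fun x y z => ?_⟩
  · have h1 : Measurable (fun q : ℝ × ℝ × ℝ => A q.1 q.2.1) :=
      hA.meas.comp (measurable_fst.prodMk (measurable_fst.comp measurable_snd))
    have h3 : Measurable (fun q : ℝ × ℝ × ℝ => D q.1 q.2.2) :=
      hD.meas.comp (measurable_fst.prodMk (measurable_snd.comp measurable_snd))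
    exact h1.mul h3
  · rw [abs_mul]
    exact mul_le_one₀ (hA.bd x y) (abs_nonneg _) (hD.bd x z)

theorem T_eq {W : ℝ → ℝ → ℝ} (h : B2 W) : T W = J3 (fun x y z => W x y * W y z * W x z) :=
  (b3_tri h h h).eq_iter.symm

theorem Ch_eq {W : ℝ → ℝ → ℝ} (h : B2 W) : Ch W = J3 (fun x y z => W x y * W x z) :=
  (b3_che h h).eq_iter.symm

/-- unit interval valued measurable functions -/
structure U1 (f : ℝ → ℝ) : Prop where
  meas : Measurable f
  nn : ∀ x, 0 ≤ f x
  le : ∀ x, f x ≤ 1

theorem U1.abs {f : ℝ → ℝ} (h : U1 f) (x : ℝ) : |f x| ≤ 1 := by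
  rw [abs_of_nonneg (h.nn x)]; exact h.le x

/-- cut norm bound -/
def Cut (D : ℝ → ℝ → ℝ) (ε : ℝ) : Prop :=
  ∀ f g : ℝ → ℝ, U1 f → U1 g → |∫ z, D z.1 z.2 * (f z.1 * g z.2) ∂P2| ≤ ε

theorem Gr.u1 {W : ℝ → ℝ → ℝ} (h : Gr W) (x : ℝ) : U1 (W x) :=
  ⟨h.1.comp (measurable_const.prodMk measurable_id), fun y => (h.2.2 x y).1, fun y => (h.2.2 x y).2⟩

theorem counting {W W' : ℝ → ℝ → ℝ} (h : Gr W) (h' : Gr W') {ε : ℝ}
    (hc : Cut (fun x y => W x y - W' x y) ε) : |T W - T W'| ≤ 3 * ε := by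
  set D : ℝ → ℝ → ℝ := fun x y => W x y - W' x y with hD
  have hDb : B2 D := h.sub_b2 h'
  have k1 := b3_tri hDb h.b2 h.b2
  have k2 := b3_tri h'.b2 hDb h.b2
  have k3 := b3_tri h'.b2 h'.b2 hDb
  have kW := b3_tri h.b2 h.b2 h.b2
  have kW' := b3_tri h'.b2 h'.b2 h'.b2
  have e : J3 (fun x y z => W x y * W y z * W x z) - J3 (fun x y z => W' x y * W' y z * W' x z) =
      J3 (fun x y z => D x y * W y z * W x z) + J3 (fun x y z => W' x y * D y z * W x z) +
      J3 (fun x y z => W' x y * W' y z * D x z) := by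
    rw [← kW.sub kW', ← k1.add k2]
    have k12 : B3 (fun x y z => D x y * W y z * W x z + W' x y * D y z * W x z) 2 := by
      refine ⟨k1.meas.add k2.meas, fun x y z => ?_⟩
      refine (abs_add_le _ _).trans ?_
      have := k1.bd x y z
      have := k2.bd x y z
      linarith
    rw [← k12.add k3]
    congr 1
    funext x y z
    simp only [hD]; ring
  rw [T_eq h.b2, T_eq h'.b2, e]
  have b1 : |J3 (fun x y z => D x y * W y z * W x z)| ≤ ε := by
    rw [k1.swap23]
    have k1' : B3 (fun x z y => D x y * W y z * W x z) 1 := by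
      refine ⟨?_, fun x y z => k1.bd _ _ _⟩
      exact k1.meas.comp (measurable_fst.prodMk ((measurable_snd.comp measurable_snd).prodMk
        (measurable_fst.comp measurable_snd)))
    rw [k1'.swap12]
    have k1'' : B3 (fun z x y => D x y * W y z * W x z) 1 := by
      refine ⟨?_, fun x y z => k1'.bd _ _ _⟩
      exact k1'.meas.comp ((measurable_fst.comp measurable_snd).prodMk (measurable_fst.prodMk
        (measurable_snd.comp measurable_snd)))
    refine k1''.le_of_outer fun z => ?_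
    have := hc (W z) (W z) (h.u1 z) (h.u1 z)
    convert this using 3
    funext w
    rw [h.2.1 w.2 z, h.2.1 w.1 z]; ring
  have b2 : |J3 (fun x y z => W' x y * D y z * W x z)| ≤ ε := by
    refine k2.le_of_outer fun x => ?_
    have := hc (W' x) (W x) (h'.u1 x) (h.u1 x)
    convert this using 3
    funext w
    ring
  have b3 : |J3 (fun x y z => W' x y * W' y z * D x z)| ≤ ε := by
    rw [k3.swap12]
    have k3' : B3 (fun y x z => W' x y * W' y z * D x z) 1 := by
      refine ⟨?_, fun x y z => k3.bd _ _ _⟩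
      exact k3.meas.comp ((measurable_fst.comp measurable_snd).prodMk (measurable_fst.prodMk
        (measurable_snd.comp measurable_snd)))
    refine k3'.le_of_outer fun y => ?_
    have := hc (W' y) (W' y) (h'.u1 y) (h'.u1 y)
    convert this using 3
    funext w
    rw [h'.2.1 w.1 y]; ring
  calc |J3 (fun x y z => D x y * W y z * W x z) + J3 (fun x y z => W' x y * D y z * W x z) +
      J3 (fun x y z => W' x y * W' y z * D x z)| ≤ ε + ε + ε :=
        (abs_add_le _ _).trans (add_le_add ((abs_add_le _ _).trans (add_le_add b1 b2)) b3)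
    _ = 3 * ε := by ring

theorem counting_ch {W W' : ℝ → ℝ → ℝ} (h : Gr W) (h' : Gr W') {ε : ℝ}
    (hc : Cut (fun x y => W x y - W' x y) ε) : |Ch W - Ch W'| ≤ 2 * ε := by
  set D : ℝ → ℝ → ℝ := fun x y => W x y - W' x y with hD
  have hDb : B2 D := h.sub_b2 h'
  have k1 := b3_che hDb h.b2
  have k2 := b3_che h'.b2 hDb
  have kW := b3_che h.b2 h.b2
  have kW' := b3_che h'.b2 h'.b2
  have one : U1 (fun _ => (1:ℝ)) := ⟨measurable_const, fun _ => zero_le_one, fun _ => le_refl _⟩
  have e : J3 (fun x y z => W x y * W x z) - J3 (fun x y z => W' x y * W' x z) =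
      J3 (fun x y z => D x y * W x z) + J3 (fun x y z => W' x y * D x z) := by
    rw [← kW.sub kW', ← k1.add k2]
    congr 1
    funext x y z
    simp only [hD]; ring
  rw [Ch_eq h.b2, Ch_eq h'.b2, e]
  have b1 : |J3 (fun x y z => D x y * W x z)| ≤ ε := by
    rw [k1.swap23]
    have k1' : B3 (fun x z y => D x y * W x z) 1 := by
      refine ⟨?_, fun x y z => k1.bd _ _ _⟩
      exact k1.meas.comp (measurable_fst.prodMk ((measurable_snd.comp measurable_snd).prodMk
        (measurable_fst.comp measurable_snd)))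
    rw [k1'.swap12]
    have k1'' : B3 (fun z x y => D x y * W x z) 1 := by
      refine ⟨?_, fun x y z => k1'.bd _ _ _⟩
      exact k1'.meas.comp ((measurable_fst.comp measurable_snd).prodMk (measurable_fst.prodMk
        (measurable_snd.comp measurable_snd)))
    refine k1''.le_of_outer fun z => ?_
    have := hc (W z) (fun _ => 1) (h.u1 z) one
    convert this using 3
    funext w
    rw [h.2.1 w.1 z]; ring
  have b2 : |J3 (fun x y z => W' x y * D x z)| ≤ ε := by
    rw [k2.swap12]
    have k3' : B3 (fun y x z => W' x y * D x z) 1 := by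
      refine ⟨?_, fun x y z => k2.bd _ _ _⟩
      exact k2.meas.comp ((measurable_fst.comp measurable_snd).prodMk (measurable_fst.prodMk
        (measurable_snd.comp measurable_snd)))
    refine k3'.le_of_outer fun y => ?_
    have := hc (W' y) (fun _ => 1) (h'.u1 y) one
    convert this using 3
    funext w
    rw [h'.2.1 w.1 y]; ring
  calc |J3 (fun x y z => D x y * W x z) + J3 (fun x y z => W' x y * D x z)| ≤ ε + ε :=
        (abs_add_le _ _).trans (add_le_add b1 b2)
    _ = 2 * ε := by ring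

end Pool.Agent.H767R3.Gr
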