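import Pool.Agent.H767R3.GrUp

/-! Final assembly for the non-uniqueness of upper tail optimizers. -/

set_option autoImplicit false
set_option linter.dupNamespace false
set_option linter.unusedVariables false

namespace Pool.Agent.H767R3.Gr

open MeasureTheory Filter Topology Set

theorem cl_up {p r δ : ℝ} (hp0 : 0 < p) (hp4 : p ≤ 1 / 12) (hpδ : p ≤ δ / 12)
    (hr1 : 1 ≤ r) (hr2 : r ≤ 2) : ∃ W, Gr W ∧ (1 + r ^ 3) * p ^ 3 ≤ T W ∧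
      Eg (hp p) W ≤ (r ^ 2 + δ) * p ^ 2 * Real.log (1 / p) := by
  have hL : 0 ≤ Real.log (1 / p) := Real.log_nonneg (by
    rw [le_div_iff₀ hp0]; linarith)
  have hp1 : p < 1 := by linarith
  obtain ⟨a, ha⟩ : ∃ a, a = r * p * (1 + p) := ⟨_, rfl⟩
  have h0 : 0 ≤ a := by rw [ha]; positivity
  have h1 : a ≤ 1 := by
    rw [ha]
    have : r * p ≤ 1 / 6 := by nlinarith
    nlinarith
  refine ⟨cl p a, cl_gr hp0.le hp1.le, ?_, ?_⟩
  · refine le_trans ?_ (cl_T hp0 hp1 h0 h1)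
    have e1 : a ^ 3 = r ^ 3 * p ^ 3 * (1 + p) ^ 3 := by rw [ha]; ring
    have e2 : 1 ≤ (1 - p ^ 3) * (1 + p) ^ 3 := by
      have q1 : 1 + 3 * p ≤ (1 + p) ^ 3 := by nlinarith [pow_pos hp0 3, pow_pos hp0 2]
      have q2 : p ^ 3 ≤ p / 144 := by
        have : p ^ 2 ≤ (1 / 12) ^ 2 := pow_le_pow_left₀ hp0.le hp4 2
        nlinarith
      have q3 : 0 ≤ 1 - p ^ 3 := by linarith
      nlinarith [mul_le_mul_of_nonneg_left q1 q3]
    rw [e1]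
    have e3 : 0 ≤ r ^ 3 * p ^ 3 := by positivity
    nlinarith [mul_le_mul_of_nonneg_left e2 e3]
  · rw [cl_E hp0 hp1 h0 h1]
    refine mul_le_mul_of_nonneg_right ?_ hL
    have e1 : a ^ 2 = (r ^ 2 * (1 + p) ^ 2) * p ^ 2 := by rw [ha]; ring
    rw [e1]
    refine mul_le_mul_of_nonneg_right ?_ (sq_nonneg p)
    have e2 : (1 + p) ^ 2 ≤ 1 + 3 * p := by nlinarith
    have e3 : r ^ 2 ≤ 4 := by nlinarith
    have e4 := mul_le_mul_of_nonneg_left e2 (sq_nonneg r)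
    nlinarith

theorem hu_up {p r δ : ℝ} (hp0 : 0 < p) (hp4 : p ≤ 1 / 12) (hpδ : p ≤ δ / 12) (hδ : 0 ≤ δ)
    (hr1 : 1 ≤ r) (hr2 : r ≤ 2) : ∃ W, Gr W ∧ (1 + r ^ 3) * p ^ 3 ≤ T W ∧
      Eg (hp p) W ≤ (2 * r ^ 3 / 3 + δ) * p ^ 2 * Real.log (1 / p) := by
  have hL : 0 ≤ Real.log (1 / p) := Real.log_nonneg (by
    rw [le_div_iff₀ hp0]; linarith)
  have hp1 : p < 1 := by linarith
  have hr3 : r ^ 3 ≤ 8 := by
    have := pow_le_pow_left₀ (by linarith) hr2 3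
    norm_num at this; exact this
  have hr31 : 1 ≤ r ^ 3 := one_le_pow₀ hr1
  obtain ⟨a, ha⟩ : ∃ a, a = (r ^ 3 / 3 + p) * p ^ 2 := ⟨_, rfl⟩
  have h0 : 0 ≤ a := by rw [ha]; positivity
  have ha3 : a ≤ 3 * p ^ 2 := by
    rw [ha]
    exact mul_le_mul_of_nonneg_right (by linarith) (sq_nonneg p)
  have hp2 : p ^ 2 ≤ p / 12 := by nlinarith
  have h1 : a ≤ 1 := by linarith
  refine ⟨hu p a, hu_gr hp0.le hp1.le, ?_, ?_⟩
  · refine le_trans ?_ (hu_T hp0 hp1 h0 h1)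
    have e1 : (p - p ^ 3) * (3 * a - 3 * a ^ 2) = p ^ 3 * ((1 - p ^ 2) * (1 - a) * (r ^ 3 + 3 * p)) := by
      have : 3 * a - 3 * a ^ 2 = (1 - a) * (3 * a) := by ring
      rw [this]
      nth_rewrite 2 [ha]
      ring
    have e2 : r ^ 3 ≤ (1 - p ^ 2) * (1 - a) * (r ^ 3 + 3 * p) := by
      have q1 : 1 - 4 * p ^ 2 ≤ (1 - p ^ 2) * (1 - a) := by
        have : 0 ≤ p ^ 2 * a := by positivity
        nlinarith
      have q2 : (1 - 4 * p ^ 2) * (r ^ 3 + 3 * p) ≤ (1 - p ^ 2) * (1 - a) * (r ^ 3 + 3 * p) :=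
        mul_le_mul_of_nonneg_right q1 (by positivity)
      have q3 : r ^ 3 ≤ (1 - 4 * p ^ 2) * (r ^ 3 + 3 * p) := by
        have : 4 * p ^ 2 * (r ^ 3 + 3 * p) ≤ 4 * p ^ 2 * 9 :=
          mul_le_mul_of_nonneg_left (by linarith) (by positivity)
        nlinarith
      linarith
    rw [e1]
    have := mul_le_mul_of_nonneg_left e2 (show 0 ≤ p ^ 3 by positivity)
    linarith
  · rw [hu_E hp0 hp1 h0 h1]
    refine mul_le_mul_of_nonneg_right ?_ hL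
    have e1 : 2 * a = (2 * r ^ 3 / 3 + 2 * p) * p ^ 2 := by rw [ha]; ring
    have e2 : (2 * r ^ 3 / 3 + 2 * p) * p ^ 2 ≤ (2 * r ^ 3 / 3 + δ) * p ^ 2 :=
      mul_le_mul_of_nonneg_right (by linarith) (sq_nonneg p)
    nlinarith [sq_nonneg a]

theorem const_cost {p s : ℝ} (hp0 : 0 < p) (hp1 : p < 1) (hs : 5 / 4 * p ≤ s) (hs1 : s ≤ 1) :
    p / 64 ≤ hp p s := by
  have h := hp_young hp0 hp1 (show 0 ≤ s by linarith) hs1 (l := 1 / 8) (by norm_num) (by norm_num)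
  rw [abs_of_nonneg (by linarith)] at h
  linarith

/-- integral over the cube `[0,1]^3` -/
theorem pi_int {F : ℝ → ℝ → ℝ → ℝ} {C : ℝ} (hF : B3 F C) :
    ∫ x in Set.univ.pi (fun _ : Fin 3 => Set.Icc (0:ℝ) 1), F (x 0) (x 1) (x 2) = J3 F := by
  have e0 : (volume : Measure (Fin 3 → ℝ)).restrict (Set.univ.pi (fun _ : Fin 3 => Set.Icc (0:ℝ) 1)) =
      Measure.pi (fun _ : Fin 3 => μ) := by
    rw [volume_pi, Measure.restrict_pi_pi]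
    rfl
  rw [e0]
  have m1 := measurePreserving_piFinSuccAbove (fun _ : Fin 3 => μ) 0
  have m2 := measurePreserving_finTwoArrow μ
  have m3 := (MeasurePreserving.id μ).prod m2
  have m4 := m3.comp m1
  have hm : Measurable (fun q : ℝ × ℝ × ℝ => F q.1 q.2.1 q.2.2) := hF.meas
  unfold J3
  have m5 : P3 = Measure.map (Prod.map id ⇑MeasurableEquiv.finTwoArrow ∘
      ⇑(MeasurableEquiv.piFinSuccAbove (fun _ : Fin 3 => ℝ) 0)) (Measure.pi fun _ : Fin 3 => μ) :=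
    m4.map_eq.symm
  rw [m5, integral_map m4.measurable.aemeasurable hm.aestronglyMeasurable]
  rfl

theorem pi_cherry {W : ℝ → ℝ → ℝ} (hW : Gr W) :
    ∫ x in Set.univ.pi (fun _ : Fin 3 => Set.Icc (0:ℝ) 1),
      ∏ e ∈ ({((0 : Fin 3), (1 : Fin 3)), (0, 2)} : Finset (Fin 3 × Fin 3)), W (x e.1) (x e.2) = Ch W := by
  have h : ∀ x : Fin 3 → ℝ, ∏ e ∈ ({((0 : Fin 3), (1 : Fin 3)), (0, 2)} : Finset (Fin 3 × Fin 3)),
      W (x e.1) (x e.2) = W (x 0) (x 1) * W (x 0) (x 2) := by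
    intro x
    rw [Finset.prod_pair (by decide)]
  simp_rw [h]
  rw [pi_int (b3_che hW.b2 hW.b2), ← Ch_eq hW.b2]

/-- the main statement: for some `p` uniqueness fails for some `t` in the broken phase -/
theorem main : ∃ p : ℝ, 0 < p ∧ p < 1 ∧ ∃ r : ℝ, 1 ≤ r ∧ r ≤ 2 ∧ (1 + r ^ 3) * p ^ 3 < 1 ∧
    (∃ U, Gr U ∧ (1 + r ^ 3) * p ^ 3 ≤ T U ∧
      Eg (hp p) U < hp p (((1 + r ^ 3) * p ^ 3) ^ ((1:ℝ) / 3))) ∧
    ∃ W₁ W₂, IsMin (hp p) ((1 + r ^ 3) * p ^ 3) W₁ ∧ IsMin (hp p) ((1 + r ^ 3) * p ^ 3) W₂ ∧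
      Ch W₁ ≠ Ch W₂ := by
  have hev : ∀ᶠ p in 𝓝[>] (0:ℝ), 0 < p ∧ p ≤ 1 / 120000 ∧ p * Real.log (1 / p) < 1 / 400 ∧
      ∀ (κ ρ : ℝ) (W : ℝ → ℝ → ℝ), κ ≤ 5 → Gr W → Eg (hp p) W ≤ κ * p ^ 2 * Real.log (1 / p) →
      (1 + ρ) * p ^ 3 ≤ T W → ∃ x y : ℝ, 0 ≤ x ∧ 0 ≤ y ∧ y ^ 2 + 2 * x ≤ κ + 1 / 10000 ∧
      ρ - 1 / 10000 ≤ 3 * x + y ^ 3 ∧ |Ch W - (1 + x) * p ^ 2| ≤ 1 / 10000 * p ^ 2 := by
    filter_upwards [self_mem_nhdsWithin, ev_lt (show (0:ℝ) < 1 / 120000 by norm_num),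
      ev_pL (show (0:ℝ) < 1 / 400 by norm_num),
      main_est (show (0:ℝ) < 1 / 10000 by norm_num) (by norm_num)] with p h1 h2 h3 h4
    exact ⟨h1, h2.le, h3, h4⟩
  obtain ⟨p, hp0, hps, hpL, hest⟩ := hev.exists
  have hp1 : p < 1 := by linarith
  have hp2 : 0 < p ^ 2 := by positivity
  have hp3 : 0 < p ^ 3 := by positivity
  have hp3s : p ^ 3 ≤ 1 / 100 := by
    have : p ^ 3 ≤ (1 / 120000) ^ 3 := pow_le_pow_left₀ hp0.le hps 3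
    norm_num at this ⊢; linarith
  have hgc := hp_cont hp0 hp1
  have hconv := hp_convex hp0 hp1
  -- analysis of minimizers
  have hmin : ∀ r : ℝ, 1 ≤ r → r ≤ 2 → ∀ W, IsMin (hp p) ((1 + r ^ 3) * p ^ 3) W →
      ∃ x : ℝ, |Ch W - (1 + x) * p ^ 2| ≤ 1 / 10000 * p ^ 2 ∧
        ((3 / 10 ≤ x ∧ r < 2) ∨ (x ≤ 1 / 8 ∧ 1 < r)) := by
    intro r hr1 hr2 W hW
    obtain ⟨V1, v1, v2, v3⟩ := cl_up (δ := 1 / 10000) hp0 (by linarith) (by linarith) hr1 hr2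
    obtain ⟨V2, w1, w2, w3⟩ := hu_up (δ := 1 / 10000) hp0 (by linarith) (by linarith) (by norm_num)
      hr1 hr2
    have q1 := (hW.2.2 V1 v1 v2).trans v3
    have q2 := (hW.2.2 V2 w1 w2).trans w3
    have hκ1 : r ^ 2 + 1 / 10000 ≤ 5 := by nlinarith
    set κ := min (r ^ 2 + 1 / 10000) (2 * r ^ 3 / 3 + 1 / 10000) with hκ
    have hκ5 : κ ≤ 5 := (min_le_left _ _).trans hκ1
    have hE : Eg (hp p) W ≤ κ * p ^ 2 * Real.log (1 / p) := by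
      rcases min_choice (r ^ 2 + 1 / 10000) (2 * r ^ 3 / 3 + 1 / 10000) with h | h
      · rw [hκ, h]; exact q1
      · rw [hκ, h]; exact q2
    obtain ⟨x, y, hx, hy, h1, h2, h3⟩ := hest κ (r ^ 3) W hκ5 hW.1 hE hW.2.1
    have k1 : κ ≤ r ^ 2 + 1 / 10000 := min_le_left _ _
    have k2 : κ ≤ 2 * r ^ 3 / 3 + 1 / 10000 := min_le_right _ _
    refine ⟨x, h3, ?_⟩
    rcases dichotomy hr1 hr2 hx hy (by linarith) (by linarith) (by linarith) with h | h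
    · exact Or.inl ⟨h.2.1, h.2.2⟩
    · exact Or.inr ⟨h.2.1, h.2.2⟩
  have hlt1 : ∀ r : ℝ, 1 ≤ r → r ≤ 2 → (1 + r ^ 3) * p ^ 3 < 1 := by
    intro r hr1 hr2
    have hr3 : r ^ 3 ≤ 8 := by
      have := pow_le_pow_left₀ (by linarith) hr2 3
      norm_num at this; exact this
    nlinarith
  by_contra hcon
  push Not at hcon
  -- uniqueness
  have huniq : ∀ r ∈ Icc (1:ℝ) 2, ∀ W₁ W₂, IsMin (hp p) ((1 + r ^ 3) * p ^ 3) W₁ →
      IsMin (hp p) ((1 + r ^ 3) * p ^ 3) W₂ → Ch W₁ = Ch W₂ := by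
    intro r hr W₁ W₂ h1 h2
    refine hcon p hp0 hp1 r hr.1 hr.2 (hlt1 r hr.1 hr.2) ?_ W₁ W₂ h1 h2
    obtain ⟨V1, v1, v2, v3⟩ := cl_up (δ := 1 / 10000) hp0 (by linarith) (by linarith) hr.1 hr.2
    refine ⟨V1, v1, v2, lt_of_le_of_lt v3 ?_⟩
    have hr3 : 1 ≤ r ^ 3 := one_le_pow₀ hr.1
    have ht0 : 0 < (1 + r ^ 3) * p ^ 3 := by positivity
    have hcube : ((((1 + r ^ 3) * p ^ 3) ^ ((1:ℝ) / 3)) ^ 3 : ℝ) = (1 + r ^ 3) * p ^ 3 := by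
      rw [← Real.rpow_natCast, ← Real.rpow_mul ht0.le]
      norm_num
    have hs0 : 0 ≤ ((1 + r ^ 3) * p ^ 3) ^ ((1:ℝ) / 3) := Real.rpow_nonneg ht0.le _
    have hs1 : ((1 + r ^ 3) * p ^ 3) ^ ((1:ℝ) / 3) ≤ 1 :=
      Real.rpow_le_one ht0.le (hlt1 r hr.1 hr.2).le (by norm_num)
    have hs2 : 5 / 4 * p ≤ ((1 + r ^ 3) * p ^ 3) ^ ((1:ℝ) / 3) := by
      refine le_of_pow_le_pow_left₀ (n := 3) (by norm_num) hs0 ?_
      rw [hcube]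
      have : (5 / 4 * p) ^ 3 = 125 / 64 * p ^ 3 := by ring
      rw [this]
      nlinarith
    have hcost := const_cost hp0 hp1 hs2 hs1
    refine lt_of_lt_of_le ?_ hcost
    have hr22 : r ^ 2 ≤ 4 := by nlinarith [hr.1, hr.2]
    have hL0 : 0 ≤ p * (p * Real.log (1 / p)) := by
      have : 0 ≤ Real.log (1 / p) := Real.log_nonneg (by
        rw [le_div_iff₀ hp0]; linarith)
      positivity
    have e1 : (r ^ 2 + 1 / 10000) * p ^ 2 * Real.log (1 / p) =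
        (r ^ 2 + 1 / 10000) * (p * (p * Real.log (1 / p))) := by ring
    have e2 : (r ^ 2 + 1 / 10000) * (p * (p * Real.log (1 / p))) ≤ 5 * (p * (p * Real.log (1 / p))) :=
      mul_le_mul_of_nonneg_right (by linarith) hL0
    have e3 : p * (p * Real.log (1 / p)) < p * (1 / 400) := mul_lt_mul_of_pos_left hpL hp0
    rw [e1]
    nlinarith
  -- crossing
  have htc : Continuous (fun r : ℝ => (1 + r ^ 3) * p ^ 3) := by fun_prop
  have hA : ∀ W, IsMin (hp p) ((1 + (1:ℝ) ^ 3) * p ^ 3) W → 6 / 5 * p ^ 2 ≤ Ch W := by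
    intro W hW
    obtain ⟨x, h1, h2⟩ := hmin 1 le_rfl (by norm_num) W hW
    rcases h2 with h2 | h2
    · have := (_root_.abs_le.mp h1).1
      nlinarith [h2.1]
    · exact absurd h2.2 (lt_irrefl _)
  have hB : ∀ W, IsMin (hp p) ((1 + (2:ℝ) ^ 3) * p ^ 3) W → Ch W ≤ 6 / 5 * p ^ 2 := by
    intro W hW
    obtain ⟨x, h1, h2⟩ := hmin 2 (by norm_num) le_rfl W hW
    rcases h2 with h2 | h2
    · exact absurd h2.2 (lt_irrefl _)
    · have := (_root_.abs_le.mp h1).2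
      nlinarith [h2.1]
  obtain ⟨r, hr, W, hW, hv⟩ := exists_crossing (hp p) hgc hconv htc (by norm_num : (1:ℝ) ≤ 2)
    (fun r hr => hlt1 r hr.1 hr.2) huniq hA hB
  obtain ⟨x, h1, h2⟩ := hmin r hr.1 hr.2 W hW
  rw [hv] at h1
  obtain ⟨h3, h4⟩ := _root_.abs_le.mp h1
  rcases h2 with h2 | h2
  · nlinarith [h2.1]
  · nlinarith [h2.1]

end Pool.Agent.H767R3.Gr
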