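import Pool.Agent.H767R3.GrBase

/-! Nested interval partitions with prescribed masses. -/

set_option autoImplicit false
set_option linter.dupNamespace false
set_option linter.unusedVariables false

namespace Pool.Agent.H767R3.Gr

open MeasureTheory Filter Topology Set

/-- consistent masses -/
structure Mass (a : ℕ → ℕ → ℝ) : Prop where
  nn : ∀ k i, 0 ≤ a k i
  one : ∀ k, ∑ i ∈ Finset.range (4 ^ k), a k i = 1
  add : ∀ k i, a k i = ∑ r ∈ Finset.range 4, a (k + 1) (4 * i + r)

theorem sum_four (F : ℕ → ℝ) (M : ℕ) : ∑ m ∈ Finset.range (4 * M), F m =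
    ∑ i ∈ Finset.range M, ∑ r ∈ Finset.range 4, F (4 * i + r) := by
  induction M with
  | zero => simp
  | succ M ih =>
    rw [show 4 * (M + 1) = 4 * M + 4 by ring, Finset.sum_range_add, ih,
      Finset.sum_range_succ (fun i => ∑ r ∈ Finset.range 4, F (4 * i + r)) M]

/-- left end points -/
noncomputable def lp (a : ℕ → ℕ → ℝ) (k m : ℕ) : ℝ := ∑ j ∈ Finset.range m, a k j

open Classical in
/-- index of the interval containing `x` -/
noncomputable def ix (a : ℕ → ℕ → ℝ) (k : ℕ) (x : ℝ) : ℕ :=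
  if x ∈ Ico (0:ℝ) 1 then ∑ m ∈ Finset.Ico 1 (4 ^ k), (if lp a k m ≤ x then 1 else 0) else 0

section
variable {a : ℕ → ℕ → ℝ} (ha : Mass a)

include ha

theorem lp_mono (k : ℕ) : Monotone (lp a k) := by
  intro m n h
  unfold lp
  exact Finset.sum_le_sum_of_subset_of_nonneg (Finset.range_mono h) fun i _ _ => ha.nn k i

theorem lp_four (k m : ℕ) : lp a (k + 1) (4 * m) = lp a k m := by
  unfold lp
  rw [sum_four]
  exact Finset.sum_congr rfl fun i _ => (ha.add k i).symm

theorem ix_of_mem {k i : ℕ} (hi : i < 4 ^ k) {x : ℝ} (h1 : lp a k i ≤ x) (h2 : x < lp a k (i + 1)) :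
    ix a k x = i := by
  have h0 : x ∈ Ico (0:ℝ) 1 := by
    constructor
    · refine le_trans ?_ h1
      exact Finset.sum_nonneg fun j _ => ha.nn k j
    · refine lt_of_lt_of_le h2 ?_
      rw [← ha.one k]
      exact lp_mono ha k (by omega)
  unfold ix
  rw [if_pos h0]
  have h3 : ∀ m ∈ Finset.Ico 1 (4 ^ k), (if lp a k m ≤ x then 1 else 0) = if m ≤ i then 1 else 0 := by
    intro m _
    by_cases hm : m ≤ i
    · rw [if_pos hm, if_pos ((lp_mono ha k hm).trans h1)]
    · rw [if_neg hm, if_neg]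
      push Not at hm ⊢
      exact h2.trans_le (lp_mono ha k hm)
  rw [Finset.sum_congr rfl h3, ← Finset.card_filter]
  have h4 : (Finset.Ico 1 (4 ^ k)).filter (fun m => m ≤ i) = Finset.Ico 1 (i + 1) := by
    ext m
    simp only [Finset.mem_filter, Finset.mem_Ico]
    omega
  rw [h4, Nat.card_Ico]; omega

theorem exists_cell (k : ℕ) {x : ℝ} (hx : x ∈ Ico (0:ℝ) 1) :
    ∃ i < 4 ^ k, lp a k i ≤ x ∧ x < lp a k (i + 1) := by
  by_contra hcon
  push Not at hcon
  have : ∀ i, i ≤ 4 ^ k → lp a k i ≤ x := by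
    intro i
    induction i with
    | zero => intro _; simpa [lp] using hx.1
    | succ i ih =>
      intro h
      exact hcon i (by omega) (ih (by omega))
  have h1 := this (4 ^ k) le_rfl
  have h2 : lp a k (4 ^ k) = 1 := ha.one k
  rw [h2] at h1
  exact absurd hx.2 (not_lt.mpr h1)

theorem ix_div (k : ℕ) (x : ℝ) : ix a (k + 1) x / 4 = ix a k x := by
  by_cases hx : x ∈ Ico (0:ℝ) 1
  · obtain ⟨m, hm, h1, h2⟩ := exists_cell ha (k + 1) hx
    rw [ix_of_mem ha hm h1 h2]
    symm
    have hm4 : m / 4 < 4 ^ k := by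
      rw [pow_succ] at hm; omega
    apply ix_of_mem ha hm4
    · rw [← lp_four ha]
      exact (lp_mono ha (k + 1) (by omega)).trans h1
    · rw [← lp_four ha]
      exact h2.trans_le (lp_mono ha (k + 1) (by omega))
  · unfold ix
    rw [if_neg hx, if_neg hx]

omit ha in
theorem ix_meas (k : ℕ) : Measurable (ix a k) := by
  classical
  unfold ix
  refine Measurable.ite measurableSet_Ico ?_ measurable_const
  refine Finset.measurable_fun_sum _ fun m _ => ?_
  exact Measurable.ite (measurableSet_le measurable_const measurable_id) measurable_const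
    measurable_const

omit ha in
theorem ix_lt (k : ℕ) (x : ℝ) : ix a k x < 4 ^ k := by
  classical
  unfold ix
  have hp : 0 < 4 ^ k := by positivity
  split_ifs
  · have : ∑ m ∈ Finset.Ico 1 (4 ^ k), (if lp a k m ≤ x then 1 else 0) ≤
        ∑ m ∈ Finset.Ico 1 (4 ^ k), 1 := by
      apply Finset.sum_le_sum
      intro m _
      split_ifs <;> omega
    rw [Finset.sum_const, Nat.card_Ico, smul_eq_mul, mul_one] at this
    omega
  · exact hp

omit ha in
/-- the interval partition -/
noncomputable def ip (a : ℕ → ℕ → ℝ) (k : ℕ) : Part := ⟨4 ^ k, ix a k, ix_meas k, ix_lt k⟩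

theorem ip_a {k i : ℕ} (hi : i < 4 ^ k) : (ip a k).a i = a k i := by
  unfold Part.a
  have h1 : μ.real ((ip a k).f ⁻¹' {i}) = μ.real (Ico (lp a k i) (lp a k (i + 1))) := by
    apply measureReal_congr
    have hae : ∀ᵐ x ∂μ, x ∈ Ico (0:ℝ) 1 := by
      unfold μ
      have h0 : (Icc (0:ℝ) 1) =ᵐ[volume] Ico (0:ℝ) 1 := Ico_ae_eq_Icc.symm
      rw [Measure.restrict_congr_set h0]
      exact ae_restrict_mem measurableSet_Ico
    filter_upwards [hae] with x hx
    apply propext
    show (ix a k x = i) ↔ x ∈ Ico (lp a k i) (lp a k (i + 1))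
    constructor
    · intro h
      obtain ⟨j, hj, h1, h2⟩ := exists_cell ha k hx
      have := ix_of_mem ha hj h1 h2
      rw [this] at h
      subst h
      exact ⟨h1, h2⟩
    · intro h
      exact ix_of_mem ha hi h.1 h.2
  rw [h1]
  have h2 : Ico (lp a k i) (lp a k (i + 1)) ⊆ Icc 0 1 := by
    intro x hx
    constructor
    · exact (Finset.sum_nonneg fun j _ => ha.nn k j).trans hx.1
    · refine hx.2.le.trans ?_
      rw [← ha.one k]
      exact lp_mono ha k (by omega)
  have h3 : lp a k (i + 1) - lp a k i = a k i := by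
    unfold lp
    rw [Finset.sum_range_succ]; ring
  unfold μ
  rw [measureReal_restrict_apply measurableSet_Ico, Set.inter_eq_left.mpr h2, measureReal_def,
    Real.volume_Ico, h3, ENNReal.toReal_ofReal (ha.nn k i)]

theorem ix_div' (k m : ℕ) (x : ℝ) : ix a (k + m) x / 4 ^ m = ix a k x := by
  induction m with
  | zero => simp
  | succ m ih =>
    rw [← ih, ← ix_div ha (k + m) x, Nat.div_div_eq_div_mul]
    rw [← add_assoc, pow_succ, mul_comm]

end

end Pool.Agent.H767R3.Gr
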