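import Pool.Agent.H767R3.GrCut

/-! Weak regularity by a greedy sequence of refinements. -/

set_option autoImplicit false
set_option linter.dupNamespace false
set_option linter.unusedVariables false

namespace Pool.Agent.H767R3.Gr

open MeasureTheory Filter Topology Set

/-- indicator of a set as a `0/1` valued function -/
noncomputable def ind (S : Set ℝ) (x : ℝ) : ℝ := S.indicator (fun _ => 1) x

theorem ind_u1 {S : Set ℝ} (hS : MeasurableSet S) : U1 (ind S) := by
  refine ⟨measurable_const.indicator hS, fun x => ?_, fun x => ?_⟩ <;>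
  · unfold ind
    by_cases h : x ∈ S <;> simp [h]

theorem b2_mul_int {D : ℝ → ℝ → ℝ} (hD : B2 D) {f g : ℝ → ℝ} (hf : U1 f) (hg : U1 g) :
    Integrable (fun z : ℝ × ℝ => D z.1 z.2 * (f z.1 * g z.2)) P2 := by
  have hm : Measurable (fun z : ℝ × ℝ => D z.1 z.2 * (f z.1 * g z.2)) :=
    hD.meas.mul ((hf.meas.comp measurable_fst).mul (hg.meas.comp measurable_snd))
  refine int_bd hm (C := 1) fun z => ?_
  rw [abs_mul, abs_mul]
  exact mul_le_one₀ (hD.bd _ _) (by positivity)
    (mul_le_one₀ (hf.abs _) (abs_nonneg _) (hg.abs _))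

theorem replace_set {D : ℝ → ℝ → ℝ} (hD : B2 D) {f g : ℝ → ℝ} (hf : U1 f) (hg : U1 g) :
    ∃ S : Set ℝ, MeasurableSet S ∧ |∫ z, D z.1 z.2 * (f z.1 * g z.2) ∂P2| ≤
      |∫ z, D z.1 z.2 * (ind S z.1 * g z.2) ∂P2| := by
  set h : ℝ → ℝ := fun x => ∫ y, D x y * g y ∂μ with hh
  have hm2 : Measurable (fun z : ℝ × ℝ => D z.1 z.2 * g z.2) :=
    hD.meas.mul (hg.meas.comp measurable_snd)
  have hmeas : Measurable h := (hm2.stronglyMeasurable.integral_prod_right').measurable
  have hbd : ∀ x, |h x| ≤ 1 := by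
    intro x
    have := norm_integral_le_of_norm_le_const (μ := μ) (f := fun y => D x y * g y) (C := 1)
      (Eventually.of_forall fun y => by
        rw [Real.norm_eq_abs, abs_mul]
        exact mul_le_one₀ (hD.bd _ _) (abs_nonneg _) (hg.abs _))
    simpa using this
  have key : ∀ F : ℝ → ℝ, U1 F → ∫ z, D z.1 z.2 * (F z.1 * g z.2) ∂P2 = ∫ x, F x * h x ∂μ := by
    intro F hF
    rw [integral_prod _ (b2_mul_int hD hF hg)]
    congr 1
    funext x
    rw [hh]
    simp only
    rw [← integral_const_mul]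
    congr 1
    funext y
    ring
  have hSp : MeasurableSet {x | 0 < h x} := measurableSet_lt measurable_const hmeas
  have hSn : MeasurableSet {x | h x < 0} := measurableSet_lt hmeas measurable_const
  have hint : ∀ F : ℝ → ℝ, U1 F → Integrable (fun x => F x * h x) μ := by
    intro F hF
    have hm : Measurable (fun x => F x * h x) := hF.meas.mul hmeas
    refine int_bd hm (C := 1) fun x => ?_
    rw [abs_mul]
    exact mul_le_one₀ (hF.abs _) (abs_nonneg _) (hbd _)
  have up : ∫ x, f x * h x ∂μ ≤ ∫ x, ind {x | 0 < h x} x * h x ∂μ := by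
    apply integral_mono (hint f hf) (hint _ (ind_u1 hSp))
    intro x
    simp only [ind]
    by_cases hx : 0 < h x
    · rw [Set.indicator_of_mem (show x ∈ {x | 0 < h x} from hx)]
      have := hf.le x
      nlinarith
    · rw [Set.indicator_of_notMem (show x ∉ {x | 0 < h x} from hx)]
      have := hf.nn x
      push Not at hx
      nlinarith
  have lo : ∫ x, ind {x | h x < 0} x * h x ∂μ ≤ ∫ x, f x * h x ∂μ := by
    apply integral_mono (hint _ (ind_u1 hSn)) (hint f hf)
    intro x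
    simp only [ind]
    by_cases hx : h x < 0
    · rw [Set.indicator_of_mem (show x ∈ {x | h x < 0} from hx)]
      have := hf.le x
      nlinarith
    · rw [Set.indicator_of_notMem (show x ∉ {x | h x < 0} from hx)]
      have := hf.nn x
      push Not at hx
      nlinarith
  rw [key f hf]
  rcases le_or_gt 0 (∫ x, f x * h x ∂μ) with h0 | h0
  · refine ⟨_, hSp, ?_⟩
    rw [key _ (ind_u1 hSp), abs_of_nonneg h0, abs_of_nonneg (h0.trans up)]
    exact up
  · refine ⟨_, hSn, ?_⟩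
    rw [key _ (ind_u1 hSn), abs_of_neg h0, abs_of_neg (lo.trans_lt h0)]
    linarith

theorem replace_both {D : ℝ → ℝ → ℝ} (hD : B2 D) {f g : ℝ → ℝ} (hf : U1 f) (hg : U1 g) :
    ∃ S R : Set ℝ, MeasurableSet S ∧ MeasurableSet R ∧ |∫ z, D z.1 z.2 * (f z.1 * g z.2) ∂P2| ≤
      |∫ z, D z.1 z.2 * (ind S z.1 * ind R z.2) ∂P2| := by
  obtain ⟨S, hS, h1⟩ := replace_set hD hf hg
  have hD' : B2 (fun x y => D y x) :=
    ⟨hD.meas.comp (measurable_snd.prodMk measurable_fst), fun x y => hD.bd y x⟩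
  obtain ⟨R, hR, h2⟩ := replace_set hD' hg (ind_u1 hS)
  refine ⟨S, R, hS, hR, h1.trans ?_⟩
  have e : ∀ F G : ℝ → ℝ, ∫ z, D z.1 z.2 * (F z.1 * G z.2) ∂P2 =
      ∫ z, D z.2 z.1 * (G z.1 * F z.2) ∂P2 := by
    intro F G
    rw [← integral_prod_swap]
    congr 1
    funext z
    simp only [Prod.fst_swap, Prod.snd_swap]
    ring
  rw [e, e (ind S) (ind R)]
  exact h2

theorem near_max {D : ℝ → ℝ → ℝ} (hD : B2 D) :
    ∃ S R : Set ℝ, MeasurableSet S ∧ MeasurableSet R ∧
      Cut D (2 * |∫ z, D z.1 z.2 * (ind S z.1 * ind R z.2) ∂P2|) := by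
  set V : Set ℝ := {v | ∃ S R : Set ℝ, MeasurableSet S ∧ MeasurableSet R ∧
    v = |∫ z, D z.1 z.2 * (ind S z.1 * ind R z.2) ∂P2|} with hV
  have hne : V.Nonempty := ⟨_, ∅, ∅, MeasurableSet.empty, MeasurableSet.empty, rfl⟩
  have hbd : BddAbove V := by
    refine ⟨1, ?_⟩
    rintro v ⟨S, R, hS, hR, rfl⟩
    have := norm_integral_le_of_norm_le_const (μ := P2)
      (f := fun z => D z.1 z.2 * (ind S z.1 * ind R z.2)) (C := 1)
      (Eventually.of_forall fun z => by
        rw [Real.norm_eq_abs, abs_mul, abs_mul]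
        exact mul_le_one₀ (hD.bd _ _) (by positivity)
          (mul_le_one₀ ((ind_u1 hS).abs _) (abs_nonneg _) ((ind_u1 hR).abs _)))
    simpa using this
  have hall : ∀ f g : ℝ → ℝ, U1 f → U1 g → |∫ z, D z.1 z.2 * (f z.1 * g z.2) ∂P2| ≤ sSup V := by
    intro f g hf hg
    obtain ⟨S, R, hS, hR, h⟩ := replace_both hD hf hg
    exact h.trans (le_csSup hbd ⟨S, R, hS, hR, rfl⟩)
  rcases le_or_gt (sSup V) 0 with h0 | h0
  · refine ⟨∅, ∅, MeasurableSet.empty, MeasurableSet.empty, ?_⟩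
    intro f g hf hg
    exact ((hall f g hf hg).trans h0).trans (by positivity)
  · obtain ⟨v, ⟨S, R, hS, hR, rfl⟩, hv⟩ := exists_lt_of_lt_csSup hne (half_lt_self h0)
    refine ⟨S, R, hS, hR, ?_⟩
    intro f g hf hg
    refine (hall f g hf hg).trans ?_
    linarith

open Classical in
/-- refinement of a partition by two sets -/
noncomputable def Part.ref (P : Part) (S R : Set ℝ) (hS : MeasurableSet S) (hR : MeasurableSet R) :
    Part where
  N := 4 * P.N
  f x := 4 * P.f x + (2 * (if x ∈ S then 1 else 0) + (if x ∈ R then 1 else 0))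
  meas := by
    have h1 : Measurable (fun x => if x ∈ S then 1 else 0 : ℝ → ℕ) :=
      Measurable.ite hS measurable_const measurable_const
    have h2 : Measurable (fun x => if x ∈ R then 1 else 0 : ℝ → ℕ) :=
      Measurable.ite hR measurable_const measurable_const
    exact (measurable_const.mul P.meas).add ((measurable_const.mul h1).add h2)
  lt x := by
    have := P.lt x
    split_ifs <;> omega

theorem Part.ref_div (P : Part) (S R : Set ℝ) (hS : MeasurableSet S) (hR : MeasurableSet R) (x : ℝ) :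
    (P.ref S R hS hR).f x / 4 = P.f x := by
  simp only [Part.ref]
  split_ifs <;> omega

open Classical in
theorem Part.ref_S (P : Part) (S R : Set ℝ) (hS : MeasurableSet S) (hR : MeasurableSet R) (x : ℝ) :
    ind S x = (((P.ref S R hS hR).f x % 4 / 2 : ℕ) : ℝ) := by
  have e : (P.ref S R hS hR).f x % 4 / 2 = if x ∈ S then 1 else 0 := by
    simp only [Part.ref]
    split_ifs <;> omega
  rw [e]
  unfold ind
  by_cases h : x ∈ S <;> simp [h]

open Classical in
theorem Part.ref_R (P : Part) (S R : Set ℝ) (hS : MeasurableSet S) (hR : MeasurableSet R) (x : ℝ) :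
    ind R x = (((P.ref S R hS hR).f x % 2 : ℕ) : ℝ) := by
  have e : (P.ref S R hS hR).f x % 2 = if x ∈ R then 1 else 0 := by
    simp only [Part.ref]
    split_ifs <;> omega
  rw [e]
  unfold ind
  by_cases h : x ∈ R <;> simp [h]

theorem sq_int_le {α : Type*} [MeasurableSpace α] {ν : Measure α} [IsProbabilityMeasure ν]
    {F : α → ℝ} (hF : Measurable F) {C : ℝ} (hC : ∀ x, |F x| ≤ C) :
    (∫ x, F x ∂ν) ^ 2 ≤ ∫ x, F x ^ 2 ∂ν := by
  set m := ∫ x, F x ∂ν with hm
  have h1 : Integrable F ν := int_bd hF hC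
  have h2 : Integrable (fun x => F x ^ 2) ν := by
    refine int_bd (hF.pow_const 2) (C := C ^ 2) fun x => ?_
    rw [abs_pow]
    exact pow_le_pow_left₀ (abs_nonneg _) (hC x) 2
  have h3 : 0 ≤ ∫ x, (F x - m) ^ 2 ∂ν := integral_nonneg fun x => sq_nonneg _
  have h4 : ∫ x, (F x - m) ^ 2 ∂ν = ∫ x, F x ^ 2 ∂ν - m ^ 2 := by
    have e : (fun x => (F x - m) ^ 2) = fun x => F x ^ 2 - (2 * m * F x - m ^ 2) := by
      funext x; ring
    have i3 : Integrable (fun x => 2 * m * F x - m ^ 2) ν :=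
      (h1.const_mul (2 * m)).sub (integrable_const _)
    have i4 : ∫ x, (2 * m * F x - m ^ 2) ∂ν = 2 * m * m - m ^ 2 := by
      rw [integral_sub (h1.const_mul (2 * m)) (integrable_const _), integral_const_mul, ← hm]
      simp
    rw [e, integral_sub h2 i3, i4]
    ring
  linarith

/-! ### the greedy sequence -/

section greedy
variable {W : ℝ → ℝ → ℝ} (hW : Gr W)

/-- near optimal pair of sets for the current partition -/
noncomputable def selS (P : Part) : Set ℝ := (near_max (hW.sub_b2 (P.av_gr hW))).choose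

noncomputable def selR (P : Part) : Set ℝ := (near_max (hW.sub_b2 (P.av_gr hW))).choose_spec.choose

theorem selS_meas (P : Part) : MeasurableSet (selS hW P) :=
  (near_max (hW.sub_b2 (P.av_gr hW))).choose_spec.choose_spec.1

theorem selR_meas (P : Part) : MeasurableSet (selR hW P) :=
  (near_max (hW.sub_b2 (P.av_gr hW))).choose_spec.choose_spec.2.1

/-- value of the near optimal pair -/
noncomputable def sg (P : Part) : ℝ :=
  |∫ z, (W z.1 z.2 - P.av W z.1 z.2) * (ind (selS hW P) z.1 * ind (selR hW P) z.2) ∂P2|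

theorem sel_cut (P : Part) : Cut (fun x y => W x y - P.av W x y) (2 * sg hW P) :=
  (near_max (hW.sub_b2 (P.av_gr hW))).choose_spec.choose_spec.2.2

/-- the greedy sequence of partitions -/
noncomputable def gs : ℕ → Part
  | 0 => ⟨1, fun _ => 0, measurable_const, fun _ => Nat.one_pos⟩
  | k + 1 => (gs k).ref (selS hW (gs k)) (selR hW (gs k)) (selS_meas hW _) (selR_meas hW _)

theorem gs_N (k : ℕ) : (gs hW k).N = 4 ^ k := by
  induction k with
  | zero => rfl
  | succ k ih =>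
    show 4 * (gs hW k).N = _
    rw [ih, pow_succ]; ring

theorem gs_div (k : ℕ) (x : ℝ) : (gs hW (k + 1)).f x / 4 = (gs hW k).f x :=
  Part.ref_div _ _ _ _ _ x

theorem gs_div' (k m : ℕ) (x : ℝ) : (gs hW (k + m)).f x / 4 ^ m = (gs hW k).f x := by
  induction m with
  | zero => simp
  | succ m ih =>
    rw [← ih, ← gs_div hW (k + m) x, Nat.div_div_eq_div_mul]
    rw [← add_assoc, pow_succ, mul_comm]

/-- orthogonality to coarser step functions -/
theorem gs_orth {k j : ℕ} (h : k ≤ j) (v : ℕ → ℕ → ℝ) :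
    ∫ z, (W z.1 z.2 - (gs hW j).av W z.1 z.2) * v ((gs hW k).f z.1) ((gs hW k).f z.2) ∂P2 = 0 := by
  obtain ⟨m, rfl⟩ := Nat.exists_eq_add_of_le h
  have := (gs hW (k + m)).orth hW (fun i j => v (i / 4 ^ m) (j / 4 ^ m))
  simp only [gs_div'] at this
  exact this

include hW in
theorem av_sub_bd (P Q : Part) (z : ℝ × ℝ) : |Q.av W z.1 z.2 - P.av W z.1 z.2| ≤ 1 :=
  ((Q.av_gr hW).sub_b2 (P.av_gr hW)).bd z.1 z.2

/-- energy -/
noncomputable def en (k : ℕ) : ℝ := ∫ z, (gs hW k).av W z.1 z.2 ^ 2 ∂P2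

theorem en_le_one (k : ℕ) : en hW k ≤ 1 := by
  unfold en
  have hg := (gs hW k).av_gr hW
  have := norm_integral_le_of_norm_le_const (μ := P2)
    (f := fun z => (gs hW k).av W z.1 z.2 ^ 2) (C := 1)
    (Eventually.of_forall fun z => by
      rw [Real.norm_eq_abs, abs_pow]
      exact pow_le_one₀ (abs_nonneg _) (hg.abs_le _ _))
  have h2 := le_trans (le_abs_self _) (by simpa using this)
  exact h2

theorem en_diff {k j : ℕ} (h : k ≤ j) :
    ∫ z, ((gs hW j).av W z.1 z.2 - (gs hW k).av W z.1 z.2) ^ 2 ∂P2 = en hW j - en hW k := by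
  have hj := (gs hW j).av_gr hW
  have hk := (gs hW k).av_gr hW
  have o1 := gs_orth hW h ((gs hW k).u W)
  have o2 := gs_orth hW (le_refl k) ((gs hW k).u W)
  have i1 : Integrable (fun z : ℝ × ℝ => (W z.1 z.2 - (gs hW j).av W z.1 z.2) *
      (gs hW k).av W z.1 z.2) P2 := by
    have hm : Measurable (fun z : ℝ × ℝ => (W z.1 z.2 - (gs hW j).av W z.1 z.2) *
      (gs hW k).av W z.1 z.2) := (hW.meas.sub hj.meas).mul hk.meas
    refine int_bd hm (C := 1) fun z => ?_
    rw [abs_mul]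
    exact mul_le_one₀ ((hW.sub_b2 hj).bd _ _) (abs_nonneg _) (hk.abs_le _ _)
  have i2 : Integrable (fun z : ℝ × ℝ => (W z.1 z.2 - (gs hW k).av W z.1 z.2) *
      (gs hW k).av W z.1 z.2) P2 := by
    have hm : Measurable (fun z : ℝ × ℝ => (W z.1 z.2 - (gs hW k).av W z.1 z.2) *
      (gs hW k).av W z.1 z.2) := (hW.meas.sub hk.meas).mul hk.meas
    refine int_bd hm (C := 1) fun z => ?_
    rw [abs_mul]
    exact mul_le_one₀ ((hW.sub_b2 hk).bd _ _) (abs_nonneg _) (hk.abs_le _ _)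
  have i3 : Integrable (fun z : ℝ × ℝ => (gs hW j).av W z.1 z.2 ^ 2) P2 := by
    refine int_bd (hj.meas.pow_const 2) (C := 1) fun z => ?_
    rw [abs_pow]; exact pow_le_one₀ (abs_nonneg _) (hj.abs_le _ _)
  have i4 : Integrable (fun z : ℝ × ℝ => (gs hW k).av W z.1 z.2 ^ 2) P2 := by
    refine int_bd (hk.meas.pow_const 2) (C := 1) fun z => ?_
    rw [abs_pow]; exact pow_le_one₀ (abs_nonneg _) (hk.abs_le _ _)
  have e : (fun z : ℝ × ℝ => ((gs hW j).av W z.1 z.2 - (gs hW k).av W z.1 z.2) ^ 2) =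
      fun z => ((gs hW j).av W z.1 z.2 ^ 2 - (gs hW k).av W z.1 z.2 ^ 2) +
        2 * ((W z.1 z.2 - (gs hW j).av W z.1 z.2) * (gs hW k).av W z.1 z.2 -
          (W z.1 z.2 - (gs hW k).av W z.1 z.2) * (gs hW k).av W z.1 z.2) := by
    funext z; ring
  have i5 : ∫ z : ℝ × ℝ, ((W z.1 z.2 - (gs hW j).av W z.1 z.2) * (gs hW k).av W z.1 z.2 -
          (W z.1 z.2 - (gs hW k).av W z.1 z.2) * (gs hW k).av W z.1 z.2) ∂P2 = 0 := by
    rw [integral_sub i1 i2]
    have o1' : ∫ z : ℝ × ℝ, (W z.1 z.2 - (gs hW j).av W z.1 z.2) * (gs hW k).av W z.1 z.2 ∂P2 = 0 := o1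
    have o2' : ∫ z : ℝ × ℝ, (W z.1 z.2 - (gs hW k).av W z.1 z.2) * (gs hW k).av W z.1 z.2 ∂P2 = 0 := o2
    rw [o1', o2', sub_zero]
  have i34 : Integrable (fun z : ℝ × ℝ => (gs hW j).av W z.1 z.2 ^ 2 -
      (gs hW k).av W z.1 z.2 ^ 2) P2 := i3.sub i4
  have i12 : Integrable (fun z : ℝ × ℝ => 2 * ((W z.1 z.2 - (gs hW j).av W z.1 z.2) *
      (gs hW k).av W z.1 z.2 - (W z.1 z.2 - (gs hW k).av W z.1 z.2) * (gs hW k).av W z.1 z.2)) P2 :=
    (i1.sub i2).const_mul 2
  rw [e, integral_add i34 i12, integral_const_mul, i5, integral_sub i3 i4]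
  unfold en
  ring

theorem sg_sq (k : ℕ) : sg hW (gs hW k) ^ 2 ≤ en hW (k + 1) - en hW k := by
  have hj := (gs hW (k + 1)).av_gr hW
  have hk := (gs hW k).av_gr hW
  set S := selS hW (gs hW k) with hSdef
  set R := selR hW (gs hW k) with hRdef
  have hS : MeasurableSet S := selS_meas hW _
  have hR : MeasurableSet R := selR_meas hW _
  have o := gs_orth hW (le_refl (k + 1)) (fun i j => ((i % 4 / 2 : ℕ) : ℝ) * ((j % 2 : ℕ) : ℝ))
  have eS : ∀ x, (((gs hW (k + 1)).f x % 4 / 2 : ℕ) : ℝ) = ind S x := fun x =>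
    (Part.ref_S _ _ _ _ _ x).symm
  have eR : ∀ x, (((gs hW (k + 1)).f x % 2 : ℕ) : ℝ) = ind R x := fun x =>
    (Part.ref_R _ _ _ _ _ x).symm
  simp only [eS, eR] at o
  have hfS := ind_u1 hS
  have hfR := ind_u1 hR
  have i1 := b2_mul_int (hW.sub_b2 hk) hfS hfR
  have i2 := b2_mul_int (hW.sub_b2 hj) hfS hfR
  have e1 : ∫ z, (W z.1 z.2 - (gs hW k).av W z.1 z.2) * (ind S z.1 * ind R z.2) ∂P2 =
      ∫ z, ((gs hW (k + 1)).av W z.1 z.2 - (gs hW k).av W z.1 z.2) *
        (ind S z.1 * ind R z.2) ∂P2 := by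
    have e0 : (fun z : ℝ × ℝ => ((gs hW (k + 1)).av W z.1 z.2 - (gs hW k).av W z.1 z.2) *
        (ind S z.1 * ind R z.2)) = fun z =>
        (W z.1 z.2 - (gs hW k).av W z.1 z.2) * (ind S z.1 * ind R z.2) -
        (W z.1 z.2 - (gs hW (k + 1)).av W z.1 z.2) * (ind S z.1 * ind R z.2) := by
      funext z; ring
    rw [e0, integral_sub i1 i2, o, sub_zero]
  unfold sg
  rw [sq_abs, e1, ← en_diff hW (Nat.le_succ k)]
  have hm : Measurable (fun z : ℝ × ℝ => ((gs hW (k + 1)).av W z.1 z.2 -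
      (gs hW k).av W z.1 z.2) * (ind S z.1 * ind R z.2)) :=
    (hj.meas.sub hk.meas).mul ((hfS.meas.comp measurable_fst).mul (hfR.meas.comp measurable_snd))
  have hb : ∀ z : ℝ × ℝ, |((gs hW (k + 1)).av W z.1 z.2 -
      (gs hW k).av W z.1 z.2) * (ind S z.1 * ind R z.2)| ≤ 1 := by
    intro z
    rw [abs_mul, abs_mul]
    exact mul_le_one₀ (av_sub_bd hW _ _ z) (by positivity)
      (mul_le_one₀ (hfS.abs _) (abs_nonneg _) (hfR.abs _))
  refine (sq_int_le hm hb).trans ?_
  apply integral_mono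
  · refine int_bd (hm.pow_const 2) (C := 1) fun z => ?_
    rw [abs_pow]; exact pow_le_one₀ (abs_nonneg _) (hb z)
  · refine int_bd ((hj.meas.sub hk.meas).pow_const 2) (C := 1) fun z => ?_
    rw [abs_pow]; exact pow_le_one₀ (abs_nonneg _) (av_sub_bd hW _ _ z)
  · intro z
    simp only
    rw [mul_pow]
    have h1 : (ind S z.1 * ind R z.2) ^ 2 ≤ 1 := by
      apply pow_le_one₀ (mul_nonneg (hfS.nn _) (hfR.nn _))
      exact mul_le_one₀ (hfS.le _) (hfR.nn _) (hfR.le _)
    exact mul_le_of_le_one_right (sq_nonneg _) h1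

theorem sum_sg (K : ℕ) : ∑ k ∈ Finset.range K, sg hW (gs hW k) ^ 2 ≤ 1 := by
  have h : ∑ k ∈ Finset.range K, sg hW (gs hW k) ^ 2 ≤ en hW K - en hW 0 := by
    induction K with
    | zero => simp
    | succ K ih =>
      rw [Finset.sum_range_succ]
      have := sg_sq hW K
      linarith
  have h0 : 0 ≤ en hW 0 := integral_nonneg fun z => sq_nonneg _
  have := en_le_one hW K
  linarith

/-- averaging a function over the cells -/
noncomputable def avg1 (P : Part) (f : ℝ → ℝ) (i : ℕ) : ℝ :=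
  (∫ x, f x * (if P.f x = i then 1 else 0) ∂μ) / P.a i

theorem int_cell (P : Part) {f : ℝ → ℝ} (hf : U1 f) (i : ℕ) :
    0 ≤ ∫ x, f x * (if P.f x = i then 1 else 0) ∂μ ∧
    ∫ x, f x * (if P.f x = i then 1 else 0) ∂μ ≤ P.a i := by
  constructor
  · apply integral_nonneg
    intro x
    simp only [Pi.zero_apply]
    have := hf.nn x
    split_ifs <;> simp [this]
  · have h2 : ∫ x, (if P.f x = i then (1:ℝ) else 0) ∂μ = P.a i := by
      have := P.int_F (fun k => if k = i then 1 else 0)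
      rw [this]
      by_cases hi : i < P.N
      · rw [Finset.sum_eq_single i]
        · simp
        · intro j _ hj; simp [hj]
        · intro h; exact absurd (Finset.mem_range.mpr hi) h
      · rw [Finset.sum_eq_zero]
        · unfold Part.a
          have : P.f ⁻¹' {i} = ∅ := by
            ext x
            simp only [Set.mem_preimage, Set.mem_singleton_iff, Set.mem_empty_iff_false, iff_false]
            intro h
            exact hi (h ▸ P.lt x)
          rw [this]; simp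
        · intro j hj
          have : j ≠ i := fun h => hi (h ▸ Finset.mem_range.mp hj)
          simp [this]
    rw [← h2]
    have hm : Measurable (fun x => f x * (if P.f x = i then (1:ℝ) else 0)) :=
      hf.meas.mul (P.ind_meas i)
    apply integral_mono
    · refine int_bd hm (C := 1) fun x => ?_
      rw [abs_mul]
      have := hf.abs x
      split_ifs <;> simp [this]
    · refine int_bd (P.ind_meas i) (C := 1) fun x => ?_
      split_ifs <;> simp
    · intro x
      simp only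
      have := hf.le x
      split_ifs <;> simp [this]

theorem avg1_mem (P : Part) {f : ℝ → ℝ} (hf : U1 f) (i : ℕ) :
    0 ≤ avg1 P f i ∧ avg1 P f i ≤ 1 := by
  have h := int_cell P hf i
  unfold avg1
  exact ⟨div_nonneg h.1 (P.a_nonneg i), div_le_one_of_le₀ h.2 (P.a_nonneg i)⟩

theorem a_mul_avg1 (P : Part) {f : ℝ → ℝ} (hf : U1 f) (i : ℕ) :
    P.a i * avg1 P f i = ∫ x, f x * (if P.f x = i then 1 else 0) ∂μ := by
  unfold avg1
  by_cases h : P.a i = 0
  · have := int_cell P hf i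
    rw [h] at this
    rw [h, zero_mul]
    linarith [this.1, this.2]
  · rw [mul_comm]; exact div_mul_cancel₀ _ h

theorem avg1_u1 (P : Part) {f : ℝ → ℝ} (hf : U1 f) : U1 (fun x => avg1 P f (P.f x)) :=
  ⟨P.meas_F _, fun x => (avg1_mem P hf _).1, fun x => (avg1_mem P hf _).2⟩

theorem step_avg (P : Part) (v : ℕ → ℕ → ℝ) {f g : ℝ → ℝ} (hf : U1 f) (hg : U1 g) :
    ∫ z, v (P.f z.1) (P.f z.2) * (f z.1 * g z.2) ∂P2 =
      ∫ z, v (P.f z.1) (P.f z.2) * (avg1 P f (P.f z.1) * avg1 P g (P.f z.2)) ∂P2 := by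
  have key : ∀ F G : ℝ → ℝ, U1 F → U1 G → ∫ z, v (P.f z.1) (P.f z.2) * (F z.1 * G z.2) ∂P2 =
      ∑ i ∈ Finset.range P.N, ∑ j ∈ Finset.range P.N,
        (∫ x, F x * (if P.f x = i then 1 else 0) ∂μ) *
        (∫ x, G x * (if P.f x = j then 1 else 0) ∂μ) * v i j := by
    intro F G hF hG
    have hm : Measurable (fun z : ℝ × ℝ => v (P.f z.1) (P.f z.2) * (F z.1 * G z.2)) :=
      (P.meas_v v).mul ((hF.meas.comp measurable_fst).mul (hG.meas.comp measurable_snd))
    have hb : ∀ z : ℝ × ℝ, |v (P.f z.1) (P.f z.2) * (F z.1 * G z.2)| ≤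
        (∑ i ∈ Finset.range P.N, ∑ j ∈ Finset.range P.N, |v i j|) * 1 := by
      intro z
      rw [abs_mul, abs_mul]
      exact mul_le_mul (P.bd_v v _ _) (mul_le_one₀ (hF.abs _) (abs_nonneg _) (hG.abs _))
        (by positivity) (Finset.sum_nonneg fun i _ => Finset.sum_nonneg fun j _ => abs_nonneg _)
    rw [integral_prod _ (int_bd hm hb)]
    have h1 : ∀ x, ∫ y, v (P.f x) (P.f y) * (F x * G y) ∂μ =
        F x * (∑ j ∈ Finset.range P.N, (∫ y, G y * (if P.f y = j then 1 else 0) ∂μ) * v (P.f x) j) := by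
      intro x
      rw [← P.int_Fg (v (P.f x)) hG.meas hG.abs, ← integral_const_mul]
      congr 1
      funext y
      ring
    simp_rw [h1]
    rw [P.int_Fg (fun i => ∑ j ∈ Finset.range P.N,
      (∫ y, G y * (if P.f y = j then 1 else 0) ∂μ) * v i j) hF.meas hF.abs]
    refine Finset.sum_congr rfl fun i _ => ?_
    rw [Finset.mul_sum]
    refine Finset.sum_congr rfl fun j _ => ?_
    ring
  rw [key f g hf hg, key _ _ (avg1_u1 P hf) (avg1_u1 P hg)]
  have h3 : ∀ (F : ℝ → ℝ), U1 F → ∀ i, ∫ x, avg1 P F (P.f x) * (if P.f x = i then 1 else 0) ∂μ =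
      ∫ x, F x * (if P.f x = i then 1 else 0) ∂μ := by
    intro F hF i
    rw [← a_mul_avg1 P hF i]
    have := P.int_F (fun k => avg1 P F k * (if k = i then 1 else 0))
    rw [this]
    by_cases hi : i < P.N
    · rw [Finset.sum_eq_single i]
      · simp
      · intro j _ hj; simp [hj]
      · intro h; exact absurd (Finset.mem_range.mpr hi) h
    · rw [Finset.sum_eq_zero]
      · unfold Part.a
        have : P.f ⁻¹' {i} = ∅ := by
          ext x
          simp only [Set.mem_preimage, Set.mem_singleton_iff, Set.mem_empty_iff_false, iff_false]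
          intro h
          exact hi (h ▸ P.lt x)
        rw [this]; simp
      · intro j hj
        have : j ≠ i := fun h => hi (h ▸ Finset.mem_range.mp hj)
        simp [this]
  simp_rw [h3 f hf, h3 g hg]

theorem cut_later {i j : ℕ} (h : i ≤ j) :
    Cut (fun x y => W x y - (gs hW j).av W x y) (4 * sg hW (gs hW i)) := by
  intro f g hf hg
  have hj := (gs hW j).av_gr hW
  have hi := (gs hW i).av_gr hW
  obtain ⟨m, rfl⟩ := Nat.exists_eq_add_of_le h
  set Q := gs hW (i + m) with hQ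
  have c1 := sel_cut hW (gs hW i) f g hf hg
  have c2 := sel_cut hW (gs hW i) _ _ (avg1_u1 Q hf) (avg1_u1 Q hg)
  -- difference of the two averages as a step function of Q
  have hv : ∀ z : ℝ × ℝ, Q.av W z.1 z.2 - (gs hW i).av W z.1 z.2 =
      (fun a b => Q.u W a b - (gs hW i).u W (a / 4 ^ m) (b / 4 ^ m)) (Q.f z.1) (Q.f z.2) := by
    intro z
    simp only [Part.av, Part.st, hQ, gs_div']
  have e1 : ∫ z, (Q.av W z.1 z.2 - (gs hW i).av W z.1 z.2) * (f z.1 * g z.2) ∂P2 =
      ∫ z, (Q.av W z.1 z.2 - (gs hW i).av W z.1 z.2) *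
        (avg1 Q f (Q.f z.1) * avg1 Q g (Q.f z.2)) ∂P2 := by
    simp_rw [hv]
    exact step_avg Q (fun a b => Q.u W a b - (gs hW i).u W (a / 4 ^ m) (b / 4 ^ m)) hf hg
  have o := gs_orth hW (le_refl (i + m)) (fun a b => avg1 Q f a * avg1 Q g b)
  have i1 := b2_mul_int (hW.sub_b2 hi) hf hg
  have i2 := b2_mul_int (hj.sub_b2 hi) hf hg
  have i3 := b2_mul_int (hW.sub_b2 hi) (avg1_u1 Q hf) (avg1_u1 Q hg)
  have i4 := b2_mul_int (hW.sub_b2 hj) (avg1_u1 Q hf) (avg1_u1 Q hg)
  have e2 : ∫ z, (Q.av W z.1 z.2 - (gs hW i).av W z.1 z.2) *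
        (avg1 Q f (Q.f z.1) * avg1 Q g (Q.f z.2)) ∂P2 =
      ∫ z, (W z.1 z.2 - (gs hW i).av W z.1 z.2) *
        (avg1 Q f (Q.f z.1) * avg1 Q g (Q.f z.2)) ∂P2 := by
    have e0 : (fun z : ℝ × ℝ => (Q.av W z.1 z.2 - (gs hW i).av W z.1 z.2) *
        (avg1 Q f (Q.f z.1) * avg1 Q g (Q.f z.2))) = fun z =>
        (W z.1 z.2 - (gs hW i).av W z.1 z.2) * (avg1 Q f (Q.f z.1) * avg1 Q g (Q.f z.2)) -
        (W z.1 z.2 - Q.av W z.1 z.2) * (avg1 Q f (Q.f z.1) * avg1 Q g (Q.f z.2)) := by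
      funext z; ring
    rw [e0, integral_sub i3 i4, o, sub_zero]
  have e3 : ∫ z, (W z.1 z.2 - Q.av W z.1 z.2) * (f z.1 * g z.2) ∂P2 =
      ∫ z, (W z.1 z.2 - (gs hW i).av W z.1 z.2) * (f z.1 * g z.2) ∂P2 -
      ∫ z, (W z.1 z.2 - (gs hW i).av W z.1 z.2) *
        (avg1 Q f (Q.f z.1) * avg1 Q g (Q.f z.2)) ∂P2 := by
    rw [← e2, ← e1, ← integral_sub i1 i2]
    congr 1
    funext z
    ring
  rw [e3]
  refine (abs_sub _ _).trans ?_
  linarith

theorem sg_nonneg (P : Part) : 0 ≤ sg hW P := abs_nonneg _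

/-- uniform weak regularity -/
theorem regularity (k : ℕ) (hk : 0 < k) :
    Cut (fun x y => W x y - (gs hW k).av W x y) (4 / Real.sqrt k) := by
  have hk' : (0:ℝ) < k := by exact_mod_cast hk
  have hex : ∃ i ∈ Finset.range k, sg hW (gs hW i) ^ 2 ≤ 1 / k := by
    by_contra hcon
    push Not at hcon
    have h1 : ∑ i ∈ Finset.range k, (1 / (k:ℝ)) < ∑ i ∈ Finset.range k, sg hW (gs hW i) ^ 2 :=
      Finset.sum_lt_sum_of_nonempty ⟨0, Finset.mem_range.mpr hk⟩ hcon
    rw [Finset.sum_const, Finset.card_range, nsmul_eq_mul, mul_one_div_cancel hk'.ne'] at h1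
    have := sum_sg hW k
    linarith
  obtain ⟨i, hi, hs⟩ := hex
  have hik : i ≤ k := (Finset.mem_range.mp hi).le
  have hs' : sg hW (gs hW i) ≤ 1 / Real.sqrt k := by
    rw [← Real.sqrt_sq (sg_nonneg hW (gs hW i)), ← Real.sqrt_one, ← Real.sqrt_div (by norm_num)]
    exact Real.sqrt_le_sqrt hs
  intro f g hf hg
  refine (cut_later hW hik f g hf hg).trans ?_
  have : 4 / Real.sqrt k = 4 * (1 / Real.sqrt k) := by ring
  rw [this]
  linarith

end greedy

end Pool.Agent.H767R3.Gr
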