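import Pool.Agent.H767R3.GrInt
import Pool.Agent.H767R3.GrReg

/-! The limit graphon of a consistent system of cell data. -/

set_option autoImplicit false
set_option linter.dupNamespace false
set_option linter.unusedVariables false

namespace Pool.Agent.H767R3.Gr

open MeasureTheory Filter Topology Set
open scoped ENNReal

/-- consistent system of cell integrals -/
structure Sys (a : ℕ → ℕ → ℝ) (c : ℕ → ℕ → ℕ → ℝ) : Prop where
  mass : Mass a
  nn : ∀ k i j, 0 ≤ c k i j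
  le : ∀ k i j, c k i j ≤ a k i * a k j
  symm : ∀ k i j, c k i j = c k j i
  add : ∀ k i j, c k i j =
    ∑ r ∈ Finset.range 4, ∑ s ∈ Finset.range 4, c (k + 1) (4 * i + r) (4 * j + s)

/-- cell averages -/
noncomputable def uu (a : ℕ → ℕ → ℝ) (c : ℕ → ℕ → ℕ → ℝ) (k i j : ℕ) : ℝ :=
  c k i j / (a k i * a k j)

/-- step kernels of the limit -/
noncomputable def Us (a : ℕ → ℕ → ℝ) (c : ℕ → ℕ → ℕ → ℝ) (k : ℕ) : ℝ → ℝ → ℝ :=
  (ip a k).st (uu a c k)

section
variable {a : ℕ → ℕ → ℝ} {c : ℕ → ℕ → ℕ → ℝ} (h : Sys a c)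

include h

theorem uu_bounds (k i j : ℕ) : 0 ≤ uu a c k i j ∧ uu a c k i j ≤ 1 := by
  have ha : 0 ≤ a k i * a k j := mul_nonneg (h.mass.nn k i) (h.mass.nn k j)
  unfold uu
  exact ⟨div_nonneg (h.nn k i j) ha, div_le_one_of_le₀ (h.le k i j) ha⟩

theorem mul_uu (k i j : ℕ) : a k i * a k j * uu a c k i j = c k i j := by
  unfold uu
  by_cases h0 : a k i * a k j = 0
  · have h1 := h.le k i j
    have h2 := h.nn k i j
    rw [h0] at h1
    rw [h0, zero_mul]; linarith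
  · rw [mul_comm]; exact div_mul_cancel₀ _ h0

theorem Us_gr (k : ℕ) : Gr (Us a c k) := by
  refine ⟨(ip a k).meas_v (uu a c k), ?_, ?_⟩
  · intro x y
    unfold Us Part.st uu
    rw [h.symm, mul_comm (a k ((ip a k).f x))]
  · intro x y
    exact uu_bounds h k _ _

omit h in
/-- linear functional of cell data -/
noncomputable def Phi (c : ℕ → ℕ → ℕ → ℝ) (k : ℕ) (v : ℕ → ℕ → ℝ) : ℝ :=
  ∑ i ∈ Finset.range (4 ^ k), ∑ j ∈ Finset.range (4 ^ k), c k i j * v i j

theorem Phi_succ (k : ℕ) (v : ℕ → ℕ → ℝ) :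
    Phi c (k + 1) (fun i j => v (i / 4) (j / 4)) = Phi c k v := by
  unfold Phi
  rw [pow_succ, mul_comm (4 ^ k) 4, sum_four]
  refine Finset.sum_congr rfl fun i _ => ?_
  simp_rw [sum_four (fun j => c (k + 1) _ j * _)]
  rw [Finset.sum_comm]
  refine Finset.sum_congr rfl fun j _ => ?_
  rw [h.add k i j, Finset.sum_mul]
  refine Finset.sum_congr rfl fun r hr => ?_
  rw [Finset.sum_mul]
  refine Finset.sum_congr rfl fun s hs => ?_
  have h1 : (4 * i + r) / 4 = i := by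
    have := Finset.mem_range.mp hr; omega
  have h2 : (4 * j + s) / 4 = j := by
    have := Finset.mem_range.mp hs; omega
  rw [h1, h2]

theorem Phi_add (k m : ℕ) (v : ℕ → ℕ → ℝ) :
    Phi c (k + m) (fun i j => v (i / 4 ^ m) (j / 4 ^ m)) = Phi c k v := by
  induction m with
  | zero => simp
  | succ m ih =>
    rw [← ih, ← add_assoc, ← Phi_succ h (k + m)]
    congr 1
    funext i j
    rw [Nat.div_div_eq_div_mul, Nat.div_div_eq_div_mul, pow_succ, mul_comm 4]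

theorem int_Us (k : ℕ) (v : ℕ → ℕ → ℝ) :
    ∫ z, Us a c k z.1 z.2 * v (ix a k z.1) (ix a k z.2) ∂P2 = Phi c k v := by
  have := (ip a k).int_v (fun i j => uu a c k i j * v i j)
  have e : (fun z : ℝ × ℝ => Us a c k z.1 z.2 * v (ix a k z.1) (ix a k z.2)) =
      fun z => (fun i j => uu a c k i j * v i j) ((ip a k).f z.1) ((ip a k).f z.2) := rfl
  rw [e, this]
  unfold Phi
  refine Finset.sum_congr rfl fun i hi => Finset.sum_congr rfl fun j hj => ?_
  rw [ip_a h.mass (Finset.mem_range.mp hi), ip_a h.mass (Finset.mem_range.mp hj), ← mul_assoc,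
    mul_uu h]

theorem int_Us_coarse (k m : ℕ) (v : ℕ → ℕ → ℝ) :
    ∫ z, Us a c (k + m) z.1 z.2 * v (ix a k z.1) (ix a k z.2) ∂P2 =
      ∫ z, Us a c k z.1 z.2 * v (ix a k z.1) (ix a k z.2) ∂P2 := by
  rw [int_Us h, ← Phi_add h k m v, ← int_Us h (k + m)]
  simp only [ix_div' h.mass]

omit h in
/-- energy -/
noncomputable def ee (a : ℕ → ℕ → ℝ) (c : ℕ → ℕ → ℕ → ℝ) (k : ℕ) : ℝ :=
  ∫ z, Us a c k z.1 z.2 ^ 2 ∂P2

theorem ee_le_one (k : ℕ) : ee a c k ≤ 1 := by
  unfold ee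
  have hg := Us_gr h k
  have := norm_integral_le_of_norm_le_const (μ := P2)
    (f := fun z => Us a c k z.1 z.2 ^ 2) (C := 1)
    (Eventually.of_forall fun z => by
      rw [Real.norm_eq_abs, abs_pow]
      exact pow_le_one₀ (abs_nonneg _) (hg.abs_le _ _))
  have h2 := le_trans (le_abs_self _) (by simpa using this)
  exact h2

theorem sq_int (k : ℕ) : Integrable (fun z : ℝ × ℝ => Us a c k z.1 z.2 ^ 2) P2 := by
  have hj := Us_gr h k
  refine int_bd (hj.meas.pow_const 2) (C := 1) fun z => ?_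
  rw [abs_pow]; exact pow_le_one₀ (abs_nonneg _) (hj.abs_le _ _)

theorem mul_int (j k : ℕ) : Integrable (fun z : ℝ × ℝ => Us a c j z.1 z.2 * Us a c k z.1 z.2) P2 := by
  have hj := Us_gr h j
  have hk := Us_gr h k
  have hm : Measurable (fun z : ℝ × ℝ => Us a c j z.1 z.2 * Us a c k z.1 z.2) := hj.meas.mul hk.meas
  refine int_bd hm (C := 1) fun z => ?_
  rw [abs_mul]
  exact mul_le_one₀ (hj.abs_le _ _) (abs_nonneg _) (hk.abs_le _ _)

theorem ee_diff (k m : ℕ) :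
    ∫ z, (Us a c (k + m) z.1 z.2 - Us a c k z.1 z.2) ^ 2 ∂P2 = ee a c (k + m) - ee a c k := by
  have o := int_Us_coarse h k m (uu a c k)
  have o' : ∫ z, Us a c (k + m) z.1 z.2 * Us a c k z.1 z.2 ∂P2 =
      ∫ z, Us a c k z.1 z.2 * Us a c k z.1 z.2 ∂P2 := o
  have e : (fun z : ℝ × ℝ => (Us a c (k + m) z.1 z.2 - Us a c k z.1 z.2) ^ 2) =
      fun z => (Us a c (k + m) z.1 z.2 ^ 2 - Us a c k z.1 z.2 ^ 2) -
        2 * (Us a c (k + m) z.1 z.2 * Us a c k z.1 z.2 - Us a c k z.1 z.2 * Us a c k z.1 z.2) := by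
    funext z; ring
  have i1 : Integrable (fun z : ℝ × ℝ => Us a c (k + m) z.1 z.2 ^ 2 - Us a c k z.1 z.2 ^ 2) P2 :=
    (sq_int h (k + m)).sub (sq_int h k)
  have i2 : Integrable (fun z : ℝ × ℝ => 2 * (Us a c (k + m) z.1 z.2 * Us a c k z.1 z.2 -
      Us a c k z.1 z.2 * Us a c k z.1 z.2)) P2 :=
    ((mul_int h (k + m) k).sub (mul_int h k k)).const_mul 2
  rw [e, integral_sub i1 i2, integral_const_mul, integral_sub (mul_int h (k + m) k) (mul_int h k k),
    o', sub_self, mul_zero, sub_zero, integral_sub (sq_int h (k + m)) (sq_int h k)]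
  rfl

theorem ee_mono : Monotone (ee a c) := by
  refine monotone_nat_of_le_succ fun k => ?_
  have := ee_diff h k 1
  have h2 : 0 ≤ ∫ z, (Us a c (k + 1) z.1 z.2 - Us a c k z.1 z.2) ^ 2 ∂P2 :=
    integral_nonneg fun z => sq_nonneg _
  linarith

theorem Us_memLp (k : ℕ) : MemLp (fun z : ℝ × ℝ => Us a c k z.1 z.2) 2 P2 :=
  MemLp.of_bound (Us_gr h k).meas.aestronglyMeasurable 1
    (Eventually.of_forall fun z => (Us_gr h k).abs_le z.1 z.2)

theorem dist_eq (k m : ℕ) :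
    dist ((Us_memLp h (k + m)).toLp) ((Us_memLp h k).toLp) = Real.sqrt (ee a c (k + m) - ee a c k) := by
  rw [dist_eq_norm, ← MemLp.toLp_sub, Lp.norm_toLp, ← ee_diff h k m]
  have hm := (Us_memLp h (k + m)).sub (Us_memLp h k)
  rw [hm.eLpNorm_eq_integral_rpow_norm (by norm_num) (by norm_num)]
  rw [ENNReal.toReal_ofReal (by positivity)]
  simp only [ENNReal.toReal_ofNat, Pi.sub_apply, Real.norm_eq_abs]
  rw [Real.sqrt_eq_rpow]
  norm_num

theorem cauchy : CauchySeq (fun k => (Us_memLp h k).toLp) := by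
  rw [Metric.cauchySeq_iff']
  intro ε hε
  have hb : BddAbove (range (ee a c)) := ⟨1, by rintro _ ⟨k, rfl⟩; exact ee_le_one h k⟩
  have ht := tendsto_atTop_ciSup (ee_mono h) hb
  set s := ⨆ k, ee a c k with hs
  have hε2 : 0 < ε ^ 2 := by positivity
  obtain ⟨N, hN⟩ := (ht.eventually (lt_mem_nhds (show s - ε ^ 2 < s by linarith))).exists
  refine ⟨N, fun n hn => ?_⟩
  obtain ⟨m, rfl⟩ := Nat.exists_eq_add_of_le hn
  rw [dist_eq h N m]
  have h1 : ee a c (N + m) ≤ s := le_ciSup hb (N + m)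
  rw [Real.sqrt_lt' hε]
  linarith

theorem exists_lim_ae : ∃ (ns : ℕ → ℕ) (g : ℝ × ℝ → ℝ), StrictMono ns ∧
    ∀ᵐ z ∂P2, Tendsto (fun m => Us a c (ns m) z.1 z.2) atTop (𝓝 (g z)) := by
  haveI : Fact ((1:ℝ≥0∞) ≤ 2) := ⟨by norm_num⟩
  obtain ⟨g, hg⟩ := cauchySeq_tendsto_of_complete (cauchy h)
  have hm := tendstoInMeasure_of_tendsto_Lp hg
  obtain ⟨ns, hns, hae⟩ := hm.exists_seq_tendsto_ae
  refine ⟨ns, g, hns, ?_⟩
  have hall : ∀ᵐ z ∂P2, ∀ k, ((Us_memLp h k).toLp : ℝ × ℝ → ℝ) z = Us a c k z.1 z.2 := by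
    rw [ae_all_iff]
    intro k
    exact (Us_memLp h k).coeFn_toLp
  filter_upwards [hae, hall] with z h1 h2
  refine h1.congr fun m => ?_
  exact h2 (ns m)

theorem exists_lim : ∃ (ns : ℕ → ℕ) (U : ℝ → ℝ → ℝ), StrictMono ns ∧ Gr U ∧
    ∀ᵐ z ∂P2, Tendsto (fun m => Us a c (ns m) z.1 z.2) atTop (𝓝 (U z.1 z.2)) := by
  obtain ⟨ns, g, hns, hae⟩ := exists_lim_ae h
  refine ⟨ns, fun x y => limsup (fun m => Us a c (ns m) x y) atTop, hns, ⟨?_, ?_, ?_⟩, ?_⟩
  · have : Measurable (fun z : ℝ × ℝ => limsup (fun m => Us a c (ns m) z.1 z.2) atTop) :=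
      Measurable.limsup fun m => (Us_gr h (ns m)).meas
    exact this
  · intro x y
    simp only
    congr 1
    funext m
    exact (Us_gr h (ns m)).2.1 x y
  · intro x y
    have hb0 : ∀ m, 0 ≤ Us a c (ns m) x y := fun m => ((Us_gr h (ns m)).2.2 x y).1
    have hb1 : ∀ m, Us a c (ns m) x y ≤ 1 := fun m => ((Us_gr h (ns m)).2.2 x y).2
    have hbdd : IsBoundedUnder (· ≤ ·) atTop (fun m => Us a c (ns m) x y) :=
      ⟨1, eventually_map.mpr (Eventually.of_forall hb1)⟩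
    have hbdd' : IsBoundedUnder (· ≥ ·) atTop (fun m => Us a c (ns m) x y) :=
      ⟨0, eventually_map.mpr (Eventually.of_forall hb0)⟩
    constructor
    · exact le_limsup_of_frequently_le (Frequently.of_forall hb0) hbdd
    · exact limsup_le_of_le hbdd'.isCoboundedUnder_flip (Eventually.of_forall hb1)
  · filter_upwards [hae] with z hz
    rw [hz.limsup_eq]
    exact hz

end

end Pool.Agent.H767R3.Gr
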