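import Pool.Agent.H767R3.GrComp

/-! The compactness theorem. -/

set_option autoImplicit false
set_option linter.dupNamespace false
set_option linter.unusedVariables false

namespace Pool.Agent.H767R3.Gr

open MeasureTheory Filter Topology Set
open scoped ENNReal

theorem tendsto_div_sqrt (C : ℝ) {ns : ℕ → ℕ} (hns : StrictMono ns) :
    Tendsto (fun m => C / Real.sqrt (ns m)) atTop (𝓝 0) := by
  have h1 : Tendsto (fun m => Real.sqrt (ns m)) atTop atTop :=
    Real.tendsto_sqrt_atTop.comp (tendsto_natCast_atTop_atTop.comp hns.tendsto_atTop)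
  exact h1.const_div_atTop C

theorem eq_of_approx {t : ℕ → ℝ} {s : ℕ → ℝ} {τ v C : ℝ} {ns : ℕ → ℕ} (hns : StrictMono ns)
    (h1 : ∀ k, 0 < k → |τ - s k| ≤ C / Real.sqrt k)
    (h2 : Tendsto (fun m => s (ns m)) atTop (𝓝 v)) : τ = v := by
  have h3 : Tendsto (fun m => |τ - s (ns m)|) atTop (𝓝 |τ - v|) := (h2.const_sub τ).abs
  have h4 : Tendsto (fun m => C / Real.sqrt (ns m)) atTop (𝓝 0) := tendsto_div_sqrt C hns
  have h5 : |τ - v| ≤ 0 := by
    refine le_of_tendsto_of_tendsto h3 h4 ?_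
    filter_upwards [eventually_gt_atTop 0] with m hm
    exact h1 (ns m) (lt_of_lt_of_le hm (hns.id_le m))
  have := abs_nonpos_iff.mp h5
  linarith

theorem compactness (W : ℕ → ℝ → ℝ → ℝ) (hW : ∀ n, Gr (W n)) (g : ℝ → ℝ) (hg : Continuous g)
    (hc : ConvexOn ℝ (Icc 0 1) g) (L : ℝ) (hL : Tendsto (fun n => Eg g (W n)) atTop (𝓝 L)) :
    ∃ φ : ℕ → ℕ, StrictMono φ ∧ ∃ U : ℝ → ℝ → ℝ, Gr U ∧
      Tendsto (fun n => T (W (φ n))) atTop (𝓝 (T U)) ∧
      Tendsto (fun n => Ch (W (φ n))) atTop (𝓝 (Ch U)) ∧ Eg g U ≤ L := by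
  -- the parameters
  set A : ℕ → (ℕ × ℕ → ℝ) := fun n q => (gs (hW n) q.1).a q.2 with hA
  set C : ℕ → (ℕ × ℕ × ℕ → ℝ) := fun n q => (gs (hW n) q.1).c (W n) q.2.1 q.2.2 with hC
  have hK : IsCompact ((Set.pi univ (fun _ : ℕ × ℕ => Icc (0:ℝ) 1)) ×ˢ
      ((Set.pi univ (fun _ : ℕ × ℕ × ℕ => Icc (0:ℝ) 1)) ×ˢ ((Icc (0:ℝ) 1) ×ˢ (Icc (0:ℝ) 1)))) :=
    (isCompact_univ_pi fun _ => isCompact_Icc).prod
      ((isCompact_univ_pi fun _ => isCompact_Icc).prod (isCompact_Icc.prod isCompact_Icc))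
  have hmem : ∀ n, (A n, C n, T (W n), Ch (W n)) ∈ (Set.pi univ (fun _ : ℕ × ℕ => Icc (0:ℝ) 1)) ×ˢ
      ((Set.pi univ (fun _ : ℕ × ℕ × ℕ => Icc (0:ℝ) 1)) ×ˢ ((Icc (0:ℝ) 1) ×ˢ (Icc (0:ℝ) 1))) := by
    intro n
    refine ⟨fun q _ => ⟨Part.a_nonneg _ _, Part.a_le_one _ _⟩, fun q _ => ?_, (hW n).T_mem,
      (hW n).Ch_mem⟩
    have h1 := (gs (hW n) q.1).c_bounds (hW n) q.2.1 q.2.2
    exact ⟨h1.1, h1.2.trans (mul_le_one₀ (Part.a_le_one _ _) (Part.a_nonneg _ _)
      (Part.a_le_one _ _))⟩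
  obtain ⟨lim, hlimmem, φ, hφ, hlim⟩ := hK.tendsto_subseq hmem
  set a : ℕ → ℕ → ℝ := fun k i => lim.1 (k, i) with ha
  set c : ℕ → ℕ → ℕ → ℝ := fun k i j => lim.2.1 (k, i, j) with hcdef
  have t1 : ∀ k i, Tendsto (fun n => (gs (hW (φ n)) k).a i) atTop (𝓝 (a k i)) := by
    intro k i
    have := (continuous_fst.tendsto _).comp hlim
    exact (tendsto_pi_nhds.mp this) (k, i)
  have t2 : ∀ k i j, Tendsto (fun n => (gs (hW (φ n)) k).c (W (φ n)) i j) atTop (𝓝 (c k i j)) := by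
    intro k i j
    have := ((continuous_fst.comp continuous_snd).tendsto _).comp hlim
    exact (tendsto_pi_nhds.mp this) (k, i, j)
  have t3 : Tendsto (fun n => T (W (φ n))) atTop (𝓝 lim.2.2.1) :=
    ((continuous_fst.comp (continuous_snd.comp continuous_snd)).tendsto _).comp hlim
  have t4 : Tendsto (fun n => Ch (W (φ n))) atTop (𝓝 lim.2.2.2) :=
    ((continuous_snd.comp (continuous_snd.comp continuous_snd)).tendsto _).comp hlim
  -- consistency
  have hS : Sys a c := by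
    refine ⟨⟨?_, ?_, ?_⟩, ?_, ?_, ?_, ?_⟩
    · intro k i
      exact ge_of_tendsto (t1 k i) (Eventually.of_forall fun n => Part.a_nonneg _ _)
    · intro k
      have h1 : Tendsto (fun n => ∑ i ∈ Finset.range (4 ^ k), (gs (hW (φ n)) k).a i) atTop
          (𝓝 (∑ i ∈ Finset.range (4 ^ k), a k i)) := tendsto_finsetSum _ fun i _ => t1 k i
      have h2 : ∀ n, ∑ i ∈ Finset.range (4 ^ k), (gs (hW (φ n)) k).a i = 1 := by
        intro n
        have := (gs (hW (φ n)) k).sum_a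
        rwa [gs_N] at this
      simp_rw [h2] at h1
      exact (tendsto_nhds_unique h1 tendsto_const_nhds)
    · intro k i
      have h1 : Tendsto (fun n => ∑ r ∈ Finset.range 4, (gs (hW (φ n)) (k + 1)).a (4 * i + r)) atTop
          (𝓝 (∑ r ∈ Finset.range 4, a (k + 1) (4 * i + r))) :=
        tendsto_finsetSum _ fun r _ => t1 (k + 1) _
      refine tendsto_nhds_unique (t1 k i) (h1.congr fun n => ?_)
      exact (a_ref _ _ (gs_div (hW (φ n)) k) i).symm
    · intro k i j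
      exact ge_of_tendsto (t2 k i j) (Eventually.of_forall fun n => (Part.c_bounds _ (hW _) _ _).1)
    · intro k i j
      exact le_of_tendsto_of_tendsto (t2 k i j) ((t1 k i).mul (t1 k j))
        (Eventually.of_forall fun n => (Part.c_bounds _ (hW _) _ _).2)
    · intro k i j
      refine tendsto_nhds_unique (t2 k i j) ((t2 k j i).congr fun n => ?_)
      exact Part.c_symm _ (hW _) _ _
    · intro k i j
      have h1 : Tendsto (fun n => ∑ r ∈ Finset.range 4, ∑ s ∈ Finset.range 4,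
          (gs (hW (φ n)) (k + 1)).c (W (φ n)) (4 * i + r) (4 * j + s)) atTop
          (𝓝 (∑ r ∈ Finset.range 4, ∑ s ∈ Finset.range 4, c (k + 1) (4 * i + r) (4 * j + s))) :=
        tendsto_finsetSum _ fun r _ => tendsto_finsetSum _ fun s _ => t2 (k + 1) _ _
      refine tendsto_nhds_unique (t2 k i j) (h1.congr fun n => ?_)
      exact (c_ref _ _ (gs_div (hW (φ n)) k) (hW _) i j).symm
  -- convergence of averages
  have tu : ∀ k i j, a k i * a k j ≠ 0 →
      Tendsto (fun n => (gs (hW (φ n)) k).u (W (φ n)) i j) atTop (𝓝 (uu a c k i j)) := by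
    intro k i j h0
    exact (t2 k i j).div ((t1 k i).mul (t1 k j)) h0
  have ub : ∀ n k i j, |(gs (hW (φ n)) k).u (W (φ n)) i j| ≤ 1 := by
    intro n k i j
    have := Part.u_bounds (gs (hW (φ n)) k) (hW (φ n)) i j
    rw [abs_of_nonneg this.1]; exact this.2
  have TT : ∀ k, Tendsto (fun n => T ((gs (hW (φ n)) k).av (W (φ n)))) atTop
      (𝓝 (T (Us a c k))) := by
    intro k
    unfold Part.av Us
    simp_rw [T_st, gs_N]
    have e : (ip a k).N = 4 ^ k := rfl
    rw [e]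
    refine tendsto_finsetSum _ fun i hi => tendsto_finsetSum _ fun j hj =>
      tendsto_finsetSum _ fun l hl => ?_
    rw [ip_a hS.mass (Finset.mem_range.mp hi), ip_a hS.mass (Finset.mem_range.mp hj),
      ip_a hS.mass (Finset.mem_range.mp hl)]
    refine tendsto_mul_of (C := 1) (((t1 k i).mul (t1 k j)).mul (t1 k l)) (fun n => ?_) (fun h0 => ?_)
    · rw [abs_mul, abs_mul]
      exact mul_le_one₀ (mul_le_one₀ (ub _ _ _ _) (abs_nonneg _) (ub _ _ _ _)) (abs_nonneg _)
        (ub _ _ _ _)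
    · have hi0 : a k i ≠ 0 := fun h => h0 (by rw [h]; ring)
      have hj0 : a k j ≠ 0 := fun h => h0 (by rw [h]; ring)
      have hl0 : a k l ≠ 0 := fun h => h0 (by rw [h]; ring)
      exact ((tu k i j (mul_ne_zero hi0 hj0)).mul (tu k j l (mul_ne_zero hj0 hl0))).mul
        (tu k i l (mul_ne_zero hi0 hl0))
  have TC : ∀ k, Tendsto (fun n => Ch ((gs (hW (φ n)) k).av (W (φ n)))) atTop
      (𝓝 (Ch (Us a c k))) := by
    intro k
    unfold Part.av Us
    simp_rw [Ch_st, gs_N]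
    have e : (ip a k).N = 4 ^ k := rfl
    rw [e]
    refine tendsto_finsetSum _ fun i hi => tendsto_finsetSum _ fun j hj =>
      tendsto_finsetSum _ fun l hl => ?_
    rw [ip_a hS.mass (Finset.mem_range.mp hi), ip_a hS.mass (Finset.mem_range.mp hj),
      ip_a hS.mass (Finset.mem_range.mp hl)]
    refine tendsto_mul_of (C := 1) (((t1 k i).mul (t1 k j)).mul (t1 k l)) (fun n => ?_) (fun h0 => ?_)
    · rw [abs_mul]
      exact mul_le_one₀ (ub _ _ _ _) (abs_nonneg _) (ub _ _ _ _)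
    · have hi0 : a k i ≠ 0 := fun h => h0 (by rw [h]; ring)
      have hj0 : a k j ≠ 0 := fun h => h0 (by rw [h]; ring)
      have hl0 : a k l ≠ 0 := fun h => h0 (by rw [h]; ring)
      exact (tu k i j (mul_ne_zero hi0 hj0)).mul (tu k i l (mul_ne_zero hi0 hl0))
  have TE : ∀ k, Tendsto (fun n => Eg g ((gs (hW (φ n)) k).av (W (φ n)))) atTop
      (𝓝 (Eg g (Us a c k))) := by
    intro k
    obtain ⟨M, hM0, hM⟩ := exists_bd hg
    unfold Part.av Us
    simp_rw [Eg_st, gs_N]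
    have e : (ip a k).N = 4 ^ k := rfl
    rw [e]
    refine tendsto_finsetSum _ fun i hi => tendsto_finsetSum _ fun j hj => ?_
    rw [ip_a hS.mass (Finset.mem_range.mp hi), ip_a hS.mass (Finset.mem_range.mp hj)]
    refine tendsto_mul_of (C := M) ((t1 k i).mul (t1 k j)) (fun n => ?_) (fun h0 => ?_)
    · have := Part.u_bounds (gs (hW (φ n)) k) (hW (φ n)) i j
      exact hM _ this.1 this.2
    · exact (hg.tendsto _).comp (tu k i j h0)
  -- the limit graphon
  obtain ⟨ns, U, hns, hU, hae⟩ := exists_lim hS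
  obtain ⟨l1, l2, l3⟩ := ae_lim (fun m => Us_gr hS (ns m)) hU hae hg
  refine ⟨φ, hφ, U, hU, ?_, ?_, ?_⟩
  · have : lim.2.2.1 = T U := by
      refine eq_of_approx (t := fun _ => 0) (s := fun k => T (Us a c k)) (C := 12) hns ?_ l1
      intro k hk
      have h1 : Tendsto (fun n => |T (W (φ n)) - T ((gs (hW (φ n)) k).av (W (φ n)))|) atTop
          (𝓝 |lim.2.2.1 - T (Us a c k)|) := (t3.sub (TT k)).abs
      refine le_of_tendsto h1 (Eventually.of_forall fun n => ?_)
      have := counting (hW (φ n)) (Part.av_gr _ (hW (φ n))) (regularity (hW (φ n)) k hk)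
      refine this.trans (le_of_eq ?_)
      ring
    rw [← this]; exact t3
  · have : lim.2.2.2 = Ch U := by
      refine eq_of_approx (t := fun _ => 0) (s := fun k => Ch (Us a c k)) (C := 8) hns ?_ l2
      intro k hk
      have h1 : Tendsto (fun n => |Ch (W (φ n)) - Ch ((gs (hW (φ n)) k).av (W (φ n)))|) atTop
          (𝓝 |lim.2.2.2 - Ch (Us a c k)|) := (t4.sub (TC k)).abs
      refine le_of_tendsto h1 (Eventually.of_forall fun n => ?_)
      have := counting_ch (hW (φ n)) (Part.av_gr _ (hW (φ n))) (regularity (hW (φ n)) k hk)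
      refine this.trans (le_of_eq ?_)
      ring
    rw [← this]; exact t4
  · refine le_of_tendsto l3 (Eventually.of_forall fun m => ?_)
    refine le_of_tendsto_of_tendsto (TE (ns m)) (hL.comp hφ.tendsto_atTop)
      (Eventually.of_forall fun n => ?_)
    exact jensen hg hc (hW (φ n)) _

end Pool.Agent.H767R3.Gr
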