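import Pool.Agent.H767R3.GrMain

/-! Minimizers of a convex energy under a triangle density constraint: existence, closedness and
the crossing lemma under uniqueness. -/

set_option autoImplicit false
set_option linter.dupNamespace false
set_option linter.unusedVariables false

namespace Pool.Agent.H767R3.Gr

open MeasureTheory Filter Topology Set
open scoped ENNReal

/-- minimizers -/
def IsMin (g : ℝ → ℝ) (t : ℝ) (W : ℝ → ℝ → ℝ) : Prop :=
  Gr W ∧ t ≤ T W ∧ ∀ U, Gr U → t ≤ T U → Eg g W ≤ Eg g U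

theorem gr_const {c : ℝ} (h0 : 0 ≤ c) (h1 : c ≤ 1) : Gr (fun _ _ => c) := by
  refine ⟨?_, fun _ _ => rfl, fun _ _ => ⟨h0, h1⟩⟩
  exact measurable_const

theorem T_const (c : ℝ) : T (fun _ _ => c) = c ^ 3 := by
  unfold T
  simp
  ring

theorem Eg_const (g : ℝ → ℝ) (c : ℝ) : Eg g (fun _ _ => c) = g c := by
  unfold Eg
  simp

theorem Eg_abs {g : ℝ → ℝ} (hg : Continuous g) {C : ℝ} (hC : ∀ u, 0 ≤ u → u ≤ 1 → |g u| ≤ C)
    {W : ℝ → ℝ → ℝ} (hW : Gr W) : |Eg g W| ≤ C := by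
  rw [Eg_eq hg hW]
  have := norm_integral_le_of_norm_le_const (μ := P2) (f := fun z : ℝ × ℝ => g (W z.1 z.2)) (C := C)
    (Eventually.of_forall fun z => hC _ (hW.2.2 z.1 z.2).1 (hW.2.2 z.1 z.2).2)
  simpa using this

theorem exists_min (g : ℝ → ℝ) (hg : Continuous g) (hc : ConvexOn ℝ (Icc 0 1) g) {t : ℝ}
    (ht : t ≤ 1) : ∃ W, IsMin g t W := by
  obtain ⟨C, hC0, hC⟩ := exists_bd hg
  set S : Set ℝ := {e | ∃ W, Gr W ∧ t ≤ T W ∧ e = Eg g W} with hS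
  have hne : S.Nonempty :=
    ⟨_, fun _ _ => 1, gr_const zero_le_one le_rfl, by rw [T_const]; simpa using ht, rfl⟩
  have hbd : BddBelow S := by
    refine ⟨-C, ?_⟩
    rintro e ⟨W, hW, _, rfl⟩
    exact (_root_.abs_le.mp (Eg_abs hg hC hW)).1
  obtain ⟨u, _, hu, hmem⟩ := exists_seq_tendsto_sInf hne hbd
  choose W hW hWt hWe using hmem
  have hL : Tendsto (fun n => Eg g (W n)) atTop (𝓝 (sInf S)) := by
    refine hu.congr fun n => hWe n
  obtain ⟨φ, hφ, U, hU, hT, hCh, hE⟩ := compactness W hW g hg hc _ hL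
  refine ⟨U, hU, ge_of_tendsto' hT fun n => hWt _, fun V hV hVt => ?_⟩
  exact hE.trans (csInf_le hbd ⟨V, hV, hVt, rfl⟩)

/-- shift towards the constant graphon `1` -/
def shf (s : ℝ) (V : ℝ → ℝ → ℝ) : ℝ → ℝ → ℝ := fun x y => V x y + s * (1 - V x y)

theorem shf_gr {s : ℝ} (h0 : 0 ≤ s) (h1 : s ≤ 1) {V : ℝ → ℝ → ℝ} (hV : Gr V) : Gr (shf s V) := by
  refine ⟨?_, fun x y => ?_, fun x y => ?_⟩
  · exact hV.1.add (measurable_const.mul (measurable_const.sub hV.1))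
  · unfold shf; rw [hV.2.1 x y]
  · unfold shf
    have := hV.2.2 x y
    constructor
    · nlinarith [this.1, this.2]
    · nlinarith [this.1, this.2]

theorem three_prod {a b c s : ℝ} (ha0 : 0 ≤ a) (ha1 : a ≤ 1) (hb0 : 0 ≤ b) (hb1 : b ≤ 1)
    (hc0 : 0 ≤ c) (hc1 : c ≤ 1) (h0 : 0 ≤ s) (h1 : s ≤ 1) :
    a * b * c + s ^ 3 * (1 - a * b * c) ≤
      (a + s * (1 - a)) * (b + s * (1 - b)) * (c + s * (1 - c)) := by
  obtain ⟨a', rfl⟩ : ∃ a', a = 1 - a' := ⟨1 - a, by ring⟩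
  obtain ⟨b', rfl⟩ : ∃ b', b = 1 - b' := ⟨1 - b, by ring⟩
  obtain ⟨c', rfl⟩ : ∃ c', c = 1 - c' := ⟨1 - c, by ring⟩
  have ea : 0 ≤ a' := by linarith
  have eb : 0 ≤ b' := by linarith
  have ec : 0 ≤ c' := by linarith
  have hs3 : s ^ 3 ≤ s := by nlinarith [mul_nonneg h0 h0]
  have hs32 : s ^ 3 ≤ s ^ 2 := by nlinarith [mul_nonneg h0 h0]
  set x1 := a' * (1 - b') * (1 - c') + (1 - a') * b' * (1 - c') + (1 - a') * (1 - b') * c' with hx1
  set x2 := a' * b' * (1 - c') + a' * (1 - b') * c' + (1 - a') * b' * c' with hx2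
  have h1' : 0 ≤ x1 := by
    have := mul_nonneg (mul_nonneg ea hb0) hc0
    have := mul_nonneg (mul_nonneg ha0 eb) hc0
    have := mul_nonneg (mul_nonneg ha0 hb0) ec
    linarith
  have h2' : 0 ≤ x2 := by
    have := mul_nonneg (mul_nonneg ea eb) hc0
    have := mul_nonneg (mul_nonneg ea hb0) ec
    have := mul_nonneg (mul_nonneg ha0 eb) ec
    linarith
  have e1 : (1 - a' + s * (1 - (1 - a'))) * (1 - b' + s * (1 - (1 - b'))) *
      (1 - c' + s * (1 - (1 - c'))) - ((1 - a') * (1 - b') * (1 - c') +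
      s ^ 3 * (1 - (1 - a') * (1 - b') * (1 - c'))) = (s - s ^ 3) * x1 + (s ^ 2 - s ^ 3) * x2 := by
    rw [hx1, hx2]; ring
  have := mul_nonneg (sub_nonneg.mpr hs3) h1'
  have := mul_nonneg (sub_nonneg.mpr hs32) h2'
  linarith

theorem shf_T {s : ℝ} (h0 : 0 ≤ s) (h1 : s ≤ 1) {V : ℝ → ℝ → ℝ} (hV : Gr V) :
    T V + s ^ 3 * (1 - T V) ≤ T (shf s V) := by
  have hb := b3_tri hV.b2 hV.b2 hV.b2
  have hb' := b3_tri (shf_gr h0 h1 hV).b2 (shf_gr h0 h1 hV).b2 (shf_gr h0 h1 hV).b2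
  rw [T_eq hV.b2, T_eq (shf_gr h0 h1 hV).b2]
  have e1 : J3 (fun x y z => V x y * V y z * V x z) + s ^ 3 *
      (1 - J3 (fun x y z => V x y * V y z * V x z)) =
      ∫ q : ℝ × ℝ × ℝ, (V q.1 q.2.1 * V q.2.1 q.2.2 * V q.1 q.2.2 + s ^ 3 *
        (1 - V q.1 q.2.1 * V q.2.1 q.2.2 * V q.1 q.2.2)) ∂P3 := by
    have i1 : Integrable (fun q : ℝ × ℝ × ℝ => V q.1 q.2.1 * V q.2.1 q.2.2 * V q.1 q.2.2) P3 :=
      hb.int
    have i2 : Integrable (fun q : ℝ × ℝ × ℝ => s ^ 3 *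
        (1 - V q.1 q.2.1 * V q.2.1 q.2.2 * V q.1 q.2.2)) P3 :=
      ((integrable_const _).sub i1).const_mul _
    rw [integral_add i1 i2, integral_const_mul, integral_sub (integrable_const _) i1]
    simp [J3]
  rw [e1]
  have i3 : Integrable (fun q : ℝ × ℝ × ℝ => V q.1 q.2.1 * V q.2.1 q.2.2 * V q.1 q.2.2 + s ^ 3 *
        (1 - V q.1 q.2.1 * V q.2.1 q.2.2 * V q.1 q.2.2)) P3 :=
    Integrable.add hb.int (((integrable_const _).sub hb.int).const_mul _)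
  refine integral_mono i3 hb'.int fun q => ?_
  have a1 := hV.2.2 q.1 q.2.1
  have a2 := hV.2.2 q.2.1 q.2.2
  have a3 := hV.2.2 q.1 q.2.2
  exact three_prod a1.1 a1.2 a2.1 a2.2 a3.1 a3.2 h0 h1

theorem shf_E {g : ℝ → ℝ} (hg : Continuous g) (hc : ConvexOn ℝ (Icc 0 1) g) {s : ℝ} (h0 : 0 ≤ s)
    (h1 : s ≤ 1) {V : ℝ → ℝ → ℝ} (hV : Gr V) :
    Eg g (shf s V) ≤ (1 - s) * Eg g V + s * g 1 := by
  rw [Eg_eq hg hV, Eg_eq hg (shf_gr h0 h1 hV)]
  have e1 : (1 - s) * ∫ z : ℝ × ℝ, g (V z.1 z.2) ∂P2 + s * g 1 =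
      ∫ z : ℝ × ℝ, ((1 - s) * g (V z.1 z.2) + s * g 1) ∂P2 := by
    rw [integral_add ((g_int hg hV).const_mul _) (integrable_const _), integral_const_mul]
    simp
  rw [e1]
  refine integral_mono (g_int hg (shf_gr h0 h1 hV))
    (((g_int hg hV).const_mul _).add (integrable_const _)) fun z => ?_
  have hm : V z.1 z.2 ∈ Icc (0:ℝ) 1 := hV.2.2 _ _
  have := hc.2 hm (right_mem_Icc.mpr zero_le_one) (sub_nonneg.mpr h1) h0 (by ring)
  simp only [smul_eq_mul, mul_one] at this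
  have e2 : shf s V z.1 z.2 = (1 - s) * V z.1 z.2 + s := by unfold shf; ring
  rw [e2]
  exact this

theorem min_limit (g : ℝ → ℝ) (hg : Continuous g) (hc : ConvexOn ℝ (Icc 0 1) g) {t : ℕ → ℝ}
    {τ : ℝ} (hτ : τ < 1) (ht : Tendsto t atTop (𝓝 τ)) (W : ℕ → ℝ → ℝ → ℝ)
    (hW : ∀ n, IsMin g (t n) (W n)) :
    ∃ φ : ℕ → ℕ, StrictMono φ ∧ ∃ U, IsMin g τ U ∧
      Tendsto (fun n => Ch (W (φ n))) atTop (𝓝 (Ch U)) := by
  obtain ⟨C, hC0, hC⟩ := exists_bd hg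
  obtain ⟨V, hV⟩ := exists_min g hg hc hτ.le
  have hmem : ∀ n, Eg g (W n) ∈ Icc (-C) C := fun n => _root_.abs_le.mp (Eg_abs hg hC (hW n).1)
  obtain ⟨ℓ, _, φ1, hφ1, hℓ⟩ := isCompact_Icc.tendsto_subseq hmem
  obtain ⟨φ2, hφ2, U, hU, hT, hCh, hE⟩ := compactness (fun n => W (φ1 n)) (fun n => (hW _).1) g hg hc ℓ hℓ
  refine ⟨fun n => φ1 (φ2 n), hφ1.comp hφ2, U, ⟨hU, ?_, fun U' hU' hU't => ?_⟩, hCh⟩
  · have h2 : Tendsto (fun n => t (φ1 (φ2 n))) atTop (𝓝 τ) :=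
      ht.comp (hφ1.comp hφ2).tendsto_atTop
    exact le_of_tendsto_of_tendsto' h2 hT fun n => (hW _).2.1
  · refine hE.trans ?_
    refine le_trans ?_ (hV.2.2 U' hU' hU't)
    -- the comparison
    set s : ℕ → ℝ := fun n => (max 0 (t (φ1 n) - τ) / (1 - τ)) ^ ((1:ℝ) / 3) with hs
    have hτ' : 0 < 1 - τ := by linarith
    have hx0 : ∀ n, 0 ≤ max 0 (t (φ1 n) - τ) / (1 - τ) := fun n =>
      div_nonneg (le_max_left _ _) hτ'.le
    have hs0 : ∀ n, 0 ≤ s n := fun n => Real.rpow_nonneg (hx0 n) _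
    have hx1 : ∀ n, max 0 (t (φ1 n) - τ) / (1 - τ) ≤ 1 := fun n => by
      rw [div_le_one hτ']
      have := (hW (φ1 n)).2.1.trans (hW (φ1 n)).1.T_mem.2
      exact max_le hτ'.le (by linarith)
    have hs1 : ∀ n, s n ≤ 1 := fun n => Real.rpow_le_one (hx0 n) (hx1 n) (by norm_num)
    have hs3 : ∀ n, s n ^ 3 = max 0 (t (φ1 n) - τ) / (1 - τ) := fun n => by
      rw [hs]
      simp only
      rw [← Real.rpow_natCast, ← Real.rpow_mul (hx0 n)]
      norm_num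
    have hcmp : ∀ n, Eg g (W (φ1 n)) ≤ (1 - s n) * Eg g V + s n * g 1 := by
      intro n
      refine ((hW (φ1 n)).2.2 (shf (s n) V) (shf_gr (hs0 n) (hs1 n) hV.1) ?_).trans
        (shf_E hg hc (hs0 n) (hs1 n) hV.1)
      refine le_trans ?_ (shf_T (hs0 n) (hs1 n) hV.1)
      have h3 : s n ^ 3 * (1 - τ) = max 0 (t (φ1 n) - τ) := by
        rw [hs3 n]; field_simp
      have h4 : t (φ1 n) - τ ≤ s n ^ 3 * (1 - τ) := by rw [h3]; exact le_max_right _ _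
      have h5 : s n ^ 3 ≤ 1 := pow_le_one₀ (hs0 n) (hs1 n)
      nlinarith [hV.2.1, h4, h5]
    have hst : Tendsto s atTop (𝓝 0) := by
      have hf : Continuous (fun x : ℝ => (max 0 (x - τ) / (1 - τ)) ^ ((1:ℝ) / 3)) := by
        refine Continuous.rpow_const ?_ fun x => Or.inr (by norm_num)
        exact (continuous_const.max (continuous_id.sub continuous_const)).div_const _
      have h1 := (hf.tendsto τ).comp (ht.comp hφ1.tendsto_atTop)
      have h2 : (max 0 (τ - τ) / (1 - τ)) ^ ((1:ℝ) / 3) = 0 := by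
        rw [sub_self, max_self, zero_div, Real.zero_rpow (by norm_num)]
      simp only [h2] at h1
      exact h1
    have hrhs : Tendsto (fun n => (1 - s n) * Eg g V + s n * g 1) atTop
        (𝓝 ((1 - 0) * Eg g V + 0 * g 1)) :=
      ((hst.const_sub 1).mul_const _).add (hst.mul_const _)
    rw [sub_zero, one_mul, zero_mul, add_zero] at hrhs
    exact le_of_tendsto_of_tendsto' hℓ hrhs hcmp

theorem exists_crossing (g : ℝ → ℝ) (hg : Continuous g) (hc : ConvexOn ℝ (Icc 0 1) g) {t : ℝ → ℝ}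
    (ht : Continuous t) {a b : ℝ} (hab : a ≤ b) (ht1 : ∀ r ∈ Icc a b, t r < 1)
    (uniq : ∀ r ∈ Icc a b, ∀ W₁ W₂, IsMin g (t r) W₁ → IsMin g (t r) W₂ → Ch W₁ = Ch W₂)
    {v : ℝ} (h1 : ∀ W, IsMin g (t a) W → v ≤ Ch W) (h2 : ∀ W, IsMin g (t b) W → Ch W ≤ v) :
    ∃ r ∈ Icc a b, ∃ W, IsMin g (t r) W ∧ Ch W = v := by
  set cl : ℝ → ℝ := fun r => max a (min r b) with hcl
  have hclc : Continuous cl := continuous_const.max (continuous_id.min continuous_const)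
  have hclm : ∀ r, cl r ∈ Icc a b := fun r => ⟨le_max_left _ _, max_le hab (min_le_right _ _)⟩
  have hcle : ∀ r ∈ Icc a b, cl r = r := fun r hr => by
    rw [hcl]; simp only
    rw [min_eq_left hr.2, max_eq_right hr.1]
  have hex : ∀ r, ∃ W, IsMin g (t (cl r)) W := fun r => exists_min g hg hc (ht1 _ (hclm r)).le
  choose W hW using hex
  set κ : ℝ → ℝ := fun r => Ch (W r) with hκ
  have hcont : Continuous κ := by
    rw [continuous_iff_continuousAt]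
    intro r
    refine tendsto_of_subseq_tendsto fun ns hns => ?_
    have h3 : Tendsto (fun n => t (cl (ns n))) atTop (𝓝 (t (cl r))) :=
      ((ht.comp hclc).tendsto r).comp hns
    obtain ⟨φ, hφ, U, hU, hCh⟩ := min_limit g hg hc (ht1 _ (hclm r)) h3 (fun n => W (ns n))
      fun n => hW _
    refine ⟨φ, ?_⟩
    have : Ch U = κ r := uniq _ (hclm r) _ _ hU (hW r)
    rw [this] at hCh
    exact hCh
  have ha := hW a
  have hb := hW b
  rw [hcle a (left_mem_Icc.mpr hab)] at ha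
  rw [hcle b (right_mem_Icc.mpr hab)] at hb
  have hiv := intermediate_value_Icc' hab hcont.continuousOn
  obtain ⟨r, hr, hrv⟩ := hiv ⟨h2 _ hb, h1 _ ha⟩
  refine ⟨r, hr, W r, ?_, hrv⟩
  have := hW r
  rwa [hcle r hr] at this

end Pool.Agent.H767R3.Gr
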