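import Pool.Agent.H767R3.GrAsy
import Pool.Agent.H767R3.GrTrans

/-! Asymptotic consequences as `p → 0`, the numerical dichotomy and the two constructions. -/

set_option autoImplicit false
set_option linter.dupNamespace false
set_option linter.unusedVariables false

namespace Pool.Agent.H767R3.Gr

open MeasureTheory Filter Topology Set

theorem ev_L (K : ℝ) : ∀ᶠ p in 𝓝[>] (0:ℝ), K ≤ Real.log (1 / p) := by
  have h1 : Tendsto (fun p : ℝ => Real.log (1 / p)) (𝓝[>] 0) atTop := by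
    have := tendsto_neg_atBot_atTop.comp Real.tendsto_log_nhdsGT_zero
    refine this.congr fun p => ?_
    simp [Real.log_inv]
  exact h1.eventually_ge_atTop K

theorem ev_pL {ε : ℝ} (hε : 0 < ε) : ∀ᶠ p in 𝓝[>] (0:ℝ), p * Real.log (1 / p) < ε := by
  have h1 : Tendsto (fun p : ℝ => p * Real.log (1 / p)) (𝓝 0) (𝓝 0) := by
    have h2 := (Real.continuous_mul_log.tendsto 0).neg
    simp only [zero_mul, neg_zero] at h2
    refine h2.congr fun p => ?_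
    simp [Real.log_inv]
  exact (h1.mono_left nhdsWithin_le_nhds).eventually_lt_const hε

theorem ev_lt {ε : ℝ} (hε : 0 < ε) : ∀ᶠ p in 𝓝[>] (0:ℝ), p < ε :=
  (tendsto_id.mono_left nhdsWithin_le_nhds).eventually_lt_const hε

theorem ar_e {p l L J e : ℝ} (hp : 0 < p) (hl0 : 0 < l) (hpL : p * L < l ^ 2 / 5)
    (hJ : J ≤ 5 * p ^ 2 * L) (h1 : l * e ≤ J + p * l ^ 2) : e ≤ 2 * l * p := by
  have h2 : 5 * p ^ 2 * L ≤ p * l ^ 2 := by nlinarith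
  have h3 : l * e ≤ l * (2 * l * p) := by linarith
  exact le_of_mul_le_mul_left h3 hl0

theorem ar_m {p L J m b : ℝ} (hp : 0 < p) (hL : 2 ≤ L) (hJ : J ≤ 5 * p ^ 2 * L)
    (h1 : m * b ^ 2 * (L - 1) ≤ J) : m * b ^ 2 ≤ 10 * p ^ 2 := by
  have h0 : 5 * p ^ 2 * L ≤ 10 * p ^ 2 * (L - 1) := by
    have : 5 * p ^ 2 * L = p ^ 2 * (5 * L) := by ring
    have h2 : 10 * p ^ 2 * (L - 1) = p ^ 2 * (10 * (L - 1)) := by ring
    rw [this, h2]
    exact mul_le_mul_of_nonneg_left (by linarith) (by positivity)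
  have h2 : m * b ^ 2 * (L - 1) ≤ 10 * p ^ 2 * (L - 1) := by linarith
  exact le_of_mul_le_mul_right h2 (by linarith)

theorem ar_R {p l L J e R b : ℝ} (hp : 0 < p) (hb : 0 < b) (hL : 2 ≤ L) (hJ : J ≤ 5 * p ^ 2 * L)
    (he : e ≤ 2 * l * p) (h1 : R * L ≤ p * e * L + 2 * b * J) : R ≤ (2 * l + 10 * b) * p ^ 2 := by
  have h2 : p * e * L ≤ 2 * l * p ^ 2 * L := by
    have : p * e ≤ p * (2 * l * p) := mul_le_mul_of_nonneg_left he hp.le
    have h3 : p * (2 * l * p) = 2 * l * p ^ 2 := by ring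
    rw [h3] at this
    exact mul_le_mul_of_nonneg_right this (by linarith)
  have h4 : 2 * b * J ≤ 2 * b * (5 * p ^ 2 * L) := mul_le_mul_of_nonneg_left hJ (by linarith)
  have h3 : R * L ≤ (2 * l + 10 * b) * p ^ 2 * L := by linarith
  exact le_of_mul_le_mul_right h3 (by linarith)

theorem ar_m2 {p m b δ : ℝ} (hp : 0 < p) (hp1 : p < 1) (hb : 0 < b) (hm0 : 0 ≤ m)
    (hm : m * b ^ 2 ≤ 10 * p ^ 2) (hpb : p < δ * b ^ 4 / 200) : m ^ 2 ≤ δ / 2 * p ^ 2 := by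
  have h1 : (m * b ^ 2) ^ 2 ≤ (10 * p ^ 2) ^ 2 := pow_le_pow_left₀ (by positivity) hm 2
  have h2 : m ^ 2 * b ^ 4 ≤ 100 * p ^ 4 := by
    have e1 : (m * b ^ 2) ^ 2 = m ^ 2 * b ^ 4 := by ring
    have e2 : (10 * p ^ 2) ^ 2 = 100 * p ^ 4 := by ring
    rw [e1, e2] at h1; exact h1
  have h3 : 100 * p ^ 4 ≤ (δ / 2 * p ^ 2) * b ^ 4 := by
    have h4 : p ^ 2 ≤ p := by nlinarith
    have h5 : p ^ 2 ≤ δ * b ^ 4 / 200 := by linarith
    have h6 := mul_le_mul_of_nonneg_right h5 (show 0 ≤ 100 * p ^ 2 by positivity)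
    have e1 : p ^ 2 * (100 * p ^ 2) = 100 * p ^ 4 := by ring
    have e2 : δ * b ^ 4 / 200 * (100 * p ^ 2) = (δ / 2 * p ^ 2) * b ^ 4 := by ring
    rw [e1, e2] at h6; exact h6
  exact le_of_mul_le_mul_right (h2.trans h3) (by positivity)

theorem ar_EN {p L J N X m κ δ : ℝ} (hp : 0 < p) (hL : 2 ≤ L) (hκ : κ ≤ 5) (hδ : 0 < δ)
    (hLδ : 1 + 10 / δ ≤ L) (hJ : J ≤ κ * p ^ 2 * L) (h1 : (L - 1) * (N + 2 * X - m ^ 2) ≤ J)
    (hm2 : m ^ 2 ≤ δ / 2 * p ^ 2) : N + 2 * X ≤ (κ + δ) * p ^ 2 := by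
  have h3 : 10 ≤ (L - 1) * δ := by
    have : 10 / δ ≤ L - 1 := by linarith
    rwa [div_le_iff₀ hδ] at this
  have h2 : (L - 1) * (N + 2 * X - m ^ 2) ≤ (L - 1) * ((κ + δ / 2) * p ^ 2) := by
    refine h1.trans (hJ.trans ?_)
    have h4 : κ * p ^ 2 * L = (L - 1) * (κ * p ^ 2) + κ * p ^ 2 := by ring
    have h5 : (L - 1) * ((κ + δ / 2) * p ^ 2) = (L - 1) * (κ * p ^ 2) + (L - 1) * δ / 2 * p ^ 2 := by
      ring
    rw [h4, h5]
    have h6 : κ * p ^ 2 ≤ (L - 1) * δ / 2 * p ^ 2 :=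
      mul_le_mul_of_nonneg_right (by linarith) (by positivity)
    linarith
  have h7 := le_of_mul_le_mul_left h2 (by linarith)
  linarith

theorem ar_T {p l b δ ρ eu e m X R TU s y : ℝ} (hp : 0 < p) (hδ : 0 < δ)
    (hl : l = b ^ 2 * δ / 300) (hb : b = δ / 60) (hδ1 : δ ≤ 1) (hm0 : 0 ≤ m)
    (heu : eu ≤ 2 * l * p) (he : e ≤ 2 * l * p) (hm : m * b ^ 2 ≤ 10 * p ^ 2)
    (hR : R ≤ (2 * l + 10 * b) * p ^ 2) (hs : s ≤ y) (hTU : TU ≤ s + 3 * m * e)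
    (hT : (1 + ρ) * p ^ 3 ≤ p ^ 3 + 3 * p ^ 2 * eu + 3 * p * (X + R) + TU) :
    (ρ - δ) * p ^ 3 ≤ 3 * p * X + y := by
  have hme : 3 * m * e ≤ δ / 5 * p ^ 3 := by
    have a1 : m * e ≤ m * (2 * l * p) := mul_le_mul_of_nonneg_left he hm0
    have a2 : m * (2 * l * p) = (m * b ^ 2) * (δ / 150 * p) := by rw [hl]; ring
    have a3 : (m * b ^ 2) * (δ / 150 * p) ≤ (10 * p ^ 2) * (δ / 150 * p) :=
      mul_le_mul_of_nonneg_right hm (by positivity)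
    have a4 : (10 * p ^ 2) * (δ / 150 * p) = δ / 15 * p ^ 3 := by ring
    linarith
  have b1 : 3 * p ^ 2 * eu ≤ 3 * p ^ 2 * (2 * l * p) :=
    mul_le_mul_of_nonneg_left heu (by positivity)
  have b2 : 3 * p * (X + R) ≤ 3 * p * (X + (2 * l + 10 * b) * p ^ 2) :=
    mul_le_mul_of_nonneg_left (by linarith) (by positivity)
  have hb0 : 0 < b := by rw [hb]; positivity
  have hb1 : b ^ 2 ≤ 1 := by
    have : b ≤ 1 := by rw [hb]; linarith
    exact pow_le_one₀ hb0.le this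
  have h3 : 12 * l + 30 * b + δ / 5 ≤ δ := by
    have h4 : 12 * l ≤ δ / 5 := by
      rw [hl]
      have := mul_le_mul_of_nonneg_right hb1 hδ.le
      linarith
    have h5 : 30 * b = δ / 2 := by rw [hb]; ring
    rw [h5]; linarith
  have e2 : (12 * l + 30 * b + δ / 5) * p ^ 3 ≤ δ * p ^ 3 :=
    mul_le_mul_of_nonneg_right h3 (by positivity)
  have e3 : 3 * p ^ 2 * (2 * l * p) = 6 * l * p ^ 3 := by ring
  have e4 : 3 * p * (X + (2 * l + 10 * b) * p ^ 2) = 3 * p * X + (6 * l + 30 * b) * p ^ 3 := by ring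
  have e5 : (12 * l + 30 * b + δ / 5) * p ^ 3 = 6 * l * p ^ 3 + (6 * l + 30 * b) * p ^ 3 +
    δ / 5 * p ^ 3 := by ring
  have e6 : (ρ - δ) * p ^ 3 = (1 + ρ) * p ^ 3 - p ^ 3 - δ * p ^ 3 := by ring
  linarith

theorem main_est {δ : ℝ} (hδ : 0 < δ) (hδ1 : δ ≤ 1) : ∀ᶠ p in 𝓝[>] (0:ℝ), ∀ (κ ρ : ℝ) (W : ℝ → ℝ → ℝ),
    κ ≤ 5 → Gr W → Eg (hp p) W ≤ κ * p ^ 2 * Real.log (1 / p) → (1 + ρ) * p ^ 3 ≤ T W →
    ∃ x y : ℝ, 0 ≤ x ∧ 0 ≤ y ∧ y ^ 2 + 2 * x ≤ κ + δ ∧ ρ - δ ≤ 3 * x + y ^ 3 ∧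
      |Ch W - (1 + x) * p ^ 2| ≤ δ * p ^ 2 := by
  obtain ⟨b, hb⟩ : ∃ b : ℝ, b = δ / 60 := ⟨_, rfl⟩
  have hb0 : 0 < b := by rw [hb]; positivity
  have hb1 : b ≤ 1 := by rw [hb]; linarith
  obtain ⟨l, hl⟩ : ∃ l : ℝ, l = b ^ 2 * δ / 300 := ⟨_, rfl⟩
  have hl0 : 0 < l := by rw [hl]; positivity
  have hb2 : b ^ 2 ≤ 1 := pow_le_one₀ hb0.le hb1
  have hlδ : l ≤ δ / 300 := by
    have := mul_le_mul_of_nonneg_right hb2 hδ.le
    rw [hl]; linarith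
  have hl1 : l ≤ 1 := by linarith
  filter_upwards [self_mem_nhdsWithin, ev_lt one_pos, ev_pL (show 0 < l ^ 2 / 5 by positivity),
    ev_L 2, ev_L (1 + 10 / δ), ev_L (2 * (1 + Real.log (1 / b))),
    ev_lt (show 0 < δ * b ^ 4 / 200 by positivity)] with p hp0 hp1 hpL hL2 hLδ hLb hpb κ ρ W hκ hW hJ hT
  have h0 : (0:ℝ) < p := hp0
  obtain ⟨L, hLdef⟩ : ∃ L, L = Real.log (1 / p) := ⟨_, rfl⟩
  obtain ⟨eu, e, m, N, X, R, TU, hE⟩ := est h0 hp1 hb0 (by linarith) hLb hW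
  have hp2 : 0 < p ^ 2 := by positivity
  have hp3 : 0 < p ^ 3 := by positivity
  rw [← hLdef] at hpL hL2 hLδ hLb hJ
  have hJ5 : Eg (hp p) W ≤ 5 * p ^ 2 * L := by
    refine hJ.trans ?_
    have e1 : κ * p ^ 2 * L = κ * (p ^ 2 * L) := by ring
    have e2 : 5 * p ^ 2 * L = 5 * (p ^ 2 * L) := by ring
    rw [e1, e2]
    exact mul_le_mul_of_nonneg_right hκ (by positivity)
  have hm0 := hE.m_nn
  have he := ar_e h0 hl0 hpL hJ5 (hE.e_le l hl0.le hl1)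
  have hm := ar_m h0 hL2 hJ5 (by rw [hLdef]; exact hE.m_le)
  have hR := ar_R h0 hb0 hL2 hJ5 he (by rw [hLdef]; exact hE.R_le)
  have hm2 := ar_m2 h0 hp1 hb0 hm0 hm hpb
  have hEN := ar_EN h0 hL2 hκ hδ hLδ hJ (by rw [hLdef]; exact hE.E_le) hm2
  obtain ⟨s, hs1, hs2⟩ := hE.TU_le
  have hXn := hE.X_nn
  have hRn := hE.R_nn
  have hNn := hE.N_nn
  refine ⟨X / p ^ 2, Real.sqrt N / p, by positivity, by positivity, ?_, ?_, ?_⟩
  · rw [div_pow, Real.sq_sqrt hNn]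
    have : N / p ^ 2 + 2 * (X / p ^ 2) = (N + 2 * X) / p ^ 2 := by ring
    rw [this, div_le_iff₀ hp2]
    exact hEN
  · have hs : s ≤ (Real.sqrt N) ^ 3 := by
      refine (abs_le_of_sq_le_sq' ?_ (by positivity)).2
      have : (Real.sqrt N ^ 3) ^ 2 = N ^ 3 := by
        rw [← pow_mul, mul_comm, pow_mul, Real.sq_sqrt hNn]
      rw [this]; exact hs2
    have heu := ((le_abs_self eu).trans hE.eu_le).trans he
    have h1 := hT
    rw [hE.T_eq] at h1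
    have h2 := ar_T h0 hδ hl hb hδ1 hm0 heu he hm hR hs hs1 h1
    have h4 : (ρ - δ) * p ^ 3 ≤ (3 * (X / p ^ 2) + (Real.sqrt N / p) ^ 3) * p ^ 3 := by
      have e1 : (3 * (X / p ^ 2) + (Real.sqrt N / p) ^ 3) * p ^ 3 = 3 * p * X + Real.sqrt N ^ 3 := by
        field_simp
      rw [e1]; exact h2
    exact le_of_mul_le_mul_right h4 hp3
  · rw [hE.Ch_eq]
    have e1 : p ^ 2 + 2 * p * eu + (X + R) - (1 + X / p ^ 2) * p ^ 2 = 2 * p * eu + R := by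
      field_simp; ring
    rw [e1]
    refine (abs_add_le _ _).trans ?_
    rw [abs_mul, abs_of_pos (show (0:ℝ) < 2 * p by positivity), abs_of_nonneg hRn]
    have heu := hE.eu_le.trans he
    have a1 : 2 * p * |eu| ≤ 2 * p * (2 * l * p) := mul_le_mul_of_nonneg_left heu (by positivity)
    have h3 : 6 * l + 10 * b ≤ δ := by rw [hb]; linarith
    have a2 := mul_le_mul_of_nonneg_right h3 hp2.le
    have e3 : 2 * p * (2 * l * p) + (2 * l + 10 * b) * p ^ 2 = (6 * l + 10 * b) * p ^ 2 := by ring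
    linarith

/-- the numerical dichotomy -/
theorem dichotomy {r x y : ℝ} (hr1 : 1 ≤ r) (hr2 : r ≤ 2) (hx : 0 ≤ x) (hy : 0 ≤ y)
    (h1 : y ^ 2 + 2 * x ≤ r ^ 2 + 1 / 5000) (h2 : y ^ 2 + 2 * x ≤ 2 * r ^ 3 / 3 + 1 / 5000)
    (h3 : r ^ 3 - 1 / 5000 ≤ 3 * x + y ^ 3) :
    (y ≤ 1 / 10 ∧ 3 / 10 ≤ x ∧ r < 2) ∨ (7 / 5 ≤ y ∧ x ≤ 1 / 8 ∧ 1 < r) := by
  have hr31 : 1 ≤ r ^ 3 := one_le_pow₀ hr1
  by_cases c1 : y ≤ 1 / 10
  · left
    have hy3 : y ^ 3 ≤ (1 / 10) ^ 3 := pow_le_pow_left₀ hy c1 3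
    refine ⟨c1, by linarith, ?_⟩
    by_contra hcon
    have hr : r = 2 := le_antisymm hr2 (not_lt.mp hcon)
    subst hr
    nlinarith [sq_nonneg y]
  · push Not at c1
    by_cases c2 : y < 7 / 5
    · exfalso
      have a1 : (1 / 10) ^ 2 ≤ y ^ 2 := pow_le_pow_left₀ (by norm_num) c1.le 2
      have a2 : y ^ 2 * (3 / 2 - y) ≤ 5 / 2 * (1 / 5000) := by nlinarith
      nlinarith
    · push Not at c2
      right
      refine ⟨c2, ?_, ?_⟩
      · by_contra hcon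
        push Not at hcon
        have hr22 : r ^ 2 ≤ 4 := by nlinarith
        set A := y ^ 2 + 2 * x with hA
        set B := 3 * x + y ^ 3 with hB
        have hy2 : y ^ 2 ≤ 4 + 1 / 5000 := by linarith
        have hy21 : y ≤ 21 / 10 := by nlinarith
        have hx21 : x ≤ 2 + 1 / 10000 := by nlinarith [sq_nonneg y]
        have hB1 : B ≤ 16 := by
          have : y ^ 3 ≤ (21 / 10) ^ 3 := pow_le_pow_left₀ hy hy21 3
          rw [hB]; linarith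
        have hA1 : 1 ≤ A := by nlinarith
        have hA2 : A ≤ 5 := by linarith
        have hr6 : (A - 1 / 5000) ^ 3 ≤ (B + 1 / 5000) ^ 2 := by
          have b1 : (A - 1 / 5000) ^ 3 ≤ (r ^ 2) ^ 3 :=
            pow_le_pow_left₀ (by linarith) (by linarith) 3
          have b2 : (r ^ 3) ^ 2 ≤ (B + 1 / 5000) ^ 2 :=
            pow_le_pow_left₀ (by linarith) (by linarith) 2
          have b3 : (r ^ 2) ^ 3 = (r ^ 3) ^ 2 := by ring
          linarith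
        have c3 : (B + 1 / 5000) ^ 2 ≤ B ^ 2 + 33 / 5000 := by nlinarith
        have c4 : A ^ 3 - 75 / 5000 ≤ (A - 1 / 5000) ^ 3 := by nlinarith
        have c5 : A ^ 3 - B ^ 2 = 6 * x * y ^ 3 * (y - 1) + (12 * y ^ 2 - 9) * x ^ 2 + 8 * x ^ 3 := by
          rw [hA, hB]; ring
        have c6 : (7 / 5) ^ 3 ≤ y ^ 3 := pow_le_pow_left₀ (by norm_num) c2 3
        have c7 : 6 * x * y ^ 3 * (y - 1) ≥ 6 * (1 / 8) * (7 / 5) ^ 3 * (2 / 5) := by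
          have d1 : (1 / 8) * (7 / 5) ^ 3 ≤ x * y ^ 3 :=
            mul_le_mul hcon.le c6 (by norm_num) hx
          have d2 : (1 / 8) * (7 / 5) ^ 3 * (2 / 5) ≤ x * y ^ 3 * (y - 1) :=
            mul_le_mul d1 (by linarith) (by norm_num) (by positivity)
          nlinarith
        have c8 : 0 ≤ (12 * y ^ 2 - 9) * x ^ 2 := mul_nonneg (by nlinarith) (sq_nonneg x)
        have c9 : 0 ≤ 8 * x ^ 3 := by positivity
        norm_num at c7
        linarith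
      · by_contra hcon
        have hr : r = 1 := le_antisymm (not_lt.mp hcon) hr1
        subst hr
        nlinarith

end Pool.Agent.H767R3.Gr
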