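import Pool.Agent.H767R3.GrReg

/-! Expansion of triangle density around a constant, Cauchy–Schwarz and the Hilbert–Schmidt bound. -/

set_option autoImplicit false
set_option linter.dupNamespace false
set_option linter.unusedVariables false

namespace Pool.Agent.H767R3.Gr

open MeasureTheory Filter Topology Set

/-! ### linear operations for `J3` -/

theorem B3.add' {F G : ℝ → ℝ → ℝ → ℝ} {C C' : ℝ} (h : B3 F C) (h' : B3 G C') :
    B3 (fun x y z => F x y z + G x y z) (C + C') :=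
  ⟨h.meas.add h'.meas, fun x y z => (abs_add_le _ _).trans (add_le_add (h.bd _ _ _) (h'.bd _ _ _))⟩

theorem B3.smul {F : ℝ → ℝ → ℝ → ℝ} {C : ℝ} (h : B3 F C) (c : ℝ) :
    B3 (fun x y z => c * F x y z) (|c| * C) :=
  ⟨h.meas.const_mul c, fun x y z => by
    rw [abs_mul]; exact mul_le_mul_of_nonneg_left (h.bd _ _ _) (abs_nonneg _)⟩

theorem B3.const (c : ℝ) : B3 (fun _ _ _ => c) |c| := ⟨measurable_const, fun _ _ _ => le_rfl⟩

theorem J3_const (c : ℝ) : J3 (fun _ _ _ => c) = c := by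
  unfold J3; simp

theorem J3_smul (F : ℝ → ℝ → ℝ → ℝ) (c : ℝ) : J3 (fun x y z => c * F x y z) = c * J3 F := by
  unfold J3; rw [integral_const_mul]

theorem J3_mono {F G : ℝ → ℝ → ℝ → ℝ} {C C' : ℝ} (h : B3 F C) (h' : B3 G C')
    (hle : ∀ x y z, F x y z ≤ G x y z) : J3 F ≤ J3 G :=
  integral_mono h.int h'.int fun q => hle _ _ _

theorem b3_xy {F : ℝ → ℝ → ℝ} (h : B2 F) : B3 (fun x y _ => F x y) 1 :=
  ⟨h.meas.comp (measurable_fst.prodMk (measurable_fst.comp measurable_snd)), fun x y z => h.bd x y⟩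

theorem b3_xz {F : ℝ → ℝ → ℝ} (h : B2 F) : B3 (fun x _ z => F x z) 1 :=
  ⟨h.meas.comp (measurable_fst.prodMk (measurable_snd.comp measurable_snd)), fun x y z => h.bd x z⟩

theorem b3_yz {F : ℝ → ℝ → ℝ} (h : B2 F) : B3 (fun _ y z => F y z) 1 :=
  ⟨h.meas.comp measurable_snd, fun x y z => h.bd y z⟩

theorem B2.int {F : ℝ → ℝ → ℝ} (h : B2 F) : Integrable (fun z : ℝ × ℝ => F z.1 z.2) P2 :=
  int_bd h.meas fun z => h.bd _ _

theorem B2.row {F : ℝ → ℝ → ℝ} (h : B2 F) (x : ℝ) : Integrable (fun y => F x y) μ :=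
  int_bd (h.meas.comp (measurable_const.prodMk measurable_id)) fun y => h.bd _ _

theorem B2.eq_iter {F : ℝ → ℝ → ℝ} (h : B2 F) : ∫ z, F z.1 z.2 ∂P2 = ∫ x, ∫ y, F x y ∂μ ∂μ := by
  rw [integral_prod _ h.int]

theorem J3_xy {F : ℝ → ℝ → ℝ} (h : B2 F) : J3 (fun x y _ => F x y) = ∫ z, F z.1 z.2 ∂P2 := by
  rw [(b3_xy h).eq_iter, h.eq_iter]
  simp

theorem J3_xz {F : ℝ → ℝ → ℝ} (h : B2 F) : J3 (fun x _ z => F x z) = ∫ z, F z.1 z.2 ∂P2 := by
  rw [(b3_xz h).swap23, J3_xy h]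

theorem J3_yz {F : ℝ → ℝ → ℝ} (h : B2 F) : J3 (fun _ y z => F y z) = ∫ z, F z.1 z.2 ∂P2 := by
  rw [(b3_yz h).swap12, J3_xz h]

/-! ### Cauchy–Schwarz -/

theorem cs {α : Type*} [MeasurableSpace α] {ν : Measure α} [IsFiniteMeasure ν] {f g : α → ℝ}
    (hf : Measurable f) (hg : Measurable g) {C D : ℝ} (hC : ∀ x, |f x| ≤ C) (hD : ∀ x, |g x| ≤ D) :
    (∫ x, f x * g x ∂ν) ^ 2 ≤ (∫ x, f x ^ 2 ∂ν) * (∫ x, g x ^ 2 ∂ν) := by
  have i1 : Integrable (fun x => f x ^ 2) ν := int_bd (hf.pow_const 2) (C := C ^ 2) fun x => by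
    rw [abs_pow]; exact pow_le_pow_left₀ (abs_nonneg _) (hC x) 2
  have i2 : Integrable (fun x => g x ^ 2) ν := int_bd (hg.pow_const 2) (C := D ^ 2) fun x => by
    rw [abs_pow]; exact pow_le_pow_left₀ (abs_nonneg _) (hD x) 2
  have i3 : Integrable (fun x => f x * g x) ν := int_bd (hf.mul hg) (C := C * D) fun x => by
    rw [abs_mul]
    exact mul_le_mul (hC x) (hD x) (abs_nonneg _) ((abs_nonneg _).trans (hC x))
  set a := ∫ x, f x ^ 2 ∂ν
  set b := ∫ x, f x * g x ∂ν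
  set c := ∫ x, g x ^ 2 ∂ν
  have h : ∀ t : ℝ, 0 ≤ c * (t * t) + 2 * b * t + a := by
    intro t
    have h1 : 0 ≤ ∫ x, (f x + t * g x) ^ 2 ∂ν := integral_nonneg fun x => sq_nonneg _
    have h2 : ∫ x, (f x + t * g x) ^ 2 ∂ν = c * (t * t) + 2 * b * t + a := by
      have e : (fun x => (f x + t * g x) ^ 2) =
          fun x => (t * t) * g x ^ 2 + ((2 * t) * (f x * g x) + f x ^ 2) := by
        funext x; ring
      rw [e]
      have j1 : Integrable (fun x => (2 * t) * (f x * g x) + f x ^ 2) ν := (i3.const_mul _).add i1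
      rw [integral_add (i2.const_mul _) j1, integral_add (i3.const_mul _) i1, integral_const_mul,
        integral_const_mul]
      ring
    rw [← h2]; exact h1
  have := discrim_le_zero h
  unfold discrim at this
  nlinarith

/-- the Hilbert–Schmidt bound -/
theorem T_sq_le {A : ℝ → ℝ → ℝ} (hA : B2 A) :
    T A ^ 2 ≤ (∫ z, A z.1 z.2 ^ 2 ∂P2) ^ 3 := by
  set N := ∫ z, A z.1 z.2 ^ 2 ∂P2 with hN
  have hN0 : 0 ≤ N := integral_nonneg fun z => sq_nonneg _
  have hA2 : B2 (fun x y => A x y ^ 2) :=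
    ⟨hA.meas.pow_const 2, fun x y => by rw [abs_pow]; exact pow_le_one₀ (abs_nonneg _) (hA.bd _ _)⟩
  have hrow : ∀ x, Measurable (fun z => A x z) := fun x =>
    hA.meas.comp (measurable_const.prodMk measurable_id)
  set Q : ℝ → ℝ → ℝ := fun x y => ∫ z, A y z * A x z ∂μ with hQ
  set n : ℝ → ℝ := fun x => ∫ z, A x z ^ 2 ∂μ with hn
  have hm3 : Measurable (fun w : (ℝ × ℝ) × ℝ => A w.1.2 w.2 * A w.1.1 w.2) :=
    (hA.meas.comp ((measurable_snd.comp measurable_fst).prodMk measurable_snd)).mul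
      (hA.meas.comp ((measurable_fst.comp measurable_fst).prodMk measurable_snd))
  have hQm : Measurable (fun w : ℝ × ℝ => Q w.1 w.2) := by
    have : StronglyMeasurable (fun w : ℝ × ℝ => ∫ z, A w.2 z * A w.1 z ∂μ) :=
      hm3.stronglyMeasurable.integral_prod_right
    exact this.measurable
  have hnm : Measurable n := by
    have hm2 : Measurable (fun w : ℝ × ℝ => A w.1 w.2 ^ 2) := hA2.meas
    have : StronglyMeasurable (fun x : ℝ => ∫ z, A x z ^ 2 ∂μ) :=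
      hm2.stronglyMeasurable.integral_prod_right
    exact this.measurable
  have hQb : ∀ x y, |Q x y| ≤ 1 := by
    intro x y
    have := norm_integral_le_of_norm_le_const (μ := μ) (f := fun z => A y z * A x z) (C := 1)
      (Eventually.of_forall fun z => by
        rw [Real.norm_eq_abs, abs_mul]; exact mul_le_one₀ (hA.bd _ _) (abs_nonneg _) (hA.bd _ _))
    simpa using this
  have hn0 : ∀ x, 0 ≤ n x := fun x => integral_nonneg fun z => sq_nonneg _
  have hn1 : ∀ x, |n x| ≤ 1 := by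
    intro x
    have := norm_integral_le_of_norm_le_const (μ := μ) (f := fun z => A x z ^ 2) (C := 1)
      (Eventually.of_forall fun z => hA2.bd _ _)
    simpa using this
  have hQn : ∀ x y, Q x y ^ 2 ≤ n x * n y := by
    intro x y
    have := cs (ν := μ) (hrow y) (hrow x) (hA.bd y) (hA.bd x)
    rw [mul_comm (n x)]
    exact this
  have hT : T A = ∫ w, A w.1 w.2 * Q w.1 w.2 ∂P2 := by
    have hb2 : B2 (fun x y => A x y * Q x y) :=
      ⟨hA.meas.mul hQm, fun x y => by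
        rw [abs_mul]; exact mul_le_one₀ (hA.bd _ _) (abs_nonneg _) (hQb _ _)⟩
    rw [hb2.eq_iter]
    unfold T
    congr 1
    funext x
    congr 1
    funext y
    rw [hQ, ← integral_const_mul]
    congr 1
    funext z
    ring
  have h1 := cs (ν := P2) hA.meas hQm (fun z => hA.bd z.1 z.2) (fun z => hQb z.1 z.2)
  rw [← hT] at h1
  have h2 : ∫ w, Q w.1 w.2 ^ 2 ∂P2 ≤ N ^ 2 := by
    have e1 : ∫ w : ℝ × ℝ, n w.1 * n w.2 ∂P2 = (∫ x, n x ∂μ) * (∫ x, n x ∂μ) :=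
      integral_prod_mul n n
    have e2 : ∫ x, n x ∂μ = N := by
      rw [hN, hA2.eq_iter]
    rw [e2] at e1
    have : ∫ w, Q w.1 w.2 ^ 2 ∂P2 ≤ ∫ w : ℝ × ℝ, n w.1 * n w.2 ∂P2 := by
      refine integral_mono ?_ ?_ fun w => hQn _ _
      · exact int_bd (hQm.pow_const 2) (C := 1) fun z => by
          rw [abs_pow]; exact pow_le_one₀ (abs_nonneg _) (hQb _ _)
      · exact int_bd ((hnm.comp measurable_fst).mul (hnm.comp measurable_snd)) (C := 1) fun z => by
          rw [abs_mul]; exact mul_le_one₀ (hn1 _) (abs_nonneg _) (hn1 _)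
    rw [e1] at this
    nlinarith
  calc T A ^ 2 ≤ N * ∫ w, Q w.1 w.2 ^ 2 ∂P2 := h1
    _ ≤ N * N ^ 2 := mul_le_mul_of_nonneg_left h2 hN0
    _ = N ^ 3 := by ring

/-! ### expansion -/

theorem swap_ch1 {U : ℝ → ℝ → ℝ} (hU : B2 U) (hs : ∀ x y, U x y = U y x) :
    J3 (fun x y z => U x y * U y z) = Ch U := by
  have hb : B3 (fun x y z => U x y * U y z) 1 := by
    refine ⟨(b3_xy hU).meas.mul (b3_yz hU).meas, fun x y z => ?_⟩
    rw [abs_mul]; exact mul_le_one₀ (hU.bd _ _) (abs_nonneg _) (hU.bd _ _)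
  rw [hb.swap12, Ch_eq hU]
  congr 1
  funext x y z
  rw [hs y x]

theorem swap_ch2 {U : ℝ → ℝ → ℝ} (hU : B2 U) (hs : ∀ x y, U x y = U y x) :
    J3 (fun x y z => U y z * U x z) = Ch U := by
  have hb : B3 (fun x y z => U y z * U x z) 1 := by
    refine ⟨(b3_yz hU).meas.mul (b3_xz hU).meas, fun x y z => ?_⟩
    rw [abs_mul]; exact mul_le_one₀ (hU.bd _ _) (abs_nonneg _) (hU.bd _ _)
  rw [hb.swap23, ← swap_ch1 hU hs]
  congr 1
  funext x y z
  rw [hs z y]
  ring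

theorem T_expand {W U : ℝ → ℝ → ℝ} {p : ℝ} (hW : B2 W) (hU : B2 U) (hs : ∀ x y, U x y = U y x)
    (h : ∀ x y, W x y = p + U x y) :
    T W = p ^ 3 + 3 * p ^ 2 * (∫ z, U z.1 z.2 ∂P2) + 3 * p * Ch U + T U := by
  have b1 := b3_xy hU
  have b2 := b3_yz hU
  have b3 := b3_xz hU
  have c1 : B3 (fun x y z => U x y * U y z) 1 := by
    refine ⟨b1.meas.mul b2.meas, fun x y z => ?_⟩
    rw [abs_mul]; exact mul_le_one₀ (hU.bd _ _) (abs_nonneg _) (hU.bd _ _)
  have c2 : B3 (fun x y z => U y z * U x z) 1 := by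
    refine ⟨b2.meas.mul b3.meas, fun x y z => ?_⟩
    rw [abs_mul]; exact mul_le_one₀ (hU.bd _ _) (abs_nonneg _) (hU.bd _ _)
  have c3 := b3_che hU hU
  have c4 := b3_tri hU hU hU
  have e : T W = J3 (fun x y z => p ^ 3 + (p ^ 2 * U x y + (p ^ 2 * U y z + (p ^ 2 * U x z +
      (p * (U x y * U y z) + (p * (U y z * U x z) + (p * (U x y * U x z) +
      U x y * U y z * U x z))))))) := by
    rw [T_eq hW]
    congr 1
    funext x y z
    rw [h x y, h y z, h x z]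
    ring
  have d1 := (c3.smul p).add' c4
  have d2 := (c2.smul p).add' d1
  have d3 := (c1.smul p).add' d2
  have d4 := (b3.smul (p ^ 2)).add' d3
  have d5 := (b2.smul (p ^ 2)).add' d4
  have d6 := (b1.smul (p ^ 2)).add' d5
  rw [e, (B3.const (p ^ 3)).add d6, (b1.smul (p ^ 2)).add d5, (b2.smul (p ^ 2)).add d4,
    (b3.smul (p ^ 2)).add d3, (c1.smul p).add d2, (c2.smul p).add d1, (c3.smul p).add c4,
    J3_const, J3_smul, J3_smul, J3_smul, J3_smul, J3_smul, J3_smul, J3_xy hU, J3_yz hU, J3_xz hU,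
    swap_ch1 hU hs, swap_ch2 hU hs, ← Ch_eq hU, ← T_eq hU]
  ring

theorem Ch_expand {W U : ℝ → ℝ → ℝ} {p : ℝ} (hW : B2 W) (hU : B2 U)
    (h : ∀ x y, W x y = p + U x y) :
    Ch W = p ^ 2 + 2 * p * (∫ z, U z.1 z.2 ∂P2) + Ch U := by
  have b1 := b3_xy hU
  have b3 := b3_xz hU
  have c3 := b3_che hU hU
  have e : Ch W = J3 (fun x y z => p ^ 2 + (p * U x y + (p * U x z + U x y * U x z))) := by
    rw [Ch_eq hW]
    congr 1
    funext x y z
    rw [h x y, h x z]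
    ring
  have d1 := (b3.smul p).add' c3
  have d2 := (b1.smul p).add' d1
  rw [e, (B3.const (p ^ 2)).add d2, (b1.smul p).add d1, (b3.smul p).add c3,
    J3_const, J3_smul, J3_smul, J3_xy hU, J3_xz hU, ← Ch_eq hU]
  ring

theorem Ch_sq {U : ℝ → ℝ → ℝ} : Ch U = ∫ x, (∫ y, U x y ∂μ) ^ 2 ∂μ := by
  unfold Ch
  congr 1
  funext x
  have : ∀ y, ∫ z, U x y * U x z ∂μ = U x y * ∫ z, U x z ∂μ := fun y => integral_const_mul _ _
  simp_rw [this]
  rw [integral_mul_const, sq]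

end Pool.Agent.H767R3.Gr
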