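import Pool.Agent.H767R3.GrNum

/-! The clique and hub constructions, and the cost of the constant graphon. -/

set_option autoImplicit false
set_option linter.dupNamespace false
set_option linter.unusedVariables false

namespace Pool.Agent.H767R3.Gr

open MeasureTheory Filter Topology Set

/-- indicator of `[0,a]` -/
noncomputable def fa (a x : ℝ) : ℝ := if x ≤ a then 1 else 0

theorem fa_meas (a : ℝ) : Measurable (fa a) :=
  Measurable.ite measurableSet_Iic measurable_const measurable_const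

theorem fa01 (a x : ℝ) : fa a x = 0 ∨ fa a x = 1 := by unfold fa; split_ifs <;> simp

theorem fa_abs (a x : ℝ) : |fa a x| ≤ 1 := by
  rcases fa01 a x with h | h <;> rw [h] <;> norm_num

theorem fa_int {a : ℝ} (h0 : 0 ≤ a) (h1 : a ≤ 1) : ∫ x, fa a x ∂μ = a := by
  have e1 : (fun x => fa a x) = (Iic a).indicator (fun _ => (1:ℝ)) := by
    funext x
    unfold fa
    by_cases h : x ≤ a
    · rw [if_pos h, Set.indicator_of_mem (show x ∈ Iic a from h)]
    · rw [if_neg h, Set.indicator_of_notMem (show x ∉ Iic a from h)]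
  rw [e1, integral_indicator measurableSet_Iic]
  simp only [integral_const, smul_eq_mul, mul_one]
  rw [measureReal_restrict_apply MeasurableSet.univ, univ_inter]
  unfold μ
  rw [measureReal_restrict_apply measurableSet_Iic]
  have : Iic a ∩ Icc (0:ℝ) 1 = Icc 0 a := by
    ext x
    simp only [mem_inter_iff, mem_Iic, mem_Icc]
    constructor
    · rintro ⟨h2, h3, h4⟩; exact ⟨h3, h2⟩
    · rintro ⟨h2, h3⟩; exact ⟨h3, h2, h3.trans h1⟩
  rw [this]
  simp [h0]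

theorem fa2 (a : ℝ) : B2 (fun x y => fa a x * fa a y) :=
  ⟨((fa_meas a).comp measurable_fst).mul ((fa_meas a).comp measurable_snd), fun x y => by
    rw [abs_mul]; exact mul_le_one₀ (fa_abs _ _) (abs_nonneg _) (fa_abs _ _)⟩

theorem fa2_int {a : ℝ} (h0 : 0 ≤ a) (h1 : a ≤ 1) :
    ∫ w : ℝ × ℝ, fa a w.1 * fa a w.2 ∂P2 = a ^ 2 := by
  rw [integral_prod_mul (μ := μ) (ν := μ) (fa a) (fa a), fa_int h0 h1]; ring

/-- clique graphon -/
noncomputable def cl (p a : ℝ) : ℝ → ℝ → ℝ := fun x y => p + (1 - p) * (fa a x * fa a y)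

/-- hub graphon -/
noncomputable def hu (p a : ℝ) : ℝ → ℝ → ℝ := fun x y =>
  p + (1 - p) * (fa a x + fa a y - fa a x * fa a y)

theorem cl_gr {p a : ℝ} (hp0 : 0 ≤ p) (hp1 : p ≤ 1) : Gr (cl p a) := by
  refine ⟨measurable_const.add (measurable_const.mul (fa2 a).meas), fun x y => by
    unfold cl; ring, fun x y => ?_⟩
  unfold cl
  rcases fa01 a x with h | h <;> rcases fa01 a y with h' | h' <;> rw [h, h'] <;>
    constructor <;> linarith

theorem hu_gr {p a : ℝ} (hp0 : 0 ≤ p) (hp1 : p ≤ 1) : Gr (hu p a) := by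
  refine ⟨?_, fun x y => by unfold hu; ring, fun x y => ?_⟩
  · exact measurable_const.add (measurable_const.mul
      ((((fa_meas a).comp measurable_fst).add ((fa_meas a).comp measurable_snd)).sub (fa2 a).meas))
  unfold hu
  rcases fa01 a x with h | h <;> rcases fa01 a y with h' | h' <;> rw [h, h'] <;>
    constructor <;> linarith

theorem cl_E {p a : ℝ} (hp0 : 0 < p) (hp1 : p < 1) (h0 : 0 ≤ a) (h1 : a ≤ 1) :
    Eg (hp p) (cl p a) = a ^ 2 * Real.log (1 / p) := by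
  rw [Eg_eq (hp_cont hp0 hp1) (cl_gr hp0.le hp1.le)]
  have : ∀ z : ℝ × ℝ, hp p (cl p a z.1 z.2) = Real.log (1 / p) * (fa a z.1 * fa a z.2) := by
    intro z
    unfold cl
    rcases fa01 a z.1 with h | h <;> rcases fa01 a z.2 with h' | h' <;> rw [h, h']
    · simp [hp_p hp0 hp1]
    · simp [hp_p hp0 hp1]
    · simp [hp_p hp0 hp1]
    · simp only [mul_one]
      rw [add_sub_cancel, hp_one]
  simp_rw [this]
  rw [integral_const_mul, fa2_int h0 h1]
  ring

theorem hu_E {p a : ℝ} (hp0 : 0 < p) (hp1 : p < 1) (h0 : 0 ≤ a) (h1 : a ≤ 1) :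
    Eg (hp p) (hu p a) = (2 * a - a ^ 2) * Real.log (1 / p) := by
  rw [Eg_eq (hp_cont hp0 hp1) (hu_gr hp0.le hp1.le)]
  have : ∀ z : ℝ × ℝ, hp p (hu p a z.1 z.2) =
      Real.log (1 / p) * (fa a z.1 + (fa a z.2 - fa a z.1 * fa a z.2)) := by
    intro z
    unfold hu
    rcases fa01 a z.1 with h | h <;> rcases fa01 a z.2 with h' | h' <;> rw [h, h']
    · simp [hp_p hp0 hp1]
    · norm_num
      rw [hp_one]; simp [Real.log_inv]
    · norm_num
      rw [hp_one]; simp [Real.log_inv]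
    · norm_num
      rw [hp_one]; simp [Real.log_inv]
  simp_rw [this]
  have i1 : Integrable (fun z : ℝ × ℝ => fa a z.1) P2 :=
    int_bd ((fa_meas a).comp measurable_fst) (C := 1) fun z => fa_abs _ _
  have i2 : Integrable (fun z : ℝ × ℝ => fa a z.2) P2 :=
    int_bd ((fa_meas a).comp measurable_snd) (C := 1) fun z => fa_abs _ _
  have i3 := (fa2 a).int
  have i4 : Integrable (fun z : ℝ × ℝ => fa a z.2 - fa a z.1 * fa a z.2) P2 := i2.sub i3
  have e1 : ∫ z : ℝ × ℝ, fa a z.1 ∂P2 = a := by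
    rw [integral_fun_fst]; simp [fa_int h0 h1]
  have e2 : ∫ z : ℝ × ℝ, fa a z.2 ∂P2 = a := by
    rw [integral_fun_snd]; simp [fa_int h0 h1]
  rw [integral_const_mul, integral_add i1 i4, integral_sub i2 i3, fa2_int h0 h1, e1, e2]
  ring

theorem cl_T {p a : ℝ} (hp0 : 0 < p) (hp1 : p < 1) (h0 : 0 ≤ a) (h1 : a ≤ 1) :
    p ^ 3 + (1 - p ^ 3) * a ^ 3 ≤ T (cl p a) := by
  have hb := (cl_gr (a := a) hp0.le hp1.le).b2
  obtain ⟨k1, k2⟩ := J3_prod1 (fa_meas a) (fa_abs a) (fa2 a)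
  rw [fa_int h0 h1, fa2_int h0 h1] at k2
  have k3 := k1.smul (1 - p ^ 3)
  have e1 : J3 (fun x y z => p ^ 3 + (1 - p ^ 3) * (fa a x * (fa a y * fa a z))) =
      p ^ 3 + (1 - p ^ 3) * a ^ 3 := by
    rw [(B3.const (p ^ 3)).add k3, J3_const, J3_smul, k2]; ring
  rw [← e1, T_eq hb]
  refine J3_mono ((B3.const (p ^ 3)).add' k3) (b3_tri hb hb hb) fun x y z => ?_
  have c1 : p ^ 3 ≤ p := by nlinarith [mul_pos hp0 hp0]
  have c2 : p ^ 3 ≤ p ^ 2 := by nlinarith [mul_pos hp0 hp0]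
  unfold cl
  rcases fa01 a x with h | h <;> rcases fa01 a y with h' | h' <;>
    rcases fa01 a z with h'' | h'' <;> rw [h, h', h''] <;> ring_nf <;> linarith

theorem hu_T {p a : ℝ} (hp0 : 0 < p) (hp1 : p < 1) (h0 : 0 ≤ a) (h1 : a ≤ 1) :
    p ^ 3 + (p - p ^ 3) * (3 * a - 3 * a ^ 2) ≤ T (hu p a) := by
  have hb := (hu_gr (a := a) hp0.le hp1.le).b2
  have hc : B2 (fun _ _ => (1:ℝ)) := ⟨measurable_const, fun _ _ => by simp⟩
  obtain ⟨k1, l1⟩ := J3_prod1 (fa_meas a) (fa_abs a) hc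
  obtain ⟨k2, l2⟩ := J3_prod2 (fa_meas a) (fa_abs a) hc
  obtain ⟨k3, l3⟩ := J3_prod3 (fa_meas a) (fa_abs a) hc
  have k4 := b3_xy (fa2 a)
  have k5 := b3_xz (fa2 a)
  have k6 := b3_yz (fa2 a)
  have l4 := J3_xy (fa2 a)
  have l5 := J3_xz (fa2 a)
  have l6 := J3_yz (fa2 a)
  rw [fa_int h0 h1] at l1 l2 l3
  rw [fa2_int h0 h1] at l4 l5 l6
  have n6 := k6.smul (-(p - p ^ 3))
  have n5 := (k5.smul (-(p - p ^ 3))).add' n6
  have n4 := (k4.smul (-(p - p ^ 3))).add' n5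
  have n3 := (k3.smul (p - p ^ 3)).add' n4
  have n2 := (k2.smul (p - p ^ 3)).add' n3
  have n1 := (k1.smul (p - p ^ 3)).add' n2
  have n0 := (B3.const (p ^ 3)).add' n1
  have e1 : J3 (fun x y z => p ^ 3 + ((p - p ^ 3) * (fa a x * 1) + ((p - p ^ 3) * (fa a y * 1) +
      ((p - p ^ 3) * (fa a z * 1) + (-(p - p ^ 3) * (fa a x * fa a y) +
        (-(p - p ^ 3) * (fa a x * fa a z) + -(p - p ^ 3) * (fa a y * fa a z))))))) =
      p ^ 3 + (p - p ^ 3) * (3 * a - 3 * a ^ 2) := by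
    rw [(B3.const (p ^ 3)).add n1, (k1.smul (p - p ^ 3)).add n2, (k2.smul (p - p ^ 3)).add n3,
      (k3.smul (p - p ^ 3)).add n4, (k4.smul (-(p - p ^ 3))).add n5,
      (k5.smul (-(p - p ^ 3))).add n6, J3_const, J3_smul, J3_smul, J3_smul, J3_smul, J3_smul,
      J3_smul, l1, l2, l3, l4, l5, l6]
    simp
    ring
  rw [← e1, T_eq hb]
  refine J3_mono n0 (b3_tri hb hb hb) fun x y z => ?_
  have c1 : p ^ 3 ≤ p := by nlinarith [mul_pos hp0 hp0]
  have c2 : p ^ 3 ≤ p ^ 2 := by nlinarith [mul_pos hp0 hp0]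
  have c3 : p ^ 3 ≤ 1 := pow_le_one₀ hp0.le hp1.le
  unfold hu
  rcases fa01 a x with h | h <;> rcases fa01 a y with h' | h' <;>
    rcases fa01 a z with h'' | h'' <;> rw [h, h', h''] <;> ring_nf <;> linarith

end Pool.Agent.H767R3.Gr
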